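import Pool.Agent.H69.Func
import Mathlib.Tactic.FunProp

/-!
# Relative computability of total functions, set up for `fun_prop`
-/

set_option autoImplicit false

namespace Pool.Agent.H69

open Encodable
open Nat.Partrec (Code)
open Nat.Partrec.Code (evaln eval)

variable {O : Set (ℕ →. ℕ)}
variable {α β γ δ σ : Type}
variable [Primcodable α] [Primcodable β] [Primcodable γ] [Primcodable δ] [Primcodable σ]

/-- the total function `F` is computable relative to the oracles in `O` -/
@[fun_prop] def RC {α σ : Type} [Primcodable α] [Primcodable σ] (O : Set (ℕ →. ℕ)) (F : α → σ) :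
    Prop := ComputableIn O F

theorem RC.iff {F : α → σ} : RC O F ↔ Rc O F := Iff.rfl

theorem RC.of_eq {f g : α → σ} (hf : RC O f) (H : ∀ n, f n = g n) : RC O g :=
  Rc.of_eq hf H

theorem RC.computable {F : α → σ} (h : RC ∅ F) : Computable F :=
  recursiveIn_empty_iff.1 h

theorem Computable.rc {F : α → σ} (h : Computable F) : RC O F := Rc.of_computable h

theorem Primrec.rc {F : α → σ} (h : Primrec F) : RC O F := Rc.of_primrec h

theorem RC.trans {O' : Set (ℕ →. ℕ)} {F : α → β} (hF : RC O F)
    (h : ∀ g ∈ O, RecursiveIn O' g) : RC O' F :=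
  RecursiveIn.subst hF h

theorem RC.trans1 {X : ℕ → ℕ} {O' : Set (ℕ →. ℕ)} {F : α → β} (hF : RC {(X : ℕ →. ℕ)} F)
    (h : RC O' X) : RC O' F := Rc.trans1 hF h

theorem RC.self (X : ℕ → ℕ) : RC {(X : ℕ →. ℕ)} X := Rc.self X

/-- Boolean equality -/
def deqb {β : Type} [DecidableEq β] (a b : β) : Bool := decide (a = b)

@[simp] theorem deqb_iff {β : Type} [DecidableEq β] {a b : β} : deqb a b = true ↔ a = b := by
  simp [deqb]

@[simp] theorem deqb_false {β : Type} [DecidableEq β] {a b : β} : deqb a b = false ↔ a ≠ b := by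
  simp [deqb]

/-- Boolean `≤` -/
def leb (a b : ℕ) : Bool := decide (a ≤ b)

@[simp] theorem leb_iff {a b : ℕ} : leb a b = true ↔ a ≤ b := by
  simp [leb]

/-- is `a` an initial segment of `b` -/
def preb (a b : List Bool) : Bool := decide (a <+: b)

@[simp] theorem preb_iff {a b : List Bool} : preb a b = true ↔ a <+: b := by
  simp [preb]

@[simp] theorem preb_false {a b : List Bool} : preb a b = false ↔ ¬ a <+: b := by
  simp [preb]

namespace RC

@[fun_prop] theorem id : RC O (fun a : α => a) := Rc.id
@[fun_prop] theorem const (s : σ) : RC O (fun _ : α => s) := Rc.const s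
@[fun_prop] theorem comp {f : β → σ} {g : α → β} (hf : RC O f) (hg : RC O g) :
    RC O fun a => f (g a) := Rc.comp hf hg
@[fun_prop] theorem pair {f : α → β} {g : α → γ} (hf : RC O f) (hg : RC O g) :
    RC O fun a => (f a, g a) := Rc.pair hf hg
@[fun_prop] theorem fst {f : α → β × γ} (hf : RC O f) : RC O fun a => (f a).1 :=
  Rc.comp Rc.fst hf
@[fun_prop] theorem snd {f : α → β × γ} (hf : RC O f) : RC O fun a => (f a).2 :=
  Rc.comp Rc.snd hf

/-! ### numbers -/

@[fun_prop] theorem add {f g : α → ℕ} (hf : RC O f) (hg : RC O g) :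
    RC O fun a => f a + g a := Rc.prim2 Primrec.nat_add hf hg
@[fun_prop] theorem sub {f g : α → ℕ} (hf : RC O f) (hg : RC O g) :
    RC O fun a => f a - g a := Rc.prim2 Primrec.nat_sub hf hg
@[fun_prop] theorem mul {f g : α → ℕ} (hf : RC O f) (hg : RC O g) :
    RC O fun a => f a * g a := Rc.prim2 Primrec.nat_mul hf hg
@[fun_prop] theorem max {f g : α → ℕ} (hf : RC O f) (hg : RC O g) :
    RC O fun a => max (f a) (g a) := Rc.prim2 Primrec.nat_max hf hg
@[fun_prop] theorem min {f g : α → ℕ} (hf : RC O f) (hg : RC O g) :
    RC O fun a => min (f a) (g a) := Rc.prim2 Primrec.nat_min hf hg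
@[fun_prop] theorem succ {f : α → ℕ} (hf : RC O f) :
    RC O fun a => Nat.succ (f a) := Rc.prim1 Primrec.succ hf
@[fun_prop] theorem nat_pair {f g : α → ℕ} (hf : RC O f) (hg : RC O g) :
    RC O fun a => Nat.pair (f a) (g a) := Rc.prim2 Primrec₂.natPair hf hg
@[fun_prop] theorem unpair {f : α → ℕ} (hf : RC O f) :
    RC O fun a => Nat.unpair (f a) := Rc.prim1 Primrec.unpair hf
@[fun_prop] theorem div2 {f : α → ℕ} (hf : RC O f) :
    RC O fun a => Nat.div2 (f a) := Rc.prim1 Primrec.nat_div2 hf
@[fun_prop] theorem bodd {f : α → ℕ} (hf : RC O f) :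
    RC O fun a => Nat.bodd (f a) := Rc.prim1 Primrec.nat_bodd hf

/-! ### Booleans -/

@[fun_prop] theorem and {f g : α → Bool} (hf : RC O f) (hg : RC O g) :
    RC O fun a => (f a && g a) := Rc.prim2 (Primrec.dom_bool₂ Bool.and) hf hg
@[fun_prop] theorem or {f g : α → Bool} (hf : RC O f) (hg : RC O g) :
    RC O fun a => (f a || g a) := Rc.prim2 (Primrec.dom_bool₂ Bool.or) hf hg
@[fun_prop] theorem not {f : α → Bool} (hf : RC O f) :
    RC O fun a => (! f a) := Rc.prim1 (Primrec.dom_bool Bool.not) hf
@[fun_prop] theorem toNat {f : α → Bool} (hf : RC O f) :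
    RC O fun a => (f a).toNat := Rc.prim1 (Primrec.dom_bool Bool.toNat) hf
@[fun_prop] theorem cond {c : α → Bool} {f : α → σ} {g : α → σ} (hc : RC O c) (hf : RC O f)
    (hg : RC O g) : RC O fun a => bif (c a) then (f a) else (g a) := Rc.cond hc hf hg
@[fun_prop] theorem dle {f g : α → ℕ} (hf : RC O f) (hg : RC O g) :
    RC O fun a => decide (f a ≤ g a) := by
  have : Primrec (fun p : ℕ × ℕ => decide (p.1 ≤ p.2)) :=
    (Primrec.nat_le.comp Primrec.fst Primrec.snd).decide
  exact Rc.prim1 this (Rc.pair hf hg)
@[fun_prop] theorem leb {f g : α → ℕ} (hf : RC O f) (hg : RC O g) :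
    RC O fun a => leb (f a) (g a) := by
  have : Primrec (fun p : ℕ × ℕ => decide (p.1 ≤ p.2)) :=
    (Primrec.nat_le.comp Primrec.fst Primrec.snd).decide
  exact Rc.prim1 this (Rc.pair hf hg)
@[fun_prop] theorem dlt {f g : α → ℕ} (hf : RC O f) (hg : RC O g) :
    RC O fun a => decide (f a < g a) := by
  have : Primrec (fun p : ℕ × ℕ => decide (p.1 < p.2)) :=
    (Primrec.nat_lt.comp Primrec.fst Primrec.snd).decide
  exact Rc.prim1 this (Rc.pair hf hg)
@[fun_prop] theorem deq {f g : α → ℕ} (hf : RC O f) (hg : RC O g) :
    RC O fun a => decide (f a = g a) := by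
  have : Primrec (fun p : ℕ × ℕ => decide (p.1 = p.2)) :=
    (Primrec.eq.comp Primrec.fst Primrec.snd).decide
  exact Rc.prim1 this (Rc.pair hf hg)
@[fun_prop] theorem deqb [DecidableEq β] {f g : α → β} (hf : RC O f) (hg : RC O g) :
    RC O fun a => deqb (f a) (g a) := by
  have : Primrec (fun p : β × β => decide (p.1 = p.2)) :=
    (Primrec.eq.comp Primrec.fst Primrec.snd).decide
  exact Rc.prim1 this (Rc.pair hf hg)
@[fun_prop] theorem ite {c : α → Prop} [DecidablePred c] {f : α → σ} {g : α → σ}
    (hc : RC O (fun a => decide (c a))) (hf : RC O f)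
    (hg : RC O g) : RC O fun a => if c a then f a else g a := Rc.ite hc hf hg

/-! ### recursion and search -/

@[fun_prop] theorem nat_rec {f : α → ℕ} {g : α → σ} {h : α → ℕ → σ → σ} (hf : RC O f)
    (hg : RC O g) (hh : RC O (fun p : α × ℕ × σ => h p.1 p.2.1 p.2.2)) :
    RC O fun a => Nat.rec (motive := fun _ => σ) (g a) (fun y IH => h a y IH) (f a) :=
  Rc.nat_rec hf hg hh

theorem find {P : α → ℕ → Bool} (hP : RC O (fun p : α × ℕ => P p.1 p.2))
    (hex : ∀ a, ∃ n, P a n = true) : RC O fun a => Nat.find (hex a) := Rc.find hP hex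

/-! ### options -/

@[fun_prop] theorem some' {f : α → β} (hf : RC O f) : RC O fun a => some (f a) :=
  Rc.prim1 Primrec.option_some hf
@[fun_prop] theorem getD {f : α → Option β} {g : α → β} (hf : RC O f) (hg : RC O g) :
    RC O fun a => (f a).getD (g a) := Rc.prim2 Primrec.option_getD hf hg
@[fun_prop] theorem isSome {f : α → Option β} (hf : RC O f) :
    RC O fun a => (f a).isSome := Rc.prim1 Primrec.option_isSome hf
@[fun_prop] theorem isNone {f : α → Option β} (hf : RC O f) :
    RC O fun a => (f a).isNone :=
  (not (isSome hf)).of_eq fun a => by cases f a <;> rfl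
@[fun_prop] theorem option_or {f g : α → Option β} (hf : RC O f) (hg : RC O g) :
    RC O fun a => (f a).or (g a) := by
  have : Primrec₂ (fun (x y : Option β) => x.or y) :=
    Primrec₂.of_eq Primrec.option_orElse fun a b => by cases a <;> rfl
  exact Rc.prim2 this hf hg

/-- case distinction on an option -/
@[fun_prop] theorem option_elim {f : α → Option β} {g : α → σ} {h : α → β → σ} (hf : RC O f)
    (hg : RC O g) (hh : RC O (fun p : α × β => h p.1 p.2)) :
    RC O fun a => (f a).elim (g a) (h a) := by
  by_cases hne : Nonempty β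
  · obtain ⟨b0⟩ := hne
    have h1 : RC O (fun a => h a ((f a).getD b0)) :=
      comp (f := fun p : α × β => h p.1 p.2) (g := fun a => (a, (f a).getD b0)) hh
        (by fun_prop)
    have h2 : RC O (fun a => bif (f a).isSome then h a ((f a).getD b0) else g a) := by
      fun_prop
    refine h2.of_eq fun a => ?_
    cases f a <;> rfl
  · refine hg.of_eq fun a => ?_
    cases h3 : f a with
    | none => rfl
    | some b => exact absurd ⟨b⟩ hne

@[fun_prop] theorem option_bind {f : α → Option β} {h : α → β → Option σ} (hf : RC O f)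
    (hh : RC O (fun p : α × β => h p.1 p.2)) :
    RC O fun a => (f a).bind (h a) := by
  have h1 : RC O (fun a => (f a).elim none (h a)) := by fun_prop
  refine h1.of_eq fun a => ?_
  cases f a <;> rfl

@[fun_prop] theorem option_map {f : α → Option β} {h : α → β → σ} (hf : RC O f)
    (hh : RC O (fun p : α × β => h p.1 p.2)) :
    RC O fun a => (f a).map (h a) := by
  have h1 : RC O (fun a => (f a).elim none (fun b => some (h a b))) := by fun_prop
  refine h1.of_eq fun a => ?_
  cases f a <;> rfl

@[fun_prop] theorem option_filter {f : α → Option β} {h : α → β → Bool} (hf : RC O f)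
    (hh : RC O (fun p : α × β => h p.1 p.2)) :
    RC O fun a => (f a).filter (h a) := by
  have h1 : RC O (fun a => (f a).elim none (fun b => bif h a b then some b else none)) := by
    fun_prop
  refine h1.of_eq fun a => ?_
  cases f a with
  | none => rfl
  | some b => cases h2 : h a b <;> simp [h2, Option.filter]

/-! ### lists -/

@[fun_prop] theorem list_append {f g : α → List β} (hf : RC O f) (hg : RC O g) :
    RC O fun a => f a ++ g a := Rc.prim2 Primrec.list_append hf hg
@[fun_prop] theorem list_cons {f : α → β} {g : α → List β} (hf : RC O f) (hg : RC O g) :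
    RC O fun a => f a :: g a := Rc.prim2 Primrec.list_cons hf hg
@[fun_prop] theorem list_length {f : α → List β} (hf : RC O f) :
    RC O fun a => (f a).length := Rc.prim1 Primrec.list_length hf
@[fun_prop] theorem list_getElem? {f : α → List β} {n : α → ℕ} (hf : RC O f) (hn : RC O n) :
    RC O fun a => (f a)[n a]? := Rc.prim2 Primrec.list_getElem? hf hn
@[fun_prop] theorem list_range {n : α → ℕ} (hn : RC O n) :
    RC O fun a => List.range (n a) := Rc.prim1 Primrec.list_range hn
@[fun_prop] theorem list_take {f : α → List β} {n : α → ℕ} (hf : RC O f) (hn : RC O n) :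
    RC O fun a => (f a).take (n a) := Rc.prim2 Primrec.list_take hn hf
@[fun_prop] theorem list_drop {f : α → List β} {n : α → ℕ} (hf : RC O f) (hn : RC O n) :
    RC O fun a => (f a).drop (n a) := Rc.prim2 Primrec.list_drop hn hf
@[fun_prop] theorem list_head? {f : α → List β} (hf : RC O f) :
    RC O fun a => (f a).head? := Rc.prim1 Primrec.list_head? hf
@[fun_prop] theorem list_reverse {f : α → List β} (hf : RC O f) :
    RC O fun a => (f a).reverse := Rc.prim1 Primrec.list_reverse hf

@[fun_prop] theorem table {F : α → ℕ → β} {n : α → ℕ} (hF : RC O (fun p : α × ℕ => F p.1 p.2))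
    (hn : RC O n) : RC O fun a => (List.range (n a)).map (F a) := Rc.table hF hn

@[fun_prop] theorem foldl {f : α → List β} {g : α → σ} {h : α → σ → β → σ} (hf : RC O f)
    (hg : RC O g) (hh : RC O (fun p : α × σ × β => h p.1 p.2.1 p.2.2)) :
    RC O fun a => (f a).foldl (h a) (g a) := by
  by_cases hne : Nonempty β
  · obtain ⟨b0⟩ := hne
    have h0 : RC O (fun p : α × ℕ × σ => h p.1 p.2.2 (((f p.1)[p.2.1]?).getD b0)) :=
      comp (f := fun p : α × σ × β => h p.1 p.2.1 p.2.2)
        (g := fun p : α × ℕ × σ => (p.1, p.2.2, ((f p.1)[p.2.1]?).getD b0)) hh (by fun_prop)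
    have h1 : RC O (fun a => Nat.rec (motive := fun _ => σ) (g a)
        (fun y IH => h a IH (((f a)[y]?).getD b0)) (f a).length) := by
      exact nat_rec (h := fun a y IH => h a IH (((f a)[y]?).getD b0)) (list_length hf) hg h0
    refine h1.of_eq fun a => ?_
    have key : ∀ n, n ≤ (f a).length → (Nat.rec (motive := fun _ => σ) (g a)
        (fun y IH => h a IH (((f a)[y]?).getD b0)) n : σ) = ((f a).take n).foldl (h a) (g a) := by
      intro n
      induction n with
      | zero => intro _; simp
      | succ n ih =>
        intro hn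
        have h4 : (f a)[n]? = some ((f a)[n]'(by omega)) := List.getElem?_eq_getElem (by omega)
        rw [List.take_add_one, h4]
        simp only [Option.toList_some, List.foldl_append, List.foldl_cons, List.foldl_nil]
        rw [ih (by omega), h4, Option.getD_some]
    have h5 := key (f a).length le_rfl
    rw [List.take_length] at h5
    exact h5
  · refine hg.of_eq fun a => ?_
    cases h3 : f a with
    | nil => rfl
    | cons b l => exact absurd ⟨b⟩ hne

@[fun_prop] theorem list_map {f : α → List β} {h : α → β → σ} (hf : RC O f)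
    (hh : RC O (fun p : α × β => h p.1 p.2)) : RC O fun a => (f a).map (h a) := by
  have h1 : RC O fun a => (f a).foldl (fun acc x => acc ++ [h a x]) [] := by fun_prop
  refine h1.of_eq fun a => ?_
  have key : ∀ (l : List β) (acc : List σ),
      l.foldl (fun acc x => acc ++ [h a x]) acc = acc ++ l.map (h a) := by
    intro l
    induction l with
    | nil => simp
    | cons x l ih => intro acc; simp [ih]
  simpa using key (f a) []

@[fun_prop] theorem list_any {f : α → List β} {h : α → β → Bool} (hf : RC O f)
    (hh : RC O (fun p : α × β => h p.1 p.2)) : RC O fun a => (f a).any (h a) := by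
  have h1 : RC O fun a => (f a).foldl (fun acc x => acc || h a x) false := by fun_prop
  refine h1.of_eq fun a => ?_
  have key : ∀ (l : List β) (acc : Bool),
      l.foldl (fun acc x => acc || h a x) acc = (acc || l.any (h a)) := by
    intro l
    induction l with
    | nil => simp
    | cons x l ih => intro acc; simp [ih, Bool.or_assoc]
  simpa using key (f a) false

@[fun_prop] theorem list_all {f : α → List β} {h : α → β → Bool} (hf : RC O f)
    (hh : RC O (fun p : α × β => h p.1 p.2)) : RC O fun a => (f a).all (h a) := by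
  have h1 : RC O fun a => (f a).foldl (fun acc x => acc && h a x) true := by fun_prop
  refine h1.of_eq fun a => ?_
  have key : ∀ (l : List β) (acc : Bool),
      l.foldl (fun acc x => acc && h a x) acc = (acc && l.all (h a)) := by
    intro l
    induction l with
    | nil => simp
    | cons x l ih => intro acc; simp [ih, Bool.and_assoc]
  simpa using key (f a) true

@[fun_prop] theorem list_filter {f : α → List β} {h : α → β → Bool} (hf : RC O f)
    (hh : RC O (fun p : α × β => h p.1 p.2)) : RC O fun a => (f a).filter (h a) := by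
  have h1 : RC O fun a => (f a).foldl (fun acc x => bif h a x then acc ++ [x] else acc) [] := by
    fun_prop
  refine h1.of_eq fun a => ?_
  have key : ∀ (l : List β) (acc : List β),
      l.foldl (fun acc x => bif h a x then acc ++ [x] else acc) acc = acc ++ l.filter (h a) := by
    intro l
    induction l with
    | nil => simp
    | cons x l ih =>
      intro acc
      rw [List.foldl_cons, ih, List.filter_cons]
      cases h2 : h a x <;> simp
  simpa using key (f a) []

@[fun_prop] theorem list_find? {f : α → List β} {h : α → β → Bool} (hf : RC O f)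
    (hh : RC O (fun p : α × β => h p.1 p.2)) : RC O fun a => (f a).find? (h a) := by
  have h1 : RC O fun a => ((f a).filter (h a)).head? := by fun_prop
  refine h1.of_eq fun a => ?_
  rw [List.head?_filter]

@[fun_prop] theorem preb {f g : α → List Bool} (hf : RC O f)
    (hg : RC O g) : RC O fun a => preb (f a) (g a) := by
  have h1 : RC O fun a => H69.deqb (f a) ((g a).take (f a).length) := by fun_prop
  refine h1.of_eq fun a => ?_
  simp [H69.deqb, H69.preb, List.prefix_iff_eq_take]

@[fun_prop] theorem list_replicate {n : α → ℕ} {b : α → β} (hn : RC O n) (hb : RC O b) :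
    RC O fun a => List.replicate (n a) (b a) := by
  have h1 : RC O fun a => (List.range (n a)).map (fun _ => b a) := by fun_prop
  refine h1.of_eq fun a => ?_
  simp

/-! ### codes -/

@[fun_prop] theorem encode' {f : α → β} (hf : RC O f) : RC O fun a => encode (f a) :=
  Rc.prim1 Primrec.encode hf
@[fun_prop] theorem decode' {f : α → ℕ} (hf : RC O f) :
    RC O fun a => (decode (f a) : Option β) := Rc.prim1 Primrec.decode hf
@[fun_prop] theorem ofNat_code {f : α → ℕ} (hf : RC O f) :
    RC O fun a => Denumerable.ofNat Code (f a) := Rc.prim1 (Primrec.ofNat Code) hf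
@[fun_prop] theorem evaln' {k : α → ℕ} {c : α → Code} {n : α → ℕ} (hk : RC O k) (hc : RC O c)
    (hn : RC O n) : RC O fun a => evaln (k a) (c a) (n a) :=
  Rc.prim1 Nat.Partrec.Code.primrec_evaln (Rc.pair (Rc.pair hk hc) hn)
@[fun_prop] theorem th' {e : α → ℕ} {t : α → List Bool} {y : α → ℕ} (he : RC O e) (ht : RC O t)
    (hy : RC O y) : RC O (fun a => th (e a) (t a) (y a)) := rc_th he ht hy

@[fun_prop] theorem pre' {X : ℕ → Bool} {n : α → ℕ} (hX : RC O X) (hn : RC O n) :
    RC O (fun a => pre X (n a)) := Rc.comp (rc_pre hX) hn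

theorem nat_iff {X : ℕ → Bool} : RC O (nat X) ↔ RC O X := rc_nat

end RC

end Pool.Agent.H69
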