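import Mathlib
import Pool.Agent.H69.Auto

/-!
# Automorphisms of the lattice of computably enumerable sets: definitions and the limit lemma
-/

set_option autoImplicit false

namespace Pool.Agent.H69.Autom

open Encodable
open Nat.Partrec (Code)
open Nat.Partrec.Code (evaln eval evaln_mono evaln_bound evaln_sound evaln_complete)

/-- The lattice `E` of computably enumerable sets, ordered by inclusion. -/
abbrev CE : Type := {A : Set ℕ // REPred fun n => n ∈ A}

/-- The set `W_e`: the domain of the `e`-th partial recursive function. -/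
def dom (e : ℕ) : Set ℕ := {n | (eval (Denumerable.ofNat Code e) n).Dom}

theorem dom_re (e : ℕ) : REPred fun n => n ∈ dom e := by
  have h1 : Nat.Partrec (eval (Denumerable.ofNat Code e)) := Code.exists_code.2 ⟨_, rfl⟩
  exact (Partrec.nat_iff.2 h1).dom_re

/-- The standard enumeration `W_0, W_1, ...` of the computably enumerable sets. -/
def W (e : ℕ) : CE := ⟨dom e, dom_re e⟩

/-- `X =* Y`: the symmetric difference is finite. -/
def AlmostEq (X Y : Set ℕ) : Prop := (symmDiff X Y).Finite

/-- `f` is a presentation of the automorphism `Φ`: `Φ(W_e) =* W_{f(e)}` for all `e`. -/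
def IsPresentation (Φ : CE ≃o CE) (f : ℕ → ℕ) : Prop :=
  ∀ e, AlmostEq (Φ (W e)).1 (W (f e)).1

/-- The characteristic function of the halting set. -/
noncomputable def halt : ℕ → ℕ :=
  Set.indicator {n : ℕ | (eval (Denumerable.ofNat Code n) n).Dom} (fun _ => (1 : ℕ))

/-- `Δ^0_1` functions: the computable functions. -/
def IsDeltaOne (f : ℕ → ℕ) : Prop := Computable f

/-- `Δ^0_2` functions: the functions computable from the halting problem. -/
def IsDeltaTwo (f : ℕ → ℕ) : Prop := TuringReducible (f : ℕ →. ℕ) (halt : ℕ →. ℕ)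

/-- `A` and `B` are automorphic by an automorphism with a presentation in the class `D`. -/
def AutomorphicBy (D : (ℕ → ℕ) → Prop) (A B : CE) : Prop :=
  ∃ Φ : CE ≃o CE, Φ A = B ∧ ∃ f, D f ∧ IsPresentation Φ f

open Classical in
/-- the halting set as a real -/
noncomputable def KB (n : ℕ) : Bool := decide (eval (Denumerable.ofNat Code n) n).Dom

theorem halt_eq : halt = nat KB := by
  funext n
  unfold halt nat KB
  by_cases h : (eval (Denumerable.ofNat Code n) n).Dom
  · rw [Set.indicator_of_mem (by exact h)]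
    simp [h]
  · rw [Set.indicator_of_notMem (by exact h)]
    simp [h]

/-- approximation of the halting set -/
def Ks (s n : ℕ) : Bool := (evaln s (Denumerable.ofNat Code n) n).isSome

theorem Ks_lim (n : ℕ) : ∃ s0, ∀ s, s0 ≤ s → Ks s n = KB n := by
  by_cases h : (eval (Denumerable.ofNat Code n) n).Dom
  · obtain ⟨v, hv⟩ := Part.dom_iff_mem.1 h
    obtain ⟨t, ht⟩ := evaln_complete.1 hv
    refine ⟨t, fun s hs => ?_⟩
    have h1 := evaln_mono hs ht
    unfold Ks KB
    rw [Option.mem_def.1 h1]
    simp [h]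
  · refine ⟨0, fun s _ => ?_⟩
    unfold Ks KB
    cases h1 : evaln s (Denumerable.ofNat Code n) n with
    | none => simp [h]
    | some v => exact absurd (Part.dom_iff_mem.2 ⟨v, evaln_sound (Option.mem_def.2 h1)⟩) h

theorem pre_lim (n : ℕ) : ∃ s0, ∀ s, s0 ≤ s → pre (Ks s) n = pre KB n := by
  induction n with
  | zero => exact ⟨0, fun s _ => rfl⟩
  | succ n ih =>
    obtain ⟨s1, h1⟩ := ih
    obtain ⟨s2, h2⟩ := Ks_lim n
    refine ⟨max s1 s2, fun s hs => ?_⟩
    rw [pre_succ, pre_succ, h1 s (le_trans (le_max_left _ _) hs),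
      h2 s (le_trans (le_max_right _ _) hs)]

/-- The limit lemma. -/
theorem limit_lemma {f : ℕ → ℕ} (hf : IsDeltaTwo f) :
    ∃ g : ℕ → ℕ → ℕ, Computable₂ g ∧ ∀ y, ∃ s0, ∀ s, s0 ≤ s → g y s = f y := by
  have h1 : Rc {((nat KB : ℕ → ℕ) : ℕ →. ℕ)} f := by
    rw [← halt_eq]; exact hf
  obtain ⟨e, he⟩ := th_complete h1
  refine ⟨fun y s => (th e (pre (Ks s) s) y).getD 0, ?_, ?_⟩
  · have h2 : RC ∅ (fun p : ℕ × ℕ => (th e ((List.range p.2).map (fun n =>
        (evaln p.2 (Denumerable.ofNat Code n) n).isSome)) p.1).getD 0) := by fun_prop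
    exact h2.computable
  · intro y
    obtain ⟨n, hn⟩ := he y
    obtain ⟨s1, hs1⟩ := pre_lim n
    refine ⟨max s1 n, fun s hs => ?_⟩
    have h3 : th e (pre (Ks s) s) y = some (f y) := by
      refine th_mono (pre_prefix (Ks s) (le_trans (le_max_right _ _) hs)) ?_
      rw [hs1 s (le_trans (le_max_left _ _) hs)]
      exact hn
    show (th e (pre (Ks s) s) y).getD 0 = f y
    rw [h3]; rfl

/-- a uniformly c.e. union of approximations -/
theorem union_index {g : ℕ → ℕ → ℕ} (hg : Computable₂ g) : ∃ h : ℕ → ℕ, Computable h ∧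
    ∀ e n, n ∈ dom (h e) ↔ ∃ s, (evaln s (Denumerable.ofNat Code (g e s)) n).isSome = true := by
  have hgR : RC ∅ (fun p : ℕ × ℕ => g p.1 p.2) := Rc.of_computable hg
  have h1 : RC ∅ (fun p : ℕ × ℕ => (evaln p.2 (Denumerable.ofNat Code (g p.1.unpair.1 p.2))
      p.1.unpair.2).isSome) := by fun_prop
  have h2 : Partrec₂ (fun (x s : ℕ) => (Part.some (evaln s (Denumerable.ofNat Code
      (g x.unpair.1 s)) x.unpair.2).isSome : Part Bool)) := h1.computable
  have h3 : Partrec (fun x : ℕ => Nat.rfind (fun s => (Part.some (evaln s (Denumerable.ofNat Code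
      (g x.unpair.1 s)) x.unpair.2).isSome : Part Bool))) := Partrec.rfind h2
  obtain ⟨c, hc⟩ := Code.exists_code.1 (Partrec.nat_iff.1 h3)
  refine ⟨fun e => encode (Code.curry c e), ?_, ?_⟩
  · exact (Primrec.encode.comp (Code.primrec₂_curry.comp (Primrec.const c) Primrec.id)).to_comp
  · intro e n
    unfold dom
    show (eval (Denumerable.ofNat Code (encode (Code.curry c e))) n).Dom ↔ _
    rw [Denumerable.ofNat_encode, Code.eval_curry, hc, Nat.rfind_dom]
    simp only [Nat.unpair_pair]
    constructor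
    · rintro ⟨s, hs, -⟩
      exact ⟨s, (Part.mem_some_iff.1 hs).symm⟩
    · rintro ⟨s, hs⟩
      exact ⟨s, Part.mem_some_iff.2 hs.symm, fun _ => trivial⟩

/-- A presentation computable from the halting problem can be replaced by a computable one. -/
theorem presentation_of_deltaTwo {Φ : CE ≃o CE} {f : ℕ → ℕ} (hf : IsDeltaTwo f)
    (hp : IsPresentation Φ f) : ∃ h, IsDeltaOne h ∧ IsPresentation Φ h := by
  obtain ⟨g, hg, hlim⟩ := limit_lemma hf
  obtain ⟨h, hh, hdom⟩ := union_index hg
  refine ⟨h, hh, fun e => ?_⟩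
  obtain ⟨s0, hs0⟩ := hlim e
  have h1 : (symmDiff (W (f e)).1 (W (h e)).1).Finite := by
    refine Set.Finite.subset (Set.finite_Iio s0) ?_
    intro n hn
    rw [Set.mem_symmDiff] at hn
    rcases hn with ⟨h2, h3⟩ | ⟨h2, h3⟩
    · exfalso
      apply h3
      show n ∈ dom (h e)
      rw [hdom]
      obtain ⟨v, hv⟩ := Part.dom_iff_mem.1 (show (eval (Denumerable.ofNat Code (f e)) n).Dom from h2)
      obtain ⟨t, ht⟩ := evaln_complete.1 hv
      refine ⟨max t s0, ?_⟩
      rw [hs0 _ (le_max_right _ _), Option.mem_def.1 (evaln_mono (le_max_left t s0) ht)]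
      rfl
    · have h4 : n ∈ dom (h e) := h2
      rw [hdom] at h4
      obtain ⟨s, hs⟩ := h4
      obtain ⟨v, hv⟩ := Option.isSome_iff_exists.1 hs
      by_cases hss : s0 ≤ s
      · exfalso
        apply h3
        rw [hs0 s hss] at hv
        exact Part.dom_iff_mem.2 ⟨v, evaln_sound (Option.mem_def.2 hv)⟩
      · have := evaln_bound (Option.mem_def.2 hv)
        show n < s0
        omega
  have h2 : symmDiff (Φ (W e)).1 (W (h e)).1 ⊆
      symmDiff (Φ (W e)).1 (W (f e)).1 ∪ symmDiff (W (f e)).1 (W (h e)).1 := by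
    intro n hn
    rw [Set.mem_union, Set.mem_symmDiff, Set.mem_symmDiff]
    rw [Set.mem_symmDiff] at hn
    tauto
  exact ((hp e).union h1).subset h2

end Pool.Agent.H69.Autom
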