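import Pool.Agent.H69.CaseW3

/-!
# The fast function `M`
-/

set_option autoImplicit false

namespace Pool.Agent.H69

open Encodable
open Nat.Partrec (Code)
open Nat.Partrec.Code (evaln eval evaln_mono evaln_sound evaln_complete)

theorem exists_bound {α β : Type} [Encodable α] [Encodable β] {X : α → β → ℕ → Prop}
    (mono : ∀ a b t t', X a b t → t ≤ t' → X a b t') :
    ∃ M : ℕ → ℕ, ∀ k a b, encode a ≤ k → encode b ≤ k → (∃ t, X a b t) →
      ∀ v, M k ≤ v → X a b v := by
  classical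
  have h1 : ∀ a b, ∃ t, (∃ t, X a b t) → X a b t := by
    intro a b
    by_cases h : ∃ t, X a b t
    · obtain ⟨t, ht⟩ := h
      exact ⟨t, fun _ => ht⟩
    · exact ⟨0, fun h' => absurd h' h⟩
  choose T hT using h1
  let G : ℕ → ℕ → ℕ := fun x y =>
    (decode₂ α x).elim 0 (fun a => (decode₂ β y).elim 0 (fun b => T a b))
  refine ⟨fun k => (Finset.range (k + 1)).sup (fun x => (Finset.range (k + 1)).sup (G x)), ?_⟩
  intro k a b ha hb hex v hv
  refine mono a b (T a b) v (hT a b hex) (le_trans ?_ hv)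
  have e1 : T a b = G (encode a) (encode b) := by
    simp only [G, encodek₂, Option.elim_some]
  rw [e1]
  have e2 : G (encode a) (encode b) ≤ (Finset.range (k + 1)).sup (G (encode a)) :=
    Finset.le_sup (f := G (encode a)) (Finset.mem_range.2 (by omega))
  have e3 : (Finset.range (k + 1)).sup (G (encode a)) ≤
      (Finset.range (k + 1)).sup (fun x => (Finset.range (k + 1)).sup (G x)) :=
    Finset.le_sup (f := fun x => (Finset.range (k + 1)).sup (G x))
      (Finset.mem_range.2 (by omega))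
  exact le_trans e2 e3

/-- the greedy list stabilises -/
theorem gre_stab (s : List Bool) (K m : ℕ) :
    ∃ t0 L, (fam L s K t0).isSome = true ∧ ∀ t, t0 ≤ t → gre s K t m = L := by
  induction m with
  | zero =>
    obtain ⟨t, ht⟩ := exists_fam (F := []) (r := s) (fun i hi => absurd hi (by simp)) K
    exact ⟨t, [], ht, fun _ _ => rfl⟩
  | succ m ih =>
    obtain ⟨t0, L, h1, h2⟩ := ih
    by_cases hD : Dead m s
    · refine ⟨t0, L, h1, fun t ht => ?_⟩
      rw [gre_succ, hD.dead, h2 t ht]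
      rfl
    · by_cases hF : ∃ t, (fam (L ++ [m]) s K t).isSome = true
      · obtain ⟨t1, ht1⟩ := hF
        obtain ⟨t2, ht2⟩ := not_Dead.1 hD
        refine ⟨max (max t0 t1) t2, L ++ [m], fam_isSome_mono ht1 (by omega), fun t ht => ?_⟩
        rw [gre_succ, h2 t (by omega), dead_false_mono ht2 (t' := t) (by omega),
          fam_isSome_mono ht1 (t' := t) (by omega)]
        rfl
      · refine ⟨t0, L, h1, fun t ht => ?_⟩
        have h3 : (fam (L ++ [m]) s K t).isSome = false := by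
          cases h4 : fam (L ++ [m]) s K t with
          | none => rfl
          | some p => exact absurd ⟨t, by rw [h4]; rfl⟩ hF
        rw [gre_succ, h2 t ht, h3]
        simp

/-- all bounds at once -/
theorem exists_M : ∃ M : ℕ → ℕ,
    (∀ k (s : List Bool) (n : ℕ), encode s ≤ k → n ≤ k →
      ∃ L, (fam L s (2 * n + 5) (M k)).isSome = true ∧
        ∀ t, M k ≤ t → gre s (2 * n + 5) t (n + 1) = L) ∧
    (∀ k i (r : List Bool), i ≤ k → encode r ≤ k → (∃ a, r <+: a ∧ Dead i a) →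
      ∃ a, r <+: a ∧ Dead i a ∧ encode a ≤ M k) ∧
    (∀ k i (r : List Bool), i ≤ k → encode r ≤ k → ¬ Dead i r → dead i r (M k) = false) ∧
    (∀ k i (r : List Bool), i ≤ k → encode r ≤ k → ¬ NoSp i r →
      (sp i r (M k)).isSome = true) ∧
    (∀ k j x, j ≤ k → x ≤ k → (eval (Denumerable.ofNat Code j) x).Dom →
      (evaln (M k) (Denumerable.ofNat Code j) x).isSome = true) ∧
    (∀ k i (r : List Bool), i ≤ k → encode r ≤ k →
      ∃ j, j ≤ M k ∧ eval (Denumerable.ofNat Code j) = PR i r) ∧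
    (∀ k i (r : List Bool), i ≤ k → encode r ≤ k → (∃ n, ¬ (PR i r n).Dom) →
      ∃ n, n ≤ M k ∧ ¬ (PR i r n).Dom) := by
  obtain ⟨M1, h1⟩ := exists_bound (α := List Bool) (β := ℕ)
    (X := fun s n t0 => ∃ L, (fam L s (2 * n + 5) t0).isSome = true ∧
      ∀ t, t0 ≤ t → gre s (2 * n + 5) t (n + 1) = L)
    (by
      rintro s n t t' ⟨L, e1, e2⟩ ht
      exact ⟨L, fam_isSome_mono e1 ht, fun v hv => e2 v (by omega)⟩)
  obtain ⟨M2, h2⟩ := exists_bound (α := ℕ) (β := List Bool)
    (X := fun i r t => ∃ a, r <+: a ∧ Dead i a ∧ encode a ≤ t)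
    (by
      rintro i r t t' ⟨a, e1, e2, e3⟩ ht
      exact ⟨a, e1, e2, by omega⟩)
  obtain ⟨M3, h3⟩ := exists_bound (α := ℕ) (β := List Bool)
    (X := fun i r t => dead i r t = false)
    (fun i r t t' e ht => dead_false_mono e ht)
  obtain ⟨M4, h4⟩ := exists_bound (α := ℕ) (β := List Bool)
    (X := fun i r t => (sp i r t).isSome = true)
    (fun i r t t' e ht => sp_isSome_mono e ht)
  obtain ⟨M5, h5⟩ := exists_bound (α := ℕ) (β := ℕ)
    (X := fun j x t => (evaln t (Denumerable.ofNat Code j) x).isSome = true)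
    (by
      intro j x t t' e ht
      obtain ⟨v, hv⟩ := Option.isSome_iff_exists.1 e
      have := evaln_mono ht (Option.mem_def.2 hv)
      rw [Option.mem_def.1 this]; rfl)
  obtain ⟨M6, h6⟩ := exists_bound (α := ℕ) (β := List Bool)
    (X := fun i r t => ∃ j, j ≤ t ∧ eval (Denumerable.ofNat Code j) = PR i r)
    (by
      rintro i r t t' ⟨j, e1, e2⟩ ht
      exact ⟨j, by omega, e2⟩)
  obtain ⟨M7, h7⟩ := exists_bound (α := ℕ) (β := List Bool)
    (X := fun i r t => ∃ n, n ≤ t ∧ ¬ (PR i r n).Dom)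
    (by
      rintro i r t t' ⟨j, e1, e2⟩ ht
      exact ⟨j, by omega, e2⟩)
  refine ⟨fun k => M1 k + M2 k + M3 k + M4 k + M5 k + M6 k + M7 k, ?_, ?_, ?_, ?_, ?_, ?_, ?_⟩
  · intro k s n hs hn
    refine h1 k s n hs hn ?_ _ (by beta_reduce; omega)
    obtain ⟨t0, L, e1, e2⟩ := gre_stab s (2 * n + 5) (n + 1)
    exact ⟨t0, L, e1, e2⟩
  · intro k i r hi hr hex
    refine h2 k i r hi hr ?_ _ (by beta_reduce; omega)
    obtain ⟨a, e1, e2⟩ := hex
    exact ⟨encode a, a, e1, e2, le_rfl⟩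
  · intro k i r hi hr hex
    exact h3 k i r hi hr (not_Dead.1 hex) _ (by beta_reduce; omega)
  · intro k i r hi hr hex
    exact h4 k i r hi hr (not_noSp hex) _ (by beta_reduce; omega)
  · intro k j x hj hx hex
    refine h5 k j x hj hx ?_ _ (by beta_reduce; omega)
    obtain ⟨v, hv⟩ := Part.dom_iff_mem.1 hex
    obtain ⟨t, ht⟩ := evaln_complete.1 hv
    exact ⟨t, by rw [Option.mem_def.1 ht]; rfl⟩
  · intro k i r hi hr
    refine h6 k i r hi hr ?_ _ (by beta_reduce; omega)
    obtain ⟨c, hc⟩ := Code.exists_code.1 (Partrec.nat_iff.1 (PR_partrec i r))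
    exact ⟨encode c, encode c, le_rfl, by rw [Denumerable.ofNat_encode, hc]⟩
  · intro k i r hi hr hex
    refine h7 k i r hi hr ?_ _ (by beta_reduce; omega)
    obtain ⟨n, hn⟩ := hex
    exact ⟨n, n, le_rfl, hn⟩

end Pool.Agent.H69
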