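import Pool.Agent.H69.Fam

/-!
# Case S
-/

set_option autoImplicit false

namespace Pool.Agent.H69

open Encodable
open Nat.Partrec (Code)
open Nat.Partrec.Code (evaln eval)

/-- the real `X` as an oracle -/
abbrev orc (X : ℕ → Bool) : Set (ℕ →. ℕ) := {((nat X : ℕ → ℕ) : ℕ →. ℕ)}

theorem RC.real (X : ℕ → Bool) : RC (orc X) X := RC.nat_iff.1 (RC.self (nat X))

/-! ### eventual domination -/

theorem all_bound {P : ℕ → ℕ → Bool} (mono : ∀ a t t', P a t = true → t ≤ t' → P a t' = true)
    {k : ℕ} (hex : ∀ a, a ≤ k → ∃ t, P a t = true) :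
    ∃ t, ∀ a, a ≤ k → P a t = true := by
  choose! tt htt using hex
  refine ⟨(Finset.range (k + 1)).sup tt, fun a ha => mono _ _ _ (htt a ha) ?_⟩
  exact Finset.le_sup (f := tt) (Finset.mem_range.2 (by omega))

/-- `f (s+1) ≥ H (f s)` for almost all `s`, for every computable `H` -/
def Dom (f : ℕ → ℕ) : Prop :=
  ∀ H : ℕ → ℕ, Computable H → ∃ N, ∀ s, N ≤ s → H (f s) ≤ f (s + 1)

theorem ev_str {f : ℕ → ℕ} (F3 : Dom f) {P : List Bool → ℕ → ℕ → Bool}
    (hP : RC ∅ (fun p : List Bool × ℕ × ℕ => P p.1 p.2.1 p.2.2))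
    (mono : ∀ r n t t', P r n t = true → t ≤ t' → P r n t' = true)
    (hex : ∀ r n, ∃ t, P r n t = true) :
    ∃ N, ∀ s, N ≤ s → ∀ r n, encode r ≤ f s → n ≤ f s → P r n (f (s + 1)) = true := by
  let Q : ℕ → ℕ → Bool := fun k t => (List.range (k + 1)).all (fun a =>
    (dc (List Bool) a).elim true (fun r => (List.range (k + 1)).all (fun n => P r n t)))
  have hQ : RC ∅ (fun p : ℕ × ℕ => Q p.1 p.2) := by
    show RC ∅ (fun p : ℕ × ℕ => (List.range (p.1 + 1)).all (fun a =>
      (dc (List Bool) a).elim true (fun r => (List.range (p.1 + 1)).all (fun n => P r n p.2))))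
    fun_prop
  have hQex : ∀ k, ∃ t, Q k t = true := by
    intro k
    have h1 : ∃ t, ∀ a, a ≤ k → (dc (List Bool) a).elim true
        (fun r => (List.range (k + 1)).all (fun n => P r n t)) = true := by
      refine all_bound (P := fun a t => (dc (List Bool) a).elim true
        (fun r => (List.range (k + 1)).all (fun n => P r n t))) ?_ ?_
      · intro a t t' h ht
        cases h2 : dc (List Bool) a with
        | none => rfl
        | some r =>
          simp only [h2, Option.elim_some, List.all_eq_true] at h ⊢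
          exact fun n hn => mono _ _ _ _ (h n hn) ht
      · intro a _
        cases h2 : dc (List Bool) a with
        | none => exact ⟨0, rfl⟩
        | some r =>
          obtain ⟨t, ht⟩ := all_bound (P := fun n t => P r n t) (k := k)
            (fun n t t' h ht => mono _ _ _ _ h ht) (fun n _ => hex r n)
          refine ⟨t, ?_⟩
          simp only [Option.elim_some, List.all_eq_true]
          intro n hn
          exact ht n (by have := List.mem_range.1 hn; omega)
    obtain ⟨t, ht⟩ := h1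
    refine ⟨t, ?_⟩
    simp only [Q, List.all_eq_true]
    intro a ha
    exact ht a (by have := List.mem_range.1 ha; omega)
  have hH : RC ∅ (fun k => Nat.find (hQex k)) := RC.find (P := Q) hQ hQex
  obtain ⟨N, hN⟩ := F3 _ hH.computable
  refine ⟨N, fun s hs r n hr hn => ?_⟩
  have h1 : Q (f s) (Nat.find (hQex (f s))) = true := Nat.find_spec (hQex (f s))
  have h2 : Nat.find (hQex (f s)) ≤ f (s + 1) := hN s hs
  generalize Nat.find (hQex (f s)) = t0 at h1 h2
  simp only [Q, List.all_eq_true, List.mem_range] at h1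
  have h3 := h1 (encode r) (by omega)
  rw [dc_eq.2 rfl] at h3
  simp only [Option.elim_some, List.all_eq_true, List.mem_range] at h3
  exact mono _ _ _ _ (h3 n (by omega)) h2

/-! ### the construction -/

/-- the family of phase `n` above the node `s` -/
def fm (T : ℕ → ℕ) (n : ℕ) (s : List Bool) : Option (List (List Bool)) :=
  fam (gre s (2 * n + 5) (T (n + 1)) (n + 1)) s (2 * n + 5) (T (n + 1))

/-- the next node when option `k` is taken -/
def nx (T : ℕ → ℕ) (n : ℕ) (s : List Bool) (k : ℕ) : List Bool :=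
  (fm T n s).elim s (fun l => bif decide (k < 3) then nd l k
    else (mdead (Nat.div2 (k - 3)) (nd l k) (T (n + 1))).getD (nd l k))

/-- `i` requires attention -/
def req (T fb : ℕ → ℕ) (n : ℕ) (s : List Bool) (i : ℕ) : Bool :=
  (!(dead i s (T (n + 1)))) &&
    (mdead i s (T (n + 1))).elim false (fun r => decide (fb (encode r) ≤ T (n + 1)))

/-- the option chosen -/
def ch (T fb : ℕ → ℕ) (D : ℕ → Bool) (n : ℕ) (s : List Bool) (c : ℕ) : ℕ :=
  bif decide (fb (T n) ≤ T (n + 1)) then
    (bmin (n + 1) (req T fb n s)).elim (1 + (D c).toNat) (fun i => 3 + 2 * i + (D c).toNat)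
  else 0

/-- node and number of coded bits -/
def stS (T fb : ℕ → ℕ) (D : ℕ → Bool) (n : ℕ) : List Bool × ℕ :=
  Nat.rec (motive := fun _ => List Bool × ℕ) ([], 0)
    (fun n p => (nx T n p.1 (ch T fb D n p.1 p.2),
      p.2 + ((fm T n p.1).isSome && decide (fb (T n) ≤ T (n + 1))).toNat)) n

/-- the option read off from `B` -/
def dkk (T : ℕ → ℕ) (B : ℕ → Bool) (n : ℕ) (s : List Bool) : ℕ :=
  (bmin (2 * n + 5) (fun k =>
    (fm T n s).elim false (fun l => deqb (pre B (nd l k).length) (nd l k)))).getD 0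

/-- node and number of bits, read off from `B` -/
def dst (T : ℕ → ℕ) (B : ℕ → Bool) (n : ℕ) : List Bool × ℕ :=
  Nat.rec (motive := fun _ => List Bool × ℕ) ([], 0)
    (fun n p => (nx T n p.1 (dkk T B n p.1),
      p.2 + ((fm T n p.1).isSome && decide (0 < dkk T B n p.1)).toNat)) n

/-- bit number `x` is coded in phase `n` -/
def dP (T : ℕ → ℕ) (B : ℕ → Bool) (x n : ℕ) : Bool :=
  decide ((dst T B n).2 = x) &&
    ((fm T n (dst T B n).1).isSome && decide (0 < dkk T B n (dst T B n).1))

section rc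
variable {O : Set (ℕ →. ℕ)} {α : Type} [Primcodable α]

@[fun_prop] theorem RC.fm {T : ℕ → ℕ} {n : α → ℕ} {s : α → List Bool} (hT : RC O T) (hn : RC O n)
    (hs : RC O s) : RC O fun x => fm T (n x) (s x) := by
  unfold Pool.Agent.H69.fm
  fun_prop

@[fun_prop] theorem RC.nx {T : ℕ → ℕ} {n : α → ℕ} {s : α → List Bool} {k : α → ℕ}
    (hT : RC O T) (hn : RC O n) (hs : RC O s) (hk : RC O k) :
    RC O fun x => nx T (n x) (s x) (k x) := by
  unfold Pool.Agent.H69.nx
  fun_prop

@[fun_prop] theorem RC.req {T fb : ℕ → ℕ} {n : α → ℕ} {s : α → List Bool} {i : α → ℕ}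
    (hT : RC O T) (hfb : RC O fb) (hn : RC O n) (hs : RC O s) (hi : RC O i) :
    RC O fun x => req T fb (n x) (s x) (i x) := by
  unfold Pool.Agent.H69.req
  fun_prop

@[fun_prop] theorem RC.ch {T fb : ℕ → ℕ} {D : ℕ → Bool} {n : α → ℕ} {s : α → List Bool}
    {c : α → ℕ} (hT : RC O T) (hfb : RC O fb) (hD : RC O D) (hn : RC O n) (hs : RC O s)
    (hc : RC O c) : RC O fun x => ch T fb D (n x) (s x) (c x) := by
  unfold Pool.Agent.H69.ch
  fun_prop

theorem RC.stS {T fb : ℕ → ℕ} {D : ℕ → Bool} (hT : RC O T) (hfb : RC O fb) (hD : RC O D) :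
    RC O (stS T fb D) := by
  unfold Pool.Agent.H69.stS
  fun_prop

@[fun_prop] theorem RC.dkk {T : ℕ → ℕ} {B : ℕ → Bool} {n : α → ℕ} {s : α → List Bool}
    (hT : RC O T) (hB : RC O B) (hn : RC O n) (hs : RC O s) :
    RC O fun x => dkk T B (n x) (s x) := by
  unfold Pool.Agent.H69.dkk
  fun_prop

@[fun_prop] theorem RC.dst {T : ℕ → ℕ} {B : ℕ → Bool} {n : α → ℕ}
    (hT : RC O T) (hB : RC O B) (hn : RC O n) :
    RC O fun x => dst T B (n x) := by
  unfold Pool.Agent.H69.dst
  fun_prop

@[fun_prop] theorem RC.dP {T : ℕ → ℕ} {B : ℕ → Bool} {x n : α → ℕ}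
    (hT : RC O T) (hB : RC O B) (hx : RC O x) (hn : RC O n) :
    RC O fun y => dP T B (x y) (n y) := by
  unfold Pool.Agent.H69.dP
  fun_prop

end rc

theorem nd_mem_or {l : List (List Bool)} {k : ℕ} : nd l k = [] ∨ nd l k ∈ l := by
  unfold nd
  cases h : l[k]? with
  | none => simp
  | some a => right; exact List.mem_of_getElem? h

theorem enc_nd (l : List (List Bool)) (k : ℕ) : encode (nd l k) ≤ encode l := by
  rcases nd_mem_or (l := l) (k := k) with h | h
  · rw [h]; simp
  · exact mem_enc h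

theorem enc_nx {T : ℕ → ℕ} {n : ℕ} {s : List Bool} {k : ℕ} {v : ℕ} (hs : encode s ≤ v)
    (hv : T (n + 1) ≤ v) : encode (nx T n s k) ≤ v := by
  unfold nx
  cases h : fm T n s with
  | none => exact hs
  | some l =>
    have h1 : encode l ≤ T (n + 1) := (srch_spec h).2.1
    have h2 := enc_nd l k
    simp only [Option.elim_some]
    cases h3 : decide (k < 3)
    · simp only [cond_false]
      cases h4 : mdead (Nat.div2 (k - 3)) (nd l k) (T (n + 1)) with
      | none => simp only [Option.getD_none]; omega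
      | some a =>
        have := (mdead_some h4).2.2
        simp only [Option.getD_some]; omega
    · simp only [cond_true]; omega

theorem fm_spec {T : ℕ → ℕ} {n : ℕ} {s : List Bool} {l : List (List Bool)}
    (h : fm T n s = some l) {k : ℕ} (hk : k < 2 * n + 5) :
    s <+: nd l k ∧ s.length < (nd l k).length ∧ ∀ j, j < 2 * n + 5 → j ≠ k →
      inc (nd l j) (nd l k) = true ∧
      ∀ i, i ∈ gre s (2 * n + 5) (T (n + 1)) (n + 1) → spl i (nd l j) (nd l k) = true := by
  have h1 := (famok_iff.1 (srch_spec h).1).2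
  refine ⟨(h1 k hk).1, (h1 k hk).2.1, fun j hj hjk => ?_⟩
  rcases Nat.lt_or_gt_of_ne hjk with h2 | h2
  · exact (h1 k hk).2.2 j h2
  · obtain ⟨h3, h4⟩ := (h1 j hj).2.2 k h2
    refine ⟨?_, fun i hi => spl_symm (h4 i hi)⟩
    rw [inc_iff] at *
    exact ⟨h3.2, h3.1⟩

theorem nd_pre_nx {T : ℕ → ℕ} {n : ℕ} {s : List Bool} {l : List (List Bool)} {k : ℕ}
    (h : fm T n s = some l) : nd l k <+: nx T n s k := by
  unfold nx
  rw [h]
  simp only [Option.elim_some]
  cases h3 : decide (k < 3)
  · simp only [cond_false]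
    cases h4 : mdead (Nat.div2 (k - 3)) (nd l k) (T (n + 1)) with
    | none => exact List.prefix_rfl
    | some a => exact (mdead_some h4).1
  · exact List.prefix_rfl

theorem pre_nx {T : ℕ → ℕ} {n : ℕ} {s : List Bool} {k : ℕ} (hk : k < 2 * n + 5) :
    s <+: nx T n s k := by
  cases h : fm T n s with
  | none => unfold nx; rw [h]; exact List.prefix_rfl
  | some l => exact (fm_spec h hk).1.trans (nd_pre_nx h)

theorem len_nx {T : ℕ → ℕ} {n : ℕ} {s : List Bool} {k : ℕ} (hk : k < 2 * n + 5)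
    (h : (fm T n s).isSome = true) : s.length < (nx T n s k).length := by
  obtain ⟨l, hl⟩ := Option.isSome_iff_exists.1 h
  exact lt_of_lt_of_le (fm_spec hl hk).2.1 (nd_pre_nx hl).length_le

theorem ch_lt {T fb : ℕ → ℕ} {D : ℕ → Bool} {n : ℕ} {s : List Bool} {c : ℕ} :
    ch T fb D n s c < 2 * n + 5 := by
  unfold ch
  have hD : (D c).toNat ≤ 1 := Bool.toNat_le _
  cases h : decide (fb (T n) ≤ T (n + 1))
  · simp
  · simp only [cond_true]
    cases h1 : bmin (n + 1) (req T fb n s) with
    | none => simp only [Option.elim_none]; omega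
    | some i =>
      have := (bmin_some.1 h1).1
      simp only [Option.elim_some]; omega

/-- hypotheses of Case S -/
structure HypS (A D : ℕ → Bool) (f M T : ℕ → ℕ) : Prop where
  fmono : StrictMono f
  M1 : ∀ k (s : List Bool) (n : ℕ), encode s ≤ k → n ≤ k →
    ∃ L, (fam L s (2 * n + 5) (M k)).isSome = true ∧
      ∀ t, M k ≤ t → gre s (2 * n + 5) t (n + 1) = L
  M2 : ∀ k i (r : List Bool), i ≤ k → encode r ≤ k → (∃ a, r <+: a ∧ Dead i a) →
    ∃ a, r <+: a ∧ Dead i a ∧ encode a ≤ M k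
  M3 : ∀ k i (r : List Bool), i ≤ k → encode r ≤ k → ¬ Dead i r → dead i r (M k) = false
  F3 : Dom f
  T0 : T 0 = 0
  Tmono : StrictMono T
  TA : RC (orc A) T
  AD : RC (orc D) A
  fD : RC (orc D) f
  DA : ¬ RC (orc A) D
  good : ∀ N, ∃ n, N ≤ n ∧ ∃ s, T n ≤ f s ∧ f (s + 3) ≤ T (n + 1) ∧
    ∀ r, s ≤ r → r < s + 3 → M (f r) ≤ f (r + 1)

section S

variable {A D : ℕ → Bool} {f M T : ℕ → ℕ}

theorem fb_ex (h : StrictMono f) (k : ℕ) : ∃ s, decide (k ≤ f s) = true :=
  ⟨k, by simpa using h.le_apply⟩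

/-- the next value but one of `f` after `k` -/
noncomputable def fbar (h : StrictMono f) (k : ℕ) : ℕ := f (Nat.find (fb_ex h k) + 1)

theorem fbar_le (h : StrictMono f) {k s : ℕ} (hk : k ≤ f s) : fbar h k ≤ f (s + 1) := by
  have h1 : Nat.find (fb_ex h k) ≤ s := Nat.find_min' (fb_ex h k) (by simpa using hk)
  exact h.monotone (by omega)

theorem fbar_spec (h : StrictMono f) (k : ℕ) : ∃ s, k ≤ f s ∧ fbar h k = f (s + 1) :=
  ⟨_, by simpa using Nat.find_spec (fb_ex h k), rfl⟩

theorem RC.fbar {O : Set (ℕ →. ℕ)} (h : StrictMono f) (hf : RC O f) : RC O (fbar h) := by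
  have h1 : RC O (fun k => Nat.find (fb_ex h k)) :=
    RC.find (P := fun k s => decide (k ≤ f s)) (by fun_prop) (fb_ex h)
  unfold Pool.Agent.H69.fbar
  fun_prop

namespace HypS

variable (H : HypS A D f M T)

/-- node of phase `n` -/
noncomputable def sg (_ : HypS A D f M T) (hf : StrictMono f) (n : ℕ) : List Bool :=
  (stS T (fbar hf) D n).1

/-- number of bits coded before phase `n` -/
noncomputable def ct (_ : HypS A D f M T) (hf : StrictMono f) (n : ℕ) : ℕ :=
  (stS T (fbar hf) D n).2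

/-- option taken in phase `n` -/
noncomputable def kp (H : HypS A D f M T) (hf : StrictMono f) (n : ℕ) : ℕ :=
  ch T (fbar hf) D n (H.sg hf n) (H.ct hf n)

theorem sg_zero (hf : StrictMono f) : H.sg hf 0 = [] := rfl

theorem sg_succ (hf : StrictMono f) (n : ℕ) : H.sg hf (n + 1) = nx T n (H.sg hf n) (H.kp hf n) :=
  rfl

theorem ct_succ (hf : StrictMono f) (n : ℕ) : H.ct hf (n + 1) = H.ct hf n +
    ((fm T n (H.sg hf n)).isSome && decide (fbar hf (T n) ≤ T (n + 1))).toNat := rfl

theorem kp_lt (hf : StrictMono f) (n : ℕ) : H.kp hf n < 2 * n + 5 := ch_lt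

theorem enc_sg (hf : StrictMono f) (n : ℕ) : encode (H.sg hf n) ≤ T n := by
  induction n with
  | zero => simp [sg_zero]
  | succ n ih =>
    rw [sg_succ]
    exact enc_nx (le_trans ih (H.Tmono.monotone (by omega))) le_rfl

theorem sg_pre (hf : StrictMono f) (n : ℕ) : H.sg hf n <+: H.sg hf (n + 1) := by
  rw [sg_succ]
  exact pre_nx (H.kp_lt hf n)

theorem sg_pre' (hf : StrictMono f) {m n : ℕ} (h : m ≤ n) : H.sg hf m <+: H.sg hf n :=
  lim_pre (H.sg_pre hf) h

/-- in a good phase the family exists, has a small code and the phase is OK -/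
theorem good_phase (hf : StrictMono f) {n s : ℕ} (h1 : T n ≤ f s) (h2 : f (s + 3) ≤ T (n + 1))
    (h3 : ∀ r, s ≤ r → r < s + 3 → M (f r) ≤ f (r + 1)) :
    (∃ l, fm T n (H.sg hf n) = some l ∧ encode l ≤ f (s + 1)) ∧ fbar hf (T n) ≤ T (n + 1) := by
  have hn : n ≤ f s := le_trans H.Tmono.le_apply h1
  constructor
  · obtain ⟨L, hL1, hL2⟩ := H.M1 (f s) (H.sg hf n) n (le_trans (H.enc_sg hf n) h1) hn
    have h4 : M (f s) ≤ f (s + 1) := h3 s le_rfl (by omega)
    have h5 : f (s + 1) ≤ f (s + 3) := H.fmono.monotone (by omega)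
    obtain ⟨l, hl⟩ := Option.isSome_iff_exists.1 hL1
    refine ⟨l, ?_, le_trans (srch_spec hl).2.1 h4⟩
    unfold fm
    rw [hL2 (T (n + 1)) (by omega)]
    exact fam_mono hl (by omega)
  · have h4 := fbar_le hf h1
    have h5 : f (s + 1) ≤ f (s + 3) := H.fmono.monotone (by omega)
    omega

theorem len_unbounded (hf : StrictMono f) (x : ℕ) :
    ∃ n, decide (x < (H.sg hf n).length) = true := by
  induction x with
  | zero =>
    obtain ⟨n, -, s, h1, h2, h3⟩ := H.good 0
    obtain ⟨⟨l, hl, -⟩, -⟩ := H.good_phase hf h1 h2 h3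
    refine ⟨n + 1, ?_⟩
    have := len_nx (H.kp_lt hf n) (T := T) (s := H.sg hf n) (by rw [hl]; rfl)
    rw [sg_succ]
    simp only [decide_eq_true_eq]
    omega
  | succ x ih =>
    obtain ⟨m, hm⟩ := ih
    obtain ⟨n, hn, s, h1, h2, h3⟩ := H.good m
    obtain ⟨⟨l, hl, -⟩, -⟩ := H.good_phase hf h1 h2 h3
    refine ⟨n + 1, ?_⟩
    have := len_nx (H.kp_lt hf n) (T := T) (s := H.sg hf n) (by rw [hl]; rfl)
    rw [sg_succ]
    have h4 := (H.sg_pre' hf hn).length_le
    simp only [decide_eq_true_eq] at hm ⊢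
    omega

/-- the complement -/
noncomputable def B (H : HypS A D f M T) (hf : StrictMono f) : ℕ → Bool :=
  lim (H.sg hf) (H.len_unbounded hf)

theorem seg (hf : StrictMono f) (n : ℕ) : Seg (H.B hf) (H.sg hf n) :=
  lim_seg (H.sg_pre hf) (H.len_unbounded hf) n

theorem rc_B (hf : StrictMono f) : RC (orc D) (H.B hf) := by
  have hT : RC (orc D) T := H.TA.trans1 (RC.nat_iff.2 H.AD)
  have h1 : RC (orc D) (stS T (fbar hf) D) := RC.stS hT (RC.fbar hf H.fD) (RC.real D)
  have h2 : RC (orc D) (H.sg hf) := by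
    unfold sg
    fun_prop
  exact RC.lim _ h2

/-! ### decoding `D` -/

theorem kp_pos_iff (hf : StrictMono f) (n : ℕ) :
    0 < H.kp hf n ↔ fbar hf (T n) ≤ T (n + 1) := by
  unfold kp ch
  by_cases h : fbar hf (T n) ≤ T (n + 1)
  · simp only [h, decide_true, cond_true, iff_true]
    cases bmin (n + 1) (req T (fbar hf) n (H.sg hf n)) with
    | none => simp only [Option.elim_none]; omega
    | some i => simp only [Option.elim_some]; omega
  · simp [h]

theorem kp_bodd (hf : StrictMono f) {n : ℕ} (h : 0 < H.kp hf n) :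
    Nat.bodd (H.kp hf n - 1) = D (H.ct hf n) := by
  have h1 := (H.kp_pos_iff hf n).1 h
  unfold kp ch
  simp only [h1, decide_true, cond_true]
  cases bmin (n + 1) (req T (fbar hf) n (H.sg hf n)) with
  | none =>
    simp only [Option.elim_none, Nat.add_sub_cancel_left]
    cases D (H.ct hf n) <;> rfl
  | some i =>
    simp only [Option.elim_some]
    have : 3 + 2 * i + (D (H.ct hf n)).toNat - 1 = 2 * (i + 1) + (D (H.ct hf n)).toNat := by omega
    rw [this, Nat.bodd_add, Nat.bodd_mul]
    cases D (H.ct hf n) <;> simp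

/-- the option is determined by `B` -/
theorem kp_unique (hf : StrictMono f) {n k : ℕ} {l : List (List Bool)}
    (hl : fm T n (H.sg hf n) = some l) (hk : k < 2 * n + 5) (hs : Seg (H.B hf) (nd l k)) :
    k = H.kp hf n := by
  by_contra hne
  have h1 := (fm_spec hl (H.kp_lt hf n)).2.2 k hk hne
  have h2 : Seg (H.B hf) (nd l (H.kp hf n)) :=
    (H.seg hf (n + 1)).of_prefix (by rw [sg_succ]; exact nd_pre_nx hl)
  rw [inc_iff] at h1
  rcases Nat.le_total (nd l k).length (nd l (H.kp hf n)).length with h3 | h3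
  · exact h1.1.1 (hs.comparable h2 h3)
  · exact h1.1.2 (h2.comparable hs h3)

theorem kp_seg (hf : StrictMono f) {n : ℕ} {l : List (List Bool)}
    (hl : fm T n (H.sg hf n) = some l) : Seg (H.B hf) (nd l (H.kp hf n)) :=
  (H.seg hf (n + 1)).of_prefix (by rw [sg_succ]; exact nd_pre_nx hl)

theorem dkk_eq (hf : StrictMono f) {n : ℕ} {l : List (List Bool)}
    (hl : fm T n (H.sg hf n) = some l) : dkk T (H.B hf) n (H.sg hf n) = H.kp hf n := by
  unfold dkk
  simp only [hl, Option.elim_some]
  cases h1 : bmin (2 * n + 5) (fun k => deqb (pre (H.B hf) (nd l k).length) (nd l k)) with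
  | none =>
    have h2 := bmin_none.1 h1 (H.kp hf n) (H.kp_lt hf n)
    have h3 := H.kp_seg hf hl
    unfold Seg at h3
    simp [h3] at h2
  | some k =>
    obtain ⟨h2, h3, -⟩ := bmin_some.1 h1
    simp only [Option.getD_some]
    exact H.kp_unique hf hl h2 (by simpa [Seg] using h3)

theorem dst_eq (hf : StrictMono f) (n : ℕ) :
    dst T (H.B hf) n = (H.sg hf n, H.ct hf n) := by
  induction n with
  | zero => rfl
  | succ n ih =>
    have e1 : dst T (H.B hf) (n + 1) = (nx T n (dst T (H.B hf) n).1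
        (dkk T (H.B hf) n (dst T (H.B hf) n).1),
      (dst T (H.B hf) n).2 + ((fm T n (dst T (H.B hf) n).1).isSome &&
        decide (0 < dkk T (H.B hf) n (dst T (H.B hf) n).1)).toNat) := rfl
    rw [e1, ih, sg_succ, ct_succ]
    cases hl : fm T n (H.sg hf n) with
    | none =>
      have : ∀ k, nx T n (H.sg hf n) k = H.sg hf n := fun k => by unfold nx; rw [hl]; rfl
      simp [this]
    | some l =>
      simp only [H.dkk_eq hf hl]
      congr 3
      have := H.kp_pos_iff hf n
      simp [this]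

theorem decode_D {O : Set (ℕ →. ℕ)} (hf : StrictMono f) (hA : RC O A)
    (hB : RC O (H.B hf)) : RC O D := by
  have hT : RC O T := H.TA.trans1 (RC.nat_iff.2 hA)
  have hct0 : H.ct hf 0 = 0 := rfl
  have hct1 : ∀ n, H.ct hf (n + 1) ≤ H.ct hf n + 1 := fun n => by
    rw [ct_succ]
    have := Bool.toNat_le ((fm T n (H.sg hf n)).isSome && decide (fbar hf (T n) ≤ T (n + 1)))
    omega
  have hctm : Monotone (H.ct hf) := monotone_nat_of_le_succ fun n => by rw [ct_succ]; omega
  have hctu : ∀ x, ∃ n, x < H.ct hf n := by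
    intro x
    induction x with
    | zero =>
      obtain ⟨n, -, s, h1, h2, h3⟩ := H.good 0
      obtain ⟨⟨l, hl, -⟩, hok⟩ := H.good_phase hf h1 h2 h3
      refine ⟨n + 1, ?_⟩
      rw [ct_succ, hl]
      simp [hok]
    | succ x ih =>
      obtain ⟨m, hm⟩ := ih
      obtain ⟨n, hn, s, h1, h2, h3⟩ := H.good m
      obtain ⟨⟨l, hl, -⟩, hok⟩ := H.good_phase hf h1 h2 h3
      refine ⟨n + 1, ?_⟩
      rw [ct_succ, hl]
      have := hctm hn
      simp only [Option.isSome_some, hok, decide_true, Bool.and_self, Bool.toNat_true]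
      omega
  have hPex : ∀ x, ∃ n, dP T (H.B hf) x n = true := by
    intro x
    have h1 := hctu x
    have h2 : Nat.find h1 ≠ 0 := by
      intro h0
      have := Nat.find_spec h1
      rw [h0, hct0] at this
      omega
    obtain ⟨n, hn⟩ := Nat.exists_eq_succ_of_ne_zero h2
    have h3 := Nat.find_spec h1
    rw [hn] at h3
    have h4 : H.ct hf n ≤ x := by
      have := Nat.find_min h1 (m := n) (by omega)
      omega
    have h5 := hct1 n
    refine ⟨n, ?_⟩
    have h6 : H.ct hf n = x := by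
      have : n.succ = n + 1 := rfl
      rw [this] at h3
      omega
    have h7 : ((fm T n (H.sg hf n)).isSome && decide (fbar hf (T n) ≤ T (n + 1))) = true := by
      by_contra hcon
      have h8 := H.ct_succ hf n
      have h9 : ((fm T n (H.sg hf n)).isSome && decide (fbar hf (T n) ≤ T (n + 1))) = false := by
        simpa using hcon
      rw [h9] at h8
      have : n.succ = n + 1 := rfl
      rw [this] at h3
      simp at h8
      omega
    rw [Bool.and_eq_true] at h7
    obtain ⟨l, hl⟩ := Option.isSome_iff_exists.1 h7.1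
    have h8 := (H.kp_pos_iff hf n).2 (by simpa using h7.2)
    unfold dP
    simp only [H.dst_eq hf n, H.dkk_eq hf hl, h6, h7.1, h8, decide_true, Bool.and_self]
  have hfind : RC O (fun x => Nat.find (hPex x)) :=
    RC.find (P := fun x n => dP T (H.B hf) x n) (by fun_prop) hPex
  have hfin : RC O (fun x => Nat.bodd (dkk T (H.B hf) (Nat.find (hPex x))
      (dst T (H.B hf) (Nat.find (hPex x))).1 - 1)) := by
    fun_prop
  refine hfin.of_eq fun x => ?_
  have h1 := Nat.find_spec (hPex x)
  set n := Nat.find (hPex x)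
  unfold dP at h1
  simp only [Bool.and_eq_true, decide_eq_true_eq] at h1
  obtain ⟨h1, h2, h3⟩ := h1
  rw [H.dst_eq hf n] at h1 h2 h3 ⊢
  obtain ⟨l, hl⟩ := Option.isSome_iff_exists.1 h2
  rw [H.dkk_eq hf hl] at h3 ⊢
  rw [H.kp_bodd hf h3]
  exact congrArg D h1

end HypS

end S

end Pool.Agent.H69
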