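import Pool.Agent.H69.CaseS

/-!
# Case S: the infimum
-/

set_option autoImplicit false

namespace Pool.Agent.H69

open Encodable

/-- a total function computed by `th i` from a real above a string without splittings is
computable -/
theorem comp_of_noSp {B : ℕ → Bool} {c : ℕ → ℕ} {i : ℕ} {s : List Bool} (hs : Seg B s)
    (h : NoSp i s) (hc : ∀ y, ∃ m, th i (pre B m) y = some (c y)) : Computable c := by
  have hP : RC ∅ (fun p : ℕ × ℕ => (dc (List Bool) p.2).bind
      (fun a => bif preb s a then th i a p.1 else none)) := by fun_prop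
  have h1 : Rc ∅ c := by
    refine Rc.rfindOpt (f := fun y n => (dc (List Bool) n).bind
      (fun a => bif preb s a then th i a y else none)) hP ?_ ?_
    · intro y
      obtain ⟨m, hm⟩ := hc y
      refine ⟨encode (pre B (max m s.length)), ?_⟩
      rw [dc_eq.2 rfl]
      have h1 : preb s (pre B (max m s.length)) = true :=
        preb_iff.2 (hs.prefix_pre (le_max_right _ _))
      simp only [Option.bind_some, h1, cond_true]
      exact th_mono (pre_prefix B (le_max_left _ _)) hm
    · intro y n v hv
      rw [Option.bind_eq_some_iff] at hv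
      obtain ⟨a, -, ha⟩ := hv
      cases h2 : preb s a with
      | false => rw [h2] at ha; simp at ha
      | true =>
        rw [h2] at ha
        simp only [cond_true] at ha
        obtain ⟨m, hm⟩ := hc y
        by_contra hne
        have h3 := h a (pre B (max m s.length)) (preb_iff.1 h2) (hs.prefix_pre (le_max_right _ _))
        have h4 : spl i a (pre B (max m s.length)) = true :=
          spl_iff.2 ⟨y, v, c y, ha, th_mono (pre_prefix B (le_max_left _ _)) hm, hne⟩
        rw [h3] at h4
        exact absurd h4 (by simp)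
  exact RC.computable h1

/-- same for a dead string -/
theorem comp_of_dead {B : ℕ → Bool} {c : ℕ → ℕ} {i : ℕ} {s : List Bool} (hs : Seg B s)
    (h : Dead i s) (hc : ∀ y, ∃ m, th i (pre B m) y = some (c y)) : Computable c := by
  rcases h with h | ⟨y, -, h⟩
  · exact comp_of_noSp hs h hc
  · exfalso
    obtain ⟨m, hm⟩ := hc y
    have h1 := h (pre B (max m s.length)) (hs.prefix_pre (le_max_right _ _))
    rw [th_mono (pre_prefix B (le_max_left _ _)) hm] at h1
    exact absurd h1 (by simp)

/-- no dead extension -/
def TN (i : ℕ) (r : List Bool) : Prop := ∀ a, r <+: a → ¬ Dead i a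

theorem TN.mono {i : ℕ} {r s : List Bool} (h : TN i r) (hrs : r <+: s) : TN i s :=
  fun a ha => h a (hrs.trans ha)

/-- settled -/
def Settled (i : ℕ) (r : List Bool) : Prop := Dead i r ∨ TN i r

theorem Settled.mono {i : ℕ} {r s : List Bool} (h : Settled i r) (hrs : r <+: s) :
    Settled i s := by
  rcases h with h | h
  · exact Or.inl (h.mono hrs)
  · exact Or.inr (h.mono hrs)

/-- compatibility of a node with the value function `c` -/
def cmp (i : ℕ) (c : ℕ → ℕ) (a : List Bool) : Bool :=
  (List.range a.length).all (fun y => (th i a y).elim true (fun v => decide (v = c y)))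

/-- next node as computed from the functional value `c` -/
def stp (i : ℕ) (c T : ℕ → ℕ) (n : ℕ) (s : List Bool) : List Bool :=
  (fm T n s).elim s (fun l => nx T n s
    (bif (gre s (2 * n + 5) (T (n + 1)) (n + 1)).any (fun j => decide (j = i)) then
      (bmin (2 * n + 5) (fun k => cmp i c (nd l k))).getD 0 else 0))

@[fun_prop] theorem RC.cmp {O : Set (ℕ →. ℕ)} {α : Type} [Primcodable α] {i : ℕ} {c : ℕ → ℕ}
    {a : α → List Bool} (hc : RC O c) (ha : RC O a) : RC O fun x => cmp i c (a x) := by
  unfold Pool.Agent.H69.cmp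
  fun_prop

@[fun_prop] theorem RC.stp {O : Set (ℕ →. ℕ)} {α : Type} [Primcodable α] {i : ℕ} {c T : ℕ → ℕ}
    {n : α → ℕ} {s : α → List Bool} (hc : RC O c) (hT : RC O T) (hn : RC O n) (hs : RC O s) :
    RC O fun x => stp i c T (n x) (s x) := by
  unfold Pool.Agent.H69.stp
  fun_prop

namespace HypS

variable {A D : ℕ → Bool} {f M T : ℕ → ℕ} (H : HypS A D f M T)
include H

theorem settle_good (hf : StrictMono f) {n s : ℕ} (h1 : T n ≤ f s) (h2 : f (s + 3) ≤ T (n + 1))
    (h3 : ∀ r, s ≤ r → r < s + 3 → M (f r) ≤ f (r + 1)) {i : ℕ}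
    (hi : bmin (n + 1) (req T (fbar hf) n (H.sg hf n)) = some i) :
    Settled i (H.sg hf (n + 1)) := by
  obtain ⟨⟨l, hl, hlc⟩, hok⟩ := H.good_phase hf h1 h2 h3
  have hin : i ≤ n := by have := (bmin_some.1 hi).1; omega
  have hn : n ≤ f s := le_trans H.Tmono.le_apply h1
  have hf1 : f s ≤ f (s + 1) := H.fmono.monotone (by omega)
  have hf2 : f (s + 1) ≤ f (s + 2) := H.fmono.monotone (by omega)
  have hf3 : f (s + 2) ≤ f (s + 3) := H.fmono.monotone (by omega)
  have hkp : H.kp hf n = 3 + 2 * i + (D (H.ct hf n)).toNat := by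
    unfold kp ch
    simp [hok, hi]
  have hDle : (D (H.ct hf n)).toNat ≤ 1 := Bool.toNat_le _
  have hdiv : Nat.div2 (H.kp hf n - 3) = i := by
    rw [hkp, Nat.div2_val]; omega
  have hk3 : decide (H.kp hf n < 3) = false := by
    rw [hkp]
    simp only [decide_eq_false_iff_not]
    omega
  have hsg : H.sg hf (n + 1) = (mdead i (nd l (H.kp hf n)) (T (n + 1))).getD
      (nd l (H.kp hf n)) := by
    rw [sg_succ]
    unfold nx
    rw [hl]
    simp only [Option.elim_some, hk3, cond_false, hdiv]
  have hpre : nd l (H.kp hf n) <+: H.sg hf (n + 1) := by rw [sg_succ]; exact nd_pre_nx hl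
  have hnd : encode (nd l (H.kp hf n)) ≤ f (s + 1) := le_trans (enc_nd _ _) hlc
  by_cases hD : ∃ a, nd l (H.kp hf n) <+: a ∧ Dead i a
  · left
    obtain ⟨a, ha1, ha2, ha3⟩ := H.M2 (f (s + 1)) i _ (by omega) hnd hD
    have hM1 : M (f (s + 1)) ≤ f (s + 2) := h3 (s + 1) (by omega) (by omega)
    have hM2 : M (f (s + 2)) ≤ f (s + 3) := h3 (s + 2) (by omega) (by omega)
    obtain ⟨a', ha', hle⟩ := mdead_of_Dead (t := T (n + 1)) ha1 ha2 (by omega)
    rw [hsg, ha', Option.getD_some]
    by_contra hcon
    have h5 := H.M3 (f (s + 2)) i a' (by omega) (by omega) hcon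
    have h6 := dead_false_mono h5 (t' := T (n + 1)) (by omega)
    rw [(mdead_some ha').2.1] at h6
    exact absurd h6 (by simp)
  · right
    intro a ha hd
    exact hD ⟨a, hpre.trans ha, hd⟩

theorem no_req (hf : StrictMono f) {i n0 : ℕ} (hs : Settled i (H.sg hf n0)) :
    ∃ n1, ∀ n, n1 ≤ n → fbar hf (T n) ≤ T (n + 1) →
      req T (fbar hf) n (H.sg hf n) i = false := by
  rcases hs with hs | hs
  · refine ⟨n0, fun n hn _ => ?_⟩
    unfold req
    rw [(hs.mono (H.sg_pre' hf hn)).dead]
    rfl
  · obtain ⟨N, hN⟩ := ev_str H.F3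
      (P := fun r _ t => !(preb (H.sg hf n0) r) || !(dead i r t)) (by fun_prop)
      (by
        intro r n t t' h ht
        simp only [Bool.or_eq_true, Bool.not_eq_true'] at h ⊢
        rcases h with h | h
        · exact Or.inl h
        · exact Or.inr (dead_false_mono h ht))
      (by
        intro r n
        by_cases hr : H.sg hf n0 <+: r
        · obtain ⟨t, ht⟩ := not_Dead.1 (hs r hr)
          exact ⟨t, by simp [ht]⟩
        · exact ⟨0, by simp [preb_false.2 hr]⟩)
    obtain ⟨m, hm⟩ := H.len_unbounded hf (f N)
    simp only [decide_eq_true_eq] at hm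
    refine ⟨max n0 m, fun n hn _ => ?_⟩
    by_contra hcon
    have hcon' : req T (fbar hf) n (H.sg hf n) i = true := by simpa using hcon
    unfold req at hcon'
    rw [Bool.and_eq_true] at hcon'
    obtain ⟨-, hcon'⟩ := hcon'
    cases hmd : mdead i (H.sg hf n) (T (n + 1)) with
    | none => rw [hmd] at hcon'; simp at hcon'
    | some r =>
      rw [hmd] at hcon'
      simp only [Option.elim_some, decide_eq_true_eq] at hcon'
      obtain ⟨hr1, hr2, hr3⟩ := mdead_some hmd
      obtain ⟨s, hs1, hs2⟩ := fbar_spec hf (encode r)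
      by_cases hsN : N ≤ s
      · have h5 := hN s hsN r 0 hs1 (by omega)
        simp only [Bool.or_eq_true, Bool.not_eq_true'] at h5
        rcases h5 with h5 | h5
        · rw [preb_false] at h5
          exact h5 ((H.sg_pre' hf (le_trans (le_max_left _ _) hn)).trans hr1)
        · have h6 := dead_false_mono h5 (t' := T (n + 1)) (by omega)
          rw [hr2] at h6
          exact absurd h6 (by simp)
      · have h5 : f s ≤ f N := H.fmono.monotone (by omega)
        have h6 := (H.sg_pre' hf (le_trans (le_max_right n0 m) hn)).length_le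
        have h7 := length_le_enc (H.sg hf n)
        have h8 := pre_enc hr1
        omega

theorem settled (hf : StrictMono f) (i : ℕ) : ∃ n, Settled i (H.sg hf n) := by
  induction i using Nat.strong_induction_on with
  | _ i ih =>
    have h1 : ∀ j, j < i → ∃ n1, ∀ n, n1 ≤ n → fbar hf (T n) ≤ T (n + 1) →
        req T (fbar hf) n (H.sg hf n) j = false := fun j hj => by
      obtain ⟨n0, hn0⟩ := ih j hj
      exact H.no_req hf hn0
    choose! q hq using h1
    obtain ⟨n, hn, s, h1, h2, h3⟩ := H.good (max i ((Finset.range i).sup q))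
    obtain ⟨⟨l, hl, hlc⟩, hok⟩ := H.good_phase hf h1 h2 h3
    have hin : i ≤ n := le_trans (le_max_left _ _) hn
    have hnf : n ≤ f s := le_trans H.Tmono.le_apply h1
    have hf1 : f s ≤ f (s + 1) := H.fmono.monotone (by omega)
    have hf2 : f (s + 1) ≤ f (s + 2) := H.fmono.monotone (by omega)
    have hf3 : f (s + 2) ≤ f (s + 3) := H.fmono.monotone (by omega)
    have hM0 : M (f s) ≤ f (s + 1) := h3 s (by omega) (by omega)
    by_cases hS : Settled i (H.sg hf n)
    · exact ⟨n, hS⟩
    refine ⟨n + 1, H.settle_good hf h1 h2 h3 (bmin_some.2 ⟨by omega, ?_, ?_⟩)⟩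
    · unfold Settled at hS
      push Not at hS
      obtain ⟨hS1, hS2⟩ := hS
      unfold TN at hS2
      push Not at hS2
      have henc := le_trans (H.enc_sg hf n) h1
      have h4 := H.M3 (f s) i _ (by omega) henc hS1
      have h5 := dead_false_mono h4 (t' := T (n + 1)) (by omega)
      obtain ⟨a, ha1, ha2, ha3⟩ := H.M2 (f s) i _ (by omega) henc hS2
      obtain ⟨a', ha', hle⟩ := mdead_of_Dead (t := T (n + 1)) ha1 ha2 (by omega)
      unfold req
      rw [h5, ha']
      have h6 := fbar_le hf (k := encode a') (s := s + 1) (by omega)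
      simp only [Bool.not_false, Option.elim_some, Bool.true_and, decide_eq_true_eq]
      have : f (s + 1 + 1) = f (s + 2) := rfl
      omega
    · intro j hj
      refine hq j hj n ?_ hok
      exact le_trans (le_trans (Finset.le_sup (f := q) (Finset.mem_range.2 hj))
        (le_max_right _ _)) hn

theorem settled_all (hf : StrictMono f) (i : ℕ) : ∃ n, ∀ j, j ≤ i → Settled j (H.sg hf n) := by
  induction i with
  | zero =>
    obtain ⟨n, hn⟩ := H.settled hf 0
    exact ⟨n, fun j hj => by have : j = 0 := by omega
                             subst this; exact hn⟩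
  | succ i ih =>
    obtain ⟨n, hn⟩ := ih
    obtain ⟨m, hm⟩ := H.settled hf (i + 1)
    refine ⟨max n m, fun j hj => ?_⟩
    rcases Nat.lt_or_eq_of_le hj with h | h
    · exact (hn j (by omega)).mono (H.sg_pre' hf (le_max_left _ _))
    · subst h; exact hm.mono (H.sg_pre' hf (le_max_right _ _))

open Classical in
theorem greedy_late (hf : StrictMono f) {i n0 : ℕ}
    (hset : ∀ j, j ≤ i → Settled j (H.sg hf n0)) (hTN : TN i (H.sg hf n0)) :
    ∃ n1, ∀ n, n1 ≤ n → fbar hf (T n) ≤ T (n + 1) →
      i ∈ gre (H.sg hf n) (2 * n + 5) (T (n + 1)) (n + 1) := by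
  set NL : ℕ → List ℕ := fun m => (List.range m).filter (fun j => decide (TN j (H.sg hf n0)))
    with hNL
  have key : ∀ m, m ≤ i + 1 → ∃ n1, ∀ n, n1 ≤ n → fbar hf (T n) ≤ T (n + 1) →
      gre (H.sg hf n) (2 * n + 5) (T (n + 1)) m = NL m := by
    intro m
    induction m with
    | zero => intro _; exact ⟨0, fun n _ _ => by simp [NL, gre]⟩
    | succ m ih =>
      intro hm
      obtain ⟨n1, hn1⟩ := ih (by omega)
      have hNL1 : NL (m + 1) = if TN m (H.sg hf n0) then NL m ++ [m] else NL m := by
        simp only [NL, List.range_succ, List.filter_append]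
        by_cases h : TN m (H.sg hf n0) <;> simp [h]
      rcases hset m (by omega) with hD | hN
      · refine ⟨max n0 n1, fun n hn hok => ?_⟩
        rw [gre_succ, (hD.mono (H.sg_pre' hf (le_trans (le_max_left _ _) hn))).dead, hNL1,
          hn1 n (le_trans (le_max_right _ _) hn) hok]
        have : ¬ TN m (H.sg hf n0) := fun h => h _ List.prefix_rfl hD
        simp [this]
      · have hallN : ∀ j, j ∈ NL m ++ [m] → ∀ x, H.sg hf n0 <+: x → ¬ Dead j x := by
          intro j hj x hx
          rw [List.mem_append] at hj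
          rcases hj with hj | hj
          · simp only [NL, List.mem_filter, decide_eq_true_eq] at hj
            exact hj.2 x hx
          · have : j = m := by simpa using hj
            subst this; exact hN x hx
        obtain ⟨N, hN'⟩ := ev_str H.F3
          (P := fun r n t => !(preb (H.sg hf n0) r) ||
            (!(dead m r t) && (fam (NL m ++ [m]) r (2 * n + 5) t).isSome)) (by fun_prop)
          (by
            intro r n t t' h ht
            simp only [Bool.or_eq_true, Bool.not_eq_true', Bool.and_eq_true] at h ⊢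
            rcases h with h | h
            · exact Or.inl h
            · exact Or.inr ⟨dead_false_mono h.1 ht, fam_isSome_mono h.2 ht⟩)
          (by
            intro r n
            by_cases hr : H.sg hf n0 <+: r
            · obtain ⟨t, ht⟩ := not_Dead.1 (hN r hr)
              obtain ⟨t', ht'⟩ := exists_fam (F := NL m ++ [m]) (r := r)
                (fun j hj x hx => hallN j hj x (hr.trans hx)) (2 * n + 5)
              refine ⟨max t t', ?_⟩
              have e1 := dead_false_mono ht (le_max_left t t')
              have e2 := fam_isSome_mono ht' (le_max_right t t')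
              simp [e1, e2]
            · exact ⟨0, by simp [preb_false.2 hr]⟩)
        refine ⟨max (max n0 n1) (f N + 1), fun n hn hok => ?_⟩
        have hnn0 : n0 ≤ n := by omega
        have hnn1 : n1 ≤ n := by omega
        obtain ⟨s, hs1, hs2⟩ := fbar_spec hf (T n)
        have hTn : n ≤ T n := H.Tmono.le_apply
        have hsN : N ≤ s := by
          by_contra hcon
          have : f s ≤ f N := H.fmono.monotone (by omega)
          omega
        have h5 := hN' s hsN (H.sg hf n) n (le_trans (H.enc_sg hf n) hs1) (by omega)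
        simp only [Bool.or_eq_true, Bool.not_eq_true', Bool.and_eq_true] at h5
        rcases h5 with h5 | h5
        · exact absurd (H.sg_pre' hf hnn0) (preb_false.1 h5)
        · have e1 := dead_false_mono h5.1 (t' := T (n + 1)) (by omega)
          have e2 := fam_isSome_mono h5.2 (t' := T (n + 1)) (by omega)
          rw [gre_succ, hn1 n hnn1 hok, hNL1, if_pos hN, e1, e2]
          rfl
  obtain ⟨n1, hn1⟩ := key (i + 1) le_rfl
  refine ⟨max n1 i, fun n hn hok => ?_⟩
  have h1 := hn1 n (le_trans (le_max_left _ _) hn) hok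
  have h2 := gre_pre (H.sg hf n) (2 * n + 5) (T (n + 1)) (m := i + 1) (n := n + 1)
    (by omega)
  apply h2.subset
  rw [h1]
  simp only [NL, List.mem_filter, List.mem_range, decide_eq_true_eq]
  exact ⟨by omega, hTN⟩

theorem stp_eq (hf : StrictMono f) {i n1 : ℕ} {c : ℕ → ℕ}
    (hc : ∀ y, ∃ m, th i (pre (H.B hf) m) y = some (c y))
    (hn1 : ∀ n, n1 ≤ n → fbar hf (T n) ≤ T (n + 1) →
      i ∈ gre (H.sg hf n) (2 * n + 5) (T (n + 1)) (n + 1)) {n : ℕ} (hn : n1 ≤ n) :
    stp i c T n (H.sg hf n) = H.sg hf (n + 1) := by
  have hcB : ∀ a, Seg (H.B hf) a → ∀ y v, th i a y = some v → v = c y := by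
    intro a ha y v hv
    obtain ⟨m, hm⟩ := hc y
    have h1 := th_mono (ha.prefix_pre (le_max_right m a.length)) hv
    rw [th_mono (pre_prefix (H.B hf) (le_max_left m a.length)) hm] at h1
    exact (Option.some.inj h1).symm
  unfold stp
  rw [sg_succ]
  cases hl : fm T n (H.sg hf n) with
  | none => unfold nx; rw [hl]; rfl
  | some l =>
    simp only [Option.elim_some]
    by_cases hi : i ∈ gre (H.sg hf n) (2 * n + 5) (T (n + 1)) (n + 1)
    · have h1 : ((gre (H.sg hf n) (2 * n + 5) (T (n + 1)) (n + 1)).any
          (fun j => decide (j = i))) = true := by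
        rw [List.any_eq_true]; exact ⟨i, hi, by simp⟩
      rw [h1, cond_true]
      have hseg := H.kp_seg hf hl
      have hk : cmp i c (nd l (H.kp hf n)) = true := by
        unfold cmp
        rw [List.all_eq_true]
        intro y _
        cases hy : th i (nd l (H.kp hf n)) y with
        | none => rfl
        | some v => simpa using hcB _ hseg y v hy
      have hother : ∀ k, k < 2 * n + 5 → k ≠ H.kp hf n → cmp i c (nd l k) = false := by
        intro k hk1 hk2
        have h2 := ((fm_spec hl (H.kp_lt hf n)).2.2 k hk1 hk2).2 i hi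
        obtain ⟨y, v, w, hv, hw, hvw⟩ := spl_iff.1 h2
        have h3 := hcB _ hseg y w hw
        by_contra hcon
        have hcon' : cmp i c (nd l k) = true := by simpa using hcon
        unfold cmp at hcon'
        rw [List.all_eq_true] at hcon'
        have h4 := hcon' y (List.mem_range.2 (th_lt hv))
        rw [hv] at h4
        simp only [Option.elim_some, decide_eq_true_eq] at h4
        exact hvw (by rw [h4, h3])
      have hb : bmin (2 * n + 5) (fun k => cmp i c (nd l k)) = some (H.kp hf n) := by
        rw [bmin_some]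
        refine ⟨H.kp_lt hf n, hk, fun y hy => hother y ?_ (by omega)⟩
        have := H.kp_lt hf n
        omega
      rw [hb]
      rfl
    · have h1 : ((gre (H.sg hf n) (2 * n + 5) (T (n + 1)) (n + 1)).any
          (fun j => decide (j = i))) = false := by
        rw [List.any_eq_false]
        intro j hj
        simp only [decide_eq_true_eq]
        rintro rfl
        exact hi hj
      rw [h1, cond_false]
      have h2 : ¬ fbar hf (T n) ≤ T (n + 1) := fun hok => hi (hn1 n hn hok)
      have h3 := H.kp_pos_iff hf n
      have h4 : H.kp hf n = 0 := by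
        by_contra h5
        exact h2 (h3.1 (Nat.pos_of_ne_zero h5))
      rw [h4]

theorem meet (hf : StrictMono f) {c : ℕ → ℕ} (hcA : RC (orc A) c) (hcB : RC (orc (H.B hf)) c) :
    Computable c := by
  obtain ⟨i, hi⟩ := th_complete hcB
  obtain ⟨n0, hn0⟩ := H.settled_all hf i
  rcases hn0 i le_rfl with hD | hN
  · exact comp_of_dead (H.seg hf n0) hD hi
  · exfalso
    obtain ⟨n1, hn1⟩ := H.greedy_late hf hn0 hN
    have hT : RC (orc A) T := H.TA
    have hseq : RC (orc A) (fun m : ℕ => (Nat.rec (motive := fun _ => List Bool) (H.sg hf n1)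
        (fun m s => stp i c T (n1 + m) s) m : List Bool)) := by fun_prop
    have heq : ∀ m, (Nat.rec (motive := fun _ => List Bool) (H.sg hf n1)
        (fun m s => stp i c T (n1 + m) s) m : List Bool) = H.sg hf (n1 + m) := by
      intro m
      induction m with
      | zero => rfl
      | succ m ih =>
        have e1 : (Nat.rec (motive := fun _ => List Bool) (H.sg hf n1)
          (fun m s => stp i c T (n1 + m) s) (m + 1) : List Bool) = stp i c T (n1 + m)
          (Nat.rec (motive := fun _ => List Bool) (H.sg hf n1)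
          (fun m s => stp i c T (n1 + m) s) m : List Bool) := rfl
        rw [e1, ih, H.stp_eq hf hi hn1 (by omega)]
        rfl
    have hseq2 : RC (orc A) (fun m => H.sg hf (n1 + m)) := hseq.of_eq heq
    have hlen : ∀ x, ∃ m, decide (x < (H.sg hf (n1 + m)).length) = true := by
      intro x
      obtain ⟨m, hm⟩ := H.len_unbounded hf x
      refine ⟨m, ?_⟩
      simp only [decide_eq_true_eq] at hm ⊢
      have := (H.sg_pre' hf (show m ≤ n1 + m by omega)).length_le
      omega
    have hlim : RC (orc A) (lim (fun m => H.sg hf (n1 + m)) hlen) := RC.lim _ hseq2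
    have hB : RC (orc A) (H.B hf) := by
      refine hlim.of_eq fun x => ?_
      obtain ⟨m, hm⟩ := hlen x
      simp only [decide_eq_true_eq] at hm
      have e1 : (H.sg hf (n1 + m))[x]? = some (lim (fun m => H.sg hf (n1 + m)) hlen x) :=
        lim_eq (s := fun m => H.sg hf (n1 + m)) (fun m => H.sg_pre hf (n1 + m)) hlen hm
      have e2 := lim_eq (H.sg_pre hf) (H.len_unbounded hf) hm
      rw [e2] at e1
      exact (Option.some.inj e1).symm
    exact H.DA (H.decode_D hf (RC.real A) hB)

end HypS

end Pool.Agent.H69
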