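import Pool.Agent.H69.CaseS2

/-!
# Case W: definitions and decoding
-/

set_option autoImplicit false

namespace Pool.Agent.H69

open Encodable
open Nat.Partrec (Code)
open Nat.Partrec.Code (evaln eval evaln_mono evaln_sound evaln_complete)

/-- `s` followed by `h` in unary -/
def hd (s : List Bool) (h : ℕ) : List Bool := s ++ (List.replicate h false ++ [true])

/-- membership -/
def memb (q : ℕ) (l : List ℕ) : Bool := l.any (fun x => decide (x = q))

/-- `j` looks like an index of `A` at level `r` -/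
def alive (A : ℕ → Bool) (f : ℕ → ℕ) (j r : ℕ) : Bool :=
  (List.range (f r + 1)).all (fun x =>
    deqb (evaln (f (r + 1)) (Denumerable.ofNat Code j) x) (some (A x).toNat))

/-- `j` has been refuted as an index of `A` at time `T` -/
def refd (A : ℕ → Bool) (j T : ℕ) : Bool :=
  (List.range (T + 1)).any (fun x => (evaln T (Denumerable.ofNat Code j) x).elim false
    (fun w => !(decide (w = (A x).toNat))))

/-- the two searches that always succeed -/
structure Ctx (A : ℕ → Bool) (f : ℕ → ℕ) : Prop where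
  na : ∀ p : ℕ × ℕ, ∃ r, (leb (p.2 + 2) r && !(alive A f p.1 r)) = true
  fx : ∀ p : List Bool × ℕ, ∃ s', (leb (p.2 + 1) s' && leb (encode p.1) (f s')) = true

/-- pick the half of the splitting that differs -/
def pick (i : ℕ) (p : List Bool × List Bool) (wo : Option ℕ) : List Bool :=
  bif deqb (th i p.1 (wit i p.1 p.2)) wo then p.2 else p.1

/-- value of the functional `e` of `A` at the witness of the splitting `p` -/
def thA (A : ℕ → Bool) (e n i : ℕ) (p : List Bool × List Bool) : Option ℕ :=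
  th e (pre A n) (wit i p.1 p.2)

/-- header of a Y-action -/
def hY (j q : ℕ) : ℕ := 1 + Nat.pair (j + 1) q

/-- header of a Z-action -/
def hZ (q : ℕ) : ℕ := 1 + Nat.pair 0 q

/-- node of a Z-action -/
def Nz (A : ℕ → Bool) (s : List Bool) (q n : ℕ) (z : Bool) : List Bool :=
  hd s (hZ q) ++ (pre A n ++ [!(A n), z])

/-- null action -/
def nul (s : List Bool) (d : List ℕ) (b : Bool) : List Bool × List ℕ := (hd s 0 ++ [b], d)

section defs

variable {A : ℕ → Bool} {f : ℕ → ℕ}

/-- first level at which `j` is not alive -/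
noncomputable def fna (C : Ctx A f) (j s : ℕ) : ℕ := Nat.find (C.na (j, s))

/-- next pointer -/
noncomputable def nxs (C : Ctx A f) (a : List Bool) (s : ℕ) : ℕ := Nat.find (C.fx (a, s))

/-- event -/
noncomputable def evt (C : Ctx A f) (j s : ℕ) : Bool :=
  decide (s + 13 ≤ fna C j s) && refd A j (f (fna C j s + 1))

/-- time of the first refutation -/
noncomputable def TT (C : Ctx A f) (j s : ℕ) : ℕ :=
  (bmin (f (fna C j s + 1) + 1) (refd A j)).getD 0

/-- least event -/
noncomputable def evj (C : Ctx A f) (s : ℕ) : Option ℕ :=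
  bmin (f (s + 2) + 1) (fun j => evt C j s)

/-- `q` requires attention, Y-case -/
noncomputable def reqY (C : Ctx A f) (a : List Bool) (s : ℕ) (d : List ℕ) (j q : ℕ) : Bool :=
  !(memb q d) && ((sp q.unpair.1 a (f (s + 4))).isSome &&
    ((sp q.unpair.1 (hd a (hY j q)) (TT C j s)).isNone ||
      (sp q.unpair.1 (hd a (hY j q)) (f (s + 4))).elim false
        (fun p => (thA A q.unpair.2 (f (s + 12)) q.unpair.1 p).isSome)))

/-- the Y-action -/
noncomputable def actY (C : Ctx A f) (a : List Bool) (s : ℕ) (d : List ℕ) (j q : ℕ) (b : Bool) :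
    List Bool × List ℕ :=
  (sp q.unpair.1 (hd a (hY j q)) (TT C j s)).elim (hd a (hY j q) ++ [b], d)
    (fun p => (pick q.unpair.1 p (thA A q.unpair.2 (f (s + 12)) q.unpair.1 p) ++ [b],
      bif (thA A q.unpair.2 (f (s + 12)) q.unpair.1 p).isSome then q :: d else d))

variable (A f) in
/-- least `n` with a splitting above the node -/
def n1 (a : List Bool) (s q : ℕ) : Option ℕ :=
  bmin (f (s + 12) + 3) (fun n => (sp q.unpair.1 (Nz A a q n true) (f (s + 16))).isSome)

variable (A f) in
/-- least `n` with no splitting above the node -/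
def n2 (a : List Bool) (s q : ℕ) : Option ℕ :=
  bmin (f (s + 12) + 3) (fun n => (sp q.unpair.1 (Nz A a q n false) (f (s + 16))).isNone)

variable (A f) in
/-- the splitting found -/
def p1 (a : List Bool) (s q : ℕ) : Option (List Bool × List Bool) :=
  (n1 A f a s q).bind (fun n => sp q.unpair.1 (Nz A a q n true) (f (s + 16)))

variable (A f) in
/-- the value at the witness -/
def w1 (a : List Bool) (s q : ℕ) : Option ℕ :=
  (p1 A f a s q).bind (fun p => thA A q.unpair.2 (f (s + 22)) q.unpair.1 p)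

variable (A f) in
/-- `q` requires attention, Z-case -/
def reqZ (a : List Bool) (s : ℕ) (d : List ℕ) (q : ℕ) : Bool :=
  !(memb q d) && ((sp q.unpair.1 a (f (s + 4))).isSome &&
    ((w1 A f a s q).isSome || (n2 A f a s q).isSome))

variable (A f) in
/-- the Z-action -/
def actZ (a : List Bool) (s : ℕ) (d : List ℕ) (q : ℕ) (b : Bool) : List Bool × List ℕ :=
  bif (w1 A f a s q).isSome then
    (p1 A f a s q).elim (nul a d b) (fun p => (pick q.unpair.1 p (w1 A f a s q) ++ [b], q :: d))
  else (n2 A f a s q).elim (nul a d b) (fun n => (Nz A a q n false ++ [b], d))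

/-- the result of a stage -/
noncomputable def resW (C : Ctx A f) (m : ℕ) (a : List Bool) (s : ℕ) (d : List ℕ) (b : Bool) :
    List Bool × List ℕ :=
  (evj C s).elim
    ((bmin (m + 1) (reqZ A f a s d)).elim (nul a d b) (fun q => actZ A f a s d q b))
    (fun j => (bmin (m + 1) (reqY C a s d j)).elim (nul a d b) (fun q => actY C a s d j q b))

/-- the stages -/
noncomputable def stW (C : Ctx A f) (D : ℕ → Bool) (m : ℕ) : List Bool × ℕ × List ℕ :=
  Nat.rec (motive := fun _ => List Bool × ℕ × List ℕ) ([], 0, [])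
    (fun m x => ((resW C m x.1 x.2.1 x.2.2 (D m)).1,
      nxs C (resW C m x.1 x.2.1 x.2.2 (D m)).1 x.2.1,
      (resW C m x.1 x.2.1 x.2.2 (D m)).2)) m

end defs

/-- last step of the decoding -/
def fin (B : ℕ → Bool) (p : List Bool × List Bool) : List Bool :=
  bif deqb (pre B p.1.length) p.1 then p.1 ++ [B p.1.length] else p.2 ++ [B p.2.length]

/-- decoding of a Z-action -/
def decZ (A B : ℕ → Bool) (a : List Bool) (h t : ℕ) : Option (List Bool) :=
  (bmin (t + 1) (fun n => !(deqb (B ((hd a h).length + n)) (A n)))).bind (fun n =>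
    bif B ((hd a h).length + n + 1) then
      (sp (Nat.unpair (Nat.unpair (h - 1)).2).1 (hd a h ++ (pre A n ++ [!(A n), true])) t).map
        (fun p => fin B p)
    else some (hd a h ++ (pre A n ++ [!(A n), false]) ++ [B ((hd a h).length + n + 2)]))

/-- decoding of a Y-action -/
def decY (A B : ℕ → Bool) (a : List Bool) (h t : ℕ) : Option (List Bool) :=
  (bmin (t + 1) (refd A ((Nat.unpair (h - 1)).1 - 1))).map (fun T =>
    (sp (Nat.unpair (Nat.unpair (h - 1)).2).1 (hd a h) T).elim
      (hd a h ++ [B (hd a h).length]) (fun p => fin B p))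

/-- one step of the decoding -/
def dec (A B : ℕ → Bool) (a : List Bool) (t : ℕ) : Option (List Bool) :=
  (bmin (t + 1) (fun h => B (a.length + h))).bind (fun h =>
    bif decide (h = 0) then some (hd a 0 ++ [B (hd a 0).length])
    else bif decide ((Nat.unpair (h - 1)).1 = 0) then decZ A B a h t else decY A B a h t)

section rc

variable {O : Set (ℕ →. ℕ)} {α : Type} [Primcodable α]
variable {A B D : ℕ → Bool} {f : ℕ → ℕ}

@[fun_prop] theorem RC.hd {s : α → List Bool} {h : α → ℕ} (hs : RC O s) (hh : RC O h) :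
    RC O fun x => hd (s x) (h x) := by
  unfold Pool.Agent.H69.hd
  fun_prop

@[fun_prop] theorem RC.memb {q : α → ℕ} {l : α → List ℕ} (hq : RC O q) (hl : RC O l) :
    RC O fun x => memb (q x) (l x) := by
  unfold Pool.Agent.H69.memb
  fun_prop

@[fun_prop] theorem RC.alive {j r : α → ℕ} (hA : RC O A) (hf : RC O f) (hj : RC O j)
    (hr : RC O r) : RC O fun x => alive A f (j x) (r x) := by
  unfold Pool.Agent.H69.alive
  fun_prop

@[fun_prop] theorem RC.refd {j r : α → ℕ} (hA : RC O A) (hj : RC O j)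
    (hr : RC O r) : RC O fun x => refd A (j x) (r x) := by
  unfold Pool.Agent.H69.refd
  fun_prop

@[fun_prop] theorem RC.pick {i : α → ℕ} {p : α → List Bool × List Bool} {wo : α → Option ℕ}
    (hi : RC O i) (hp : RC O p) (hwo : RC O wo) : RC O fun x => pick (i x) (p x) (wo x) := by
  unfold Pool.Agent.H69.pick
  fun_prop

@[fun_prop] theorem RC.thA {e n i : α → ℕ} {p : α → List Bool × List Bool}
    (hA : RC O A) (he : RC O e) (hn : RC O n) (hi : RC O i) (hp : RC O p) :
    RC O fun x => thA A (e x) (n x) (i x) (p x) := by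
  unfold Pool.Agent.H69.thA
  fun_prop

@[fun_prop] theorem RC.hY {j q : α → ℕ} (hj : RC O j) (hq : RC O q) :
    RC O fun x => hY (j x) (q x) := by
  unfold Pool.Agent.H69.hY
  fun_prop

@[fun_prop] theorem RC.hZ {q : α → ℕ} (hq : RC O q) : RC O fun x => hZ (q x) := by
  unfold Pool.Agent.H69.hZ
  fun_prop

@[fun_prop] theorem RC.Nz {s : α → List Bool} {q n : α → ℕ} {z : α → Bool}
    (hA : RC O A) (hs : RC O s) (hq : RC O q) (hn : RC O n) (hz : RC O z) :
    RC O fun x => Nz A (s x) (q x) (n x) (z x) := by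
  unfold Pool.Agent.H69.Nz
  fun_prop

@[fun_prop] theorem RC.nul {s : α → List Bool} {d : α → List ℕ} {b : α → Bool}
    (hs : RC O s) (hd : RC O d) (hb : RC O b) :
    RC O fun x => nul (s x) (d x) (b x) := by
  unfold Pool.Agent.H69.nul
  fun_prop

@[fun_prop] theorem RC.fna {C : Ctx A f} {j s : α → ℕ} (hA : RC O A) (hf : RC O f) (hj : RC O j)
    (hs : RC O s) : RC O fun x => fna C (j x) (s x) := by
  have h1 : RC O (fun p : ℕ × ℕ => Nat.find (C.na p)) :=
    RC.find (P := fun (p : ℕ × ℕ) r => H69.leb (p.2 + 2) r && !(H69.alive A f p.1 r))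
      (by fun_prop) C.na
  exact RC.comp (f := fun p : ℕ × ℕ => Nat.find (C.na p)) h1 (RC.pair hj hs)

@[fun_prop] theorem RC.nxs {C : Ctx A f} {a : α → List Bool} {s : α → ℕ} (hf : RC O f)
    (ha : RC O a) (hs : RC O s) : RC O fun x => nxs C (a x) (s x) := by
  have h1 : RC O (fun p : List Bool × ℕ => Nat.find (C.fx p)) :=
    RC.find (P := fun (p : List Bool × ℕ) s' => H69.leb (p.2 + 1) s' &&
      H69.leb (encode p.1) (f s'))
      (by fun_prop) C.fx
  exact RC.comp (f := fun p : List Bool × ℕ => Nat.find (C.fx p)) h1 (RC.pair ha hs)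

@[fun_prop] theorem RC.evt {C : Ctx A f} {j s : α → ℕ} (hA : RC O A) (hf : RC O f) (hj : RC O j)
    (hs : RC O s) : RC O fun x => evt C (j x) (s x) := by
  unfold Pool.Agent.H69.evt
  fun_prop

@[fun_prop] theorem RC.TT {C : Ctx A f} {j s : α → ℕ} (hA : RC O A) (hf : RC O f) (hj : RC O j)
    (hs : RC O s) : RC O fun x => TT C (j x) (s x) := by
  unfold Pool.Agent.H69.TT
  fun_prop

@[fun_prop] theorem RC.evj {C : Ctx A f} {s : α → ℕ} (hA : RC O A) (hf : RC O f)
    (hs : RC O s) : RC O fun x => evj C (s x) := by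
  unfold Pool.Agent.H69.evj
  fun_prop

@[fun_prop] theorem RC.reqY {C : Ctx A f} {a : α → List Bool} {s : α → ℕ} {d : α → List ℕ}
    {j q : α → ℕ} (hA : RC O A) (hf : RC O f) (ha : RC O a) (hs : RC O s) (hd : RC O d)
    (hj : RC O j) (hq : RC O q) : RC O fun x => reqY C (a x) (s x) (d x) (j x) (q x) := by
  unfold Pool.Agent.H69.reqY
  fun_prop

@[fun_prop] theorem RC.actY {C : Ctx A f} {a : α → List Bool} {s : α → ℕ} {d : α → List ℕ}
    {j q : α → ℕ} {b : α → Bool} (hA : RC O A) (hf : RC O f) (ha : RC O a) (hs : RC O s)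
    (hd : RC O d) (hj : RC O j) (hq : RC O q) (hb : RC O b) :
    RC O fun x => actY C (a x) (s x) (d x) (j x) (q x) (b x) := by
  unfold Pool.Agent.H69.actY
  fun_prop

@[fun_prop] theorem RC.n1 {a : α → List Bool} {s q : α → ℕ} (hA : RC O A) (hf : RC O f)
    (ha : RC O a) (hs : RC O s) (hq : RC O q) : RC O fun x => n1 A f (a x) (s x) (q x) := by
  unfold Pool.Agent.H69.n1
  fun_prop

@[fun_prop] theorem RC.n2 {a : α → List Bool} {s q : α → ℕ} (hA : RC O A) (hf : RC O f)
    (ha : RC O a) (hs : RC O s) (hq : RC O q) : RC O fun x => n2 A f (a x) (s x) (q x) := by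
  unfold Pool.Agent.H69.n2
  fun_prop

@[fun_prop] theorem RC.p1 {a : α → List Bool} {s q : α → ℕ} (hA : RC O A) (hf : RC O f)
    (ha : RC O a) (hs : RC O s) (hq : RC O q) : RC O fun x => p1 A f (a x) (s x) (q x) := by
  unfold Pool.Agent.H69.p1
  fun_prop

@[fun_prop] theorem RC.w1 {a : α → List Bool} {s q : α → ℕ} (hA : RC O A) (hf : RC O f)
    (ha : RC O a) (hs : RC O s) (hq : RC O q) : RC O fun x => w1 A f (a x) (s x) (q x) := by
  unfold Pool.Agent.H69.w1
  fun_prop

@[fun_prop] theorem RC.reqZ {a : α → List Bool} {s : α → ℕ} {d : α → List ℕ}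
    {q : α → ℕ} (hA : RC O A) (hf : RC O f) (ha : RC O a) (hs : RC O s) (hd : RC O d)
    (hq : RC O q) : RC O fun x => reqZ A f (a x) (s x) (d x) (q x) := by
  unfold Pool.Agent.H69.reqZ
  fun_prop

@[fun_prop] theorem RC.actZ {a : α → List Bool} {s : α → ℕ} {d : α → List ℕ}
    {q : α → ℕ} {b : α → Bool} (hA : RC O A) (hf : RC O f) (ha : RC O a) (hs : RC O s)
    (hd : RC O d) (hq : RC O q) (hb : RC O b) :
    RC O fun x => actZ A f (a x) (s x) (d x) (q x) (b x) := by
  unfold Pool.Agent.H69.actZ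
  fun_prop

@[fun_prop] theorem RC.resW {C : Ctx A f} {m : α → ℕ} {a : α → List Bool} {s : α → ℕ}
    {d : α → List ℕ} {b : α → Bool} (hA : RC O A) (hf : RC O f) (hm : RC O m) (ha : RC O a)
    (hs : RC O s) (hd : RC O d) (hb : RC O b) :
    RC O fun x => resW C (m x) (a x) (s x) (d x) (b x) := by
  unfold Pool.Agent.H69.resW
  fun_prop

theorem RC.stW {C : Ctx A f} (hA : RC O A) (hf : RC O f) (hD : RC O D) :
    RC O (stW C D) := by
  unfold Pool.Agent.H69.stW
  fun_prop

@[fun_prop] theorem RC.fin {p : α → List Bool × List Bool} (hB : RC O B) (hp : RC O p) :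
    RC O fun x => fin B (p x) := by
  unfold Pool.Agent.H69.fin
  fun_prop

@[fun_prop] theorem RC.decZ {a : α → List Bool} {h t : α → ℕ} (hA : RC O A) (hB : RC O B)
    (ha : RC O a) (hh : RC O h) (ht : RC O t) :
    RC O fun x => decZ A B (a x) (h x) (t x) := by
  unfold Pool.Agent.H69.decZ
  fun_prop

@[fun_prop] theorem RC.decY {a : α → List Bool} {h t : α → ℕ} (hA : RC O A) (hB : RC O B)
    (ha : RC O a) (hh : RC O h) (ht : RC O t) :
    RC O fun x => decY A B (a x) (h x) (t x) := by
  unfold Pool.Agent.H69.decY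
  fun_prop

@[fun_prop] theorem RC.dec {a : α → List Bool} {t : α → ℕ} (hA : RC O A) (hB : RC O B)
    (ha : RC O a) (ht : RC O t) : RC O fun x => dec A B (a x) (t x) := by
  unfold Pool.Agent.H69.dec
  fun_prop

end rc

end Pool.Agent.H69
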