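import Pool.Agent.H69.Rel

/-!
# Turing functionals with use, for oracles given as functions `ℕ → Bool`
-/

set_option autoImplicit false

namespace Pool.Agent.H69

open Encodable
open Nat.Partrec (Code)
open Nat.Partrec.Code (evaln eval evaln_mono evaln_bound evaln_sound evaln_complete)

/-- initial segment of length `n` of the real `X` -/
def pre (X : ℕ → Bool) (n : ℕ) : List Bool := (List.range n).map X

@[simp] theorem pre_length (X : ℕ → Bool) (n : ℕ) : (pre X n).length = n := by simp [pre]

theorem pre_prefix (X : ℕ → Bool) {m n : ℕ} (h : m ≤ n) : pre X m <+: pre X n := by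
  obtain ⟨k, rfl⟩ := Nat.exists_eq_add_of_le h
  rw [pre, pre, List.range_add, List.map_append]
  exact List.prefix_append _ _

theorem pre_take (X : ℕ → Bool) {m n : ℕ} (h : m ≤ n) : (pre X n).take m = pre X m := by
  have := (List.prefix_iff_eq_take.1 (pre_prefix X h))
  rw [pre_length] at this
  exact this.symm

theorem pre_succ (X : ℕ → Bool) (n : ℕ) : pre X (n + 1) = pre X n ++ [X n] := by
  simp [pre, List.range_succ]

theorem pre_getElem? (X : ℕ → Bool) {m n : ℕ} (h : m < n) : (pre X n)[m]? = some (X m) := by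
  simp [pre, h]

/-- the real as an oracle -/
def nat (X : ℕ → Bool) : ℕ → ℕ := fun n => (X n).toNat

/-- `σ` is an initial segment of the real `X` -/
def Seg (X : ℕ → Bool) (s : List Bool) : Prop := pre X s.length = s

theorem seg_pre (X : ℕ → Bool) (n : ℕ) : Seg X (pre X n) := by simp [Seg]

theorem Seg.prefix_pre {X : ℕ → Bool} {s : List Bool} (h : Seg X s) {n : ℕ}
    (hn : s.length ≤ n) : s <+: pre X n := by
  rw [← h]
  simpa using pre_prefix X (m := s.length) (n := n) hn

theorem Seg.of_prefix {X : ℕ → Bool} {s t : List Bool} (h : Seg X t) (hst : s <+: t) :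
    Seg X s := by
  unfold Seg at *
  have h1 := List.prefix_iff_eq_take.1 hst
  have h2 : s.length ≤ t.length := hst.length_le
  rw [← pre_take X h2, h, ← h1]

theorem Seg.comparable {X : ℕ → Bool} {s t : List Bool} (hs : Seg X s) (ht : Seg X t)
    (hl : s.length ≤ t.length) : s <+: t := by
  unfold Seg at *
  rw [← hs, ← ht]
  simpa using pre_prefix X (m := s.length) (n := t.length) hl

/-- the `e`-th Turing functional on a finite string -/
def th (e : ℕ) (t : List Bool) (y : ℕ) : Option ℕ :=
  ((List.range (t.length + 1)).filterMap (fun p =>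
    evaln p.unpair.2 (Denumerable.ofNat Code e)
      (Nat.pair y (encode (t.take p.unpair.1))))).head?

theorem th_mono {e : ℕ} {s t : List Bool} {y v : ℕ} (hst : s <+: t)
    (h : th e s y = some v) : th e t y = some v := by
  obtain ⟨r, rfl⟩ := hst
  unfold th at *
  have h1 : List.range ((s ++ r).length + 1) =
      List.range (s.length + 1) ++ (List.range r.length).map (fun x => s.length + 1 + x) := by
    rw [← List.range_add]
    congr 1
    simp; omega
  rw [h1, List.filterMap_append]
  have h2 : (List.range (s.length + 1)).filterMap (fun p =>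
      evaln p.unpair.2 (Denumerable.ofNat Code e)
        (Nat.pair y (encode ((s ++ r).take p.unpair.1)))) =
      (List.range (s.length + 1)).filterMap (fun p =>
      evaln p.unpair.2 (Denumerable.ofNat Code e)
        (Nat.pair y (encode (s.take p.unpair.1)))) := by
    apply List.filterMap_congr
    intro p hp
    have hp1 : p.unpair.1 ≤ s.length := by
      have h3 := Nat.unpair_left_le p
      rw [List.mem_range] at hp
      omega
    rw [List.take_append_of_le_length hp1]
  rw [h2, List.head?_append, h]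
  rfl

theorem th_lt {e : ℕ} {t : List Bool} {y v : ℕ} (h : th e t y = some v) : y < t.length := by
  unfold th at h
  have h1 := List.mem_of_mem_head? h
  rw [List.mem_filterMap] at h1
  obtain ⟨p, hp, hv⟩ := h1
  rw [List.mem_range] at hp
  have h2 := evaln_bound (Option.mem_def.2 hv)
  have h3 := Nat.unpair_right_le p
  have h4 := Nat.left_le_pair y (encode (t.take p.unpair.1))
  omega

theorem th_primrec : Primrec (fun x : ℕ × List Bool × ℕ => th x.1 x.2.1 x.2.2) := by
  unfold th
  refine Primrec.list_head?.comp ?_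
  refine Primrec.listFilterMap (f := fun x : ℕ × List Bool × ℕ => List.range (x.2.1.length + 1))
    (g := fun x p => evaln p.unpair.2 (Denumerable.ofNat Code x.1)
      (Nat.pair x.2.2 (encode (x.2.1.take p.unpair.1)))) ?_ ?_
  · exact Primrec.list_range.comp
      (Primrec.succ.comp (Primrec.list_length.comp (Primrec.fst.comp Primrec.snd)))
  · unfold Primrec₂
    have hx : Primrec (fun q : (ℕ × List Bool × ℕ) × ℕ => q.1) := Primrec.fst
    have hp : Primrec (fun q : (ℕ × List Bool × ℕ) × ℕ => q.2) := Primrec.snd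
    have h1 : Primrec (fun q : (ℕ × List Bool × ℕ) × ℕ => q.2.unpair.2) :=
      Primrec.snd.comp (Primrec.unpair.comp hp)
    have h2 : Primrec (fun q : (ℕ × List Bool × ℕ) × ℕ => Denumerable.ofNat Code q.1.1) :=
      (Primrec.ofNat Code).comp (Primrec.fst.comp hx)
    have h3 : Primrec (fun q : (ℕ × List Bool × ℕ) × ℕ => encode (q.1.2.1.take q.2.unpair.1)) :=
      Primrec.encode.comp (Primrec.list_take.comp (Primrec.fst.comp (Primrec.unpair.comp hp))
        (Primrec.fst.comp (Primrec.snd.comp hx)))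
    have h4 : Primrec (fun q : (ℕ × List Bool × ℕ) × ℕ =>
        Nat.pair q.1.2.2 (encode (q.1.2.1.take q.2.unpair.1))) :=
      Primrec₂.natPair.comp (Primrec.snd.comp (Primrec.snd.comp hx)) h3
    exact Nat.Partrec.Code.primrec_evaln.comp (Primrec.pair (Primrec.pair h1 h2) h4)

/-- The use principle: every partial function recursive in the real `X` is given by a monotone
partial recursive functional on initial segments. -/
theorem use_principle {X : ℕ → Bool} {f : ℕ →. ℕ}
    (h : Nat.RecursiveIn {((nat X : ℕ → ℕ) : ℕ →. ℕ)} f) :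
    ∃ Φ : ℕ → List Bool →. ℕ, Partrec₂ Φ ∧
      (∀ n s t, s <+: t → ∀ v ∈ Φ n s, v ∈ Φ n t) ∧
      (∀ n v, v ∈ f n ↔ ∃ k, v ∈ Φ n (pre X k)) := by
  induction h with
  | zero =>
    refine ⟨fun _ _ => Part.some 0, ?_, ?_, ?_⟩
    · exact (Computable.const 0).partrec
    · intro n s t _ v hv; exact hv
    · intro n v; exact ⟨fun hv => ⟨0, hv⟩, fun ⟨_, hv⟩ => hv⟩
  | succ =>
    refine ⟨fun n _ => Part.some (Nat.succ n), ?_, ?_, ?_⟩
    · exact (Computable.succ.comp Computable.fst).partrec
    · intro n s t _ v hv; exact hv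
    · intro n v; exact ⟨fun hv => ⟨0, hv⟩, fun ⟨_, hv⟩ => hv⟩
  | left =>
    refine ⟨fun n _ => Part.some n.unpair.1, ?_, ?_, ?_⟩
    · exact (Computable.fst.comp (Computable.unpair.comp Computable.fst)).partrec
    · intro n s t _ v hv; exact hv
    · intro n v; exact ⟨fun hv => ⟨0, hv⟩, fun ⟨_, hv⟩ => hv⟩
  | right =>
    refine ⟨fun n _ => Part.some n.unpair.2, ?_, ?_, ?_⟩
    · exact (Computable.snd.comp (Computable.unpair.comp Computable.fst)).partrec
    · intro n s t _ v hv; exact hv
    · intro n v; exact ⟨fun hv => ⟨0, hv⟩, fun ⟨_, hv⟩ => hv⟩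
  | oracle g hg =>
    rw [Set.mem_singleton_iff] at hg
    subst hg
    refine ⟨fun n s => ((s[n]?).map Bool.toNat : Option ℕ), ?_, ?_, ?_⟩
    · have h1 : Computable (fun q : ℕ × List Bool => (q.2[q.1]?).map Bool.toNat) :=
        Computable.option_map (Computable.list_getElem?.comp Computable.snd Computable.fst)
          ((Primrec.dom_bool Bool.toNat).to_comp.comp Computable.snd).to₂
      exact Computable.ofOption h1
    · intro n s t hst v hv
      obtain ⟨r, rfl⟩ := hst
      simp only [Part.mem_ofOption, Option.mem_def, Option.map_eq_some_iff] at hv ⊢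
      obtain ⟨b, hb, hbv⟩ := hv
      refine ⟨b, ?_, hbv⟩
      have hlt : n < s.length := by
        by_contra hcon
        rw [List.getElem?_eq_none (by omega)] at hb
        exact absurd hb (by simp)
      rw [List.getElem?_append_left hlt]
      exact hb
    · intro n v
      constructor
      · intro hv
        refine ⟨n + 1, ?_⟩
        have hv' : v = (X n).toNat := by simpa [nat] using hv
        simp only [Part.mem_ofOption, Option.mem_def, Option.map_eq_some_iff]
        exact ⟨X n, pre_getElem? X (Nat.lt_succ_self n), hv'.symm⟩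
      · rintro ⟨k, hv⟩
        simp only [Part.mem_ofOption, Option.mem_def, Option.map_eq_some_iff] at hv
        obtain ⟨b, hb, hbv⟩ := hv
        have hlt : n < k := by
          by_contra hcon
          rw [List.getElem?_eq_none (by simp; omega)] at hb
          exact absurd hb (by simp)
        rw [pre_getElem? X hlt] at hb
        have : b = X n := by simpa using hb.symm
        subst this
        simpa [nat] using hbv.symm
  | pair hf hh ihf ihh =>
    rename_i f h
    obtain ⟨Φ, hΦ, hΦm, hΦf⟩ := ihf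
    obtain ⟨Ψ, hΨ, hΨm, hΨf⟩ := ihh
    refine ⟨fun n s => (Φ n s).bind fun a => (Ψ n s).map fun b => Nat.pair a b, ?_, ?_, ?_⟩
    · refine Partrec.bind hΦ ?_
      refine Partrec.map ?_ ?_
      · exact Partrec₂.comp hΨ (Computable.fst.comp Computable.fst)
          (Computable.snd.comp Computable.fst)
      · exact (Primrec₂.natPair.to_comp.comp (Computable.snd.comp Computable.fst)
          Computable.snd).to₂
    · intro n s t hst v hv
      simp only [Part.mem_bind_iff, Part.mem_map_iff] at hv ⊢
      obtain ⟨a, ha, b, hb, hv⟩ := hv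
      exact ⟨a, hΦm n s t hst a ha, b, hΨm n s t hst b hb, hv⟩
    · intro n v
      constructor
      · intro hv
        simp only [Seq.seq, Part.mem_bind_iff, Part.map_eq_map, Part.mem_map_iff] at hv
        obtain ⟨g, ⟨a, ha, rfl⟩, b, hb, rfl⟩ := hv
        obtain ⟨k1, hk1⟩ := (hΦf n a).1 ha
        obtain ⟨k2, hk2⟩ := (hΨf n b).1 hb
        refine ⟨max k1 k2, ?_⟩
        simp only [Part.mem_bind_iff, Part.mem_map_iff]
        exact ⟨a, hΦm n _ _ (pre_prefix X (le_max_left _ _)) a hk1, b,
          hΨm n _ _ (pre_prefix X (le_max_right _ _)) b hk2, rfl⟩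
      · rintro ⟨k, hv⟩
        simp only [Part.mem_bind_iff, Part.mem_map_iff] at hv
        obtain ⟨a, ha, b, hb, rfl⟩ := hv
        simp only [Seq.seq, Part.mem_bind_iff, Part.map_eq_map, Part.mem_map_iff]
        exact ⟨_, ⟨a, (hΦf n a).2 ⟨k, ha⟩, rfl⟩, b, (hΨf n b).2 ⟨k, hb⟩, rfl⟩
  | comp hf hh ihf ihh =>
    rename_i f h
    obtain ⟨Φ, hΦ, hΦm, hΦf⟩ := ihf
    obtain ⟨Ψ, hΨ, hΨm, hΨf⟩ := ihh
    refine ⟨fun n s => (Ψ n s).bind fun a => Φ a s, ?_, ?_, ?_⟩
    · refine Partrec.bind hΨ ?_
      exact Partrec₂.comp hΦ Computable.snd (Computable.snd.comp Computable.fst)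
    · intro n s t hst v hv
      obtain ⟨a, ha, hv⟩ := Part.mem_bind_iff.1 hv
      exact Part.mem_bind_iff.2 ⟨a, hΨm n s t hst a ha, hΦm a s t hst v hv⟩
    · intro n v
      constructor
      · intro hv
        obtain ⟨a, ha, hv⟩ := Part.mem_bind_iff.1 hv
        obtain ⟨k1, hk1⟩ := (hΨf n a).1 ha
        obtain ⟨k2, hk2⟩ := (hΦf a v).1 hv
        exact ⟨max k1 k2, Part.mem_bind_iff.2
          ⟨a, hΨm n _ _ (pre_prefix X (le_max_left _ _)) a hk1,
          hΦm a _ _ (pre_prefix X (le_max_right _ _)) v hk2⟩⟩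
      · rintro ⟨k, hv⟩
        obtain ⟨a, ha, hv⟩ := Part.mem_bind_iff.1 hv
        exact Part.mem_bind_iff.2 ⟨a, (hΨf n a).2 ⟨k, ha⟩, (hΦf a v).2 ⟨k, hv⟩⟩
  | prec hf hh ihf ihh =>
    rename_i f h
    obtain ⟨Φ, hΦ, hΦm, hΦf⟩ := ihf
    obtain ⟨Ψ, hΨ, hΨm, hΨf⟩ := ihh
    have hmono : ∀ (p q : ℕ) (s t : List Bool), s <+: t → ∀ v,
        v ∈ (Nat.rec (motive := fun _ => Part ℕ) (Φ p s) (fun y IH => IH.bind fun i =>
          Ψ (Nat.pair p (Nat.pair y i)) s) q : Part ℕ) →
        v ∈ (Nat.rec (motive := fun _ => Part ℕ) (Φ p t) (fun y IH => IH.bind fun i =>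
          Ψ (Nat.pair p (Nat.pair y i)) t) q : Part ℕ) := by
      intro p q s t hst
      induction q with
      | zero => intro v hv; exact hΦm _ s t hst v hv
      | succ m ih =>
        intro v hv
        obtain ⟨a, ha, hv⟩ := Part.mem_bind_iff.1 hv
        exact Part.mem_bind_iff.2 ⟨a, ih a ha, hΨm _ s t hst v hv⟩
    have hcor : ∀ (p q : ℕ) v,
        v ∈ (Nat.rec (motive := fun _ => Part ℕ) (f p) (fun y IH => do
            let i ← IH
            h (Nat.pair p (Nat.pair y i))) q : Part ℕ) ↔ ∃ k,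
        v ∈ (Nat.rec (motive := fun _ => Part ℕ) (Φ p (pre X k)) (fun y IH => IH.bind fun i =>
          Ψ (Nat.pair p (Nat.pair y i)) (pre X k)) q : Part ℕ) := by
      intro p q
      induction q with
      | zero => intro v; exact hΦf _ v
      | succ m ih =>
        intro v
        constructor
        · intro hv
          obtain ⟨a, ha, hv⟩ := Part.mem_bind_iff.1 hv
          obtain ⟨k1, hk1⟩ := (ih a).1 ha
          obtain ⟨k2, hk2⟩ := (hΨf _ v).1 hv
          refine ⟨max k1 k2, Part.mem_bind_iff.2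
            ⟨a, ?_, hΨm _ _ _ (pre_prefix X (le_max_right _ _)) v hk2⟩⟩
          exact hmono p m _ _ (pre_prefix X (le_max_left _ _)) a hk1
        · rintro ⟨k, hv⟩
          obtain ⟨a, ha, hv⟩ := Part.mem_bind_iff.1 hv
          exact Part.mem_bind_iff.2 ⟨a, (ih a).2 ⟨k, ha⟩, (hΨf _ v).2 ⟨k, hv⟩⟩
    refine ⟨fun p s => (p.unpair.2).rec (Φ p.unpair.1 s) fun y IH => IH.bind fun i =>
      Ψ (Nat.pair p.unpair.1 (Nat.pair y i)) s, ?_, ?_, ?_⟩
    · have h1 : Partrec (fun q : ℕ × List Bool => Φ q.1.unpair.1 q.2) :=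
        Partrec₂.comp hΦ (Computable.fst.comp (Computable.unpair.comp Computable.fst))
          Computable.snd
      have h2 : Partrec₂ (fun (q : ℕ × List Bool) (r : ℕ × ℕ) =>
          Ψ (Nat.pair q.1.unpair.1 (Nat.pair r.1 r.2)) q.2) := by
        refine Partrec₂.comp hΨ ?_ (Computable.snd.comp Computable.fst)
        refine Primrec₂.natPair.to_comp.comp
          (Computable.fst.comp (Computable.unpair.comp (Computable.fst.comp Computable.fst))) ?_
        exact Primrec₂.natPair.to_comp.comp (Computable.fst.comp Computable.snd)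
          (Computable.snd.comp Computable.snd)
      exact Partrec.nat_rec (f := fun q : ℕ × List Bool => q.1.unpair.2)
        (Computable.snd.comp (Computable.unpair.comp Computable.fst)) h1 h2
    · intro p s t hst v hv
      exact hmono _ _ s t hst v hv
    · intro p v
      exact hcor _ _ v
  | rfind hf ihf =>
    rename_i f
    obtain ⟨Φ, hΦ, hΦm, hΦf⟩ := ihf
    refine ⟨fun a s => Nat.rfind fun n => (Φ (Nat.pair a n) s).map (fun m => decide (m = 0)),
      ?_, ?_, ?_⟩
    · have h1 : Partrec₂ (fun (q : ℕ × List Bool) (n : ℕ) =>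
          (Φ (Nat.pair q.1 n) q.2).map (fun m => decide (m = 0))) := by
        refine Partrec.map ?_ ?_
        · exact Partrec₂.comp hΦ (Primrec₂.natPair.to_comp.comp
            (Computable.fst.comp Computable.fst) Computable.snd)
            (Computable.snd.comp Computable.fst)
        · have : Primrec (fun m : ℕ => decide (m = 0)) :=
            (Primrec.eq.comp Primrec.id (Primrec.const 0)).decide
          exact (this.to_comp.comp Computable.snd).to₂
      exact Partrec.rfind h1
    · intro a s t hst v hv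
      obtain ⟨h1, h2⟩ := Nat.mem_rfind.1 hv
      refine Nat.mem_rfind.2 ⟨?_, ?_⟩
      · obtain ⟨w, hw, hw'⟩ := (Part.mem_map_iff _).1 h1
        exact (Part.mem_map_iff _).2 ⟨w, hΦm _ s t hst w hw, hw'⟩
      · intro m hm
        obtain ⟨w, hw, hw'⟩ := (Part.mem_map_iff _).1 (h2 hm)
        exact (Part.mem_map_iff _).2 ⟨w, hΦm _ s t hst w hw, hw'⟩
    · intro a v
      constructor
      · intro hv
        obtain ⟨h1, h2⟩ := Nat.mem_rfind.1 hv
        have h1' : ∃ k, true ∈ (Φ (Nat.pair a v) (pre X k)).map (fun m => decide (m = 0)) := by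
          obtain ⟨w, hw, hw'⟩ := (Part.mem_map_iff _).1 h1
          obtain ⟨k, hk⟩ := (hΦf _ w).1 hw
          exact ⟨k, (Part.mem_map_iff _).2 ⟨w, hk, hw'⟩⟩
        have h2' : ∀ m, m < v → ∃ k, false ∈ (Φ (Nat.pair a m) (pre X k)).map
            (fun m => decide (m = 0)) := by
          intro m hm
          obtain ⟨w, hw, hw'⟩ := (Part.mem_map_iff _).1 (h2 hm)
          obtain ⟨k, hk⟩ := (hΦf _ w).1 hw
          exact ⟨k, (Part.mem_map_iff _).2 ⟨w, hk, hw'⟩⟩
        obtain ⟨k0, hk0⟩ := h1'
        choose! K hK using h2'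
        refine ⟨max k0 ((Finset.range v).sup K), Nat.mem_rfind.2 ⟨?_, ?_⟩⟩
        · obtain ⟨w, hw, hw'⟩ := (Part.mem_map_iff _).1 hk0
          exact (Part.mem_map_iff _).2
            ⟨w, hΦm _ _ _ (pre_prefix X (le_max_left _ _)) w hw, hw'⟩
        · intro m hm
          obtain ⟨w, hw, hw'⟩ := (Part.mem_map_iff _).1 (hK m hm)
          refine (Part.mem_map_iff _).2 ⟨w, hΦm _ _ _ (pre_prefix X ?_) w hw, hw'⟩
          exact le_trans (Finset.le_sup (f := K) (Finset.mem_range.2 hm)) (le_max_right _ _)
      · rintro ⟨k, hv⟩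
        obtain ⟨h1, h2⟩ := Nat.mem_rfind.1 hv
        refine Nat.mem_rfind.2 ⟨?_, ?_⟩
        · obtain ⟨w, hw, hw'⟩ := (Part.mem_map_iff _).1 h1
          exact (Part.mem_map_iff _).2 ⟨w, (hΦf _ w).2 ⟨k, hw⟩, hw'⟩
        · intro m hm
          obtain ⟨w, hw, hw'⟩ := (Part.mem_map_iff _).1 (h2 hm)
          exact (Part.mem_map_iff _).2 ⟨w, (hΦf _ w).2 ⟨k, hw⟩, hw'⟩

/-- every function computable in the real `X` is given by one of the functionals `th e` -/
theorem th_complete {X : ℕ → Bool} {h : ℕ → ℕ} (hh : Rc {((nat X : ℕ → ℕ) : ℕ →. ℕ)} h) :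
    ∃ e, ∀ y, ∃ n, th e (pre X n) y = some (h y) := by
  obtain ⟨Φ, hΦ, hΦm, hΦf⟩ := use_principle (RecursiveIn.iff_nat.1 hh)
  obtain ⟨c, hc⟩ := Code.exists_code.1 hΦ
  have hcv : ∀ y s v, v ∈ eval c (Nat.pair y (encode s)) ↔ v ∈ Φ y s := by
    intro y s v
    have h0 : eval c (Nat.pair y (encode s)) =
        (Part.bind (Part.ofOption (decode (Nat.pair y (encode s)) : Option (ℕ × List Bool)))
          fun a : ℕ × List Bool => (Φ a.1 a.2).map encode) := by rw [hc]
    have h1 : (decode (Nat.pair y (encode s)) : Option (ℕ × List Bool)) = some (y, s) := by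
      simp
    rw [h0, h1]
    simp
  refine ⟨encode c, fun y => ?_⟩
  have hy : h y ∈ (fun n => Part.some (h n)) y := Part.mem_some _
  obtain ⟨k, hk⟩ := (hΦf y (h y)).1 hy
  obtain ⟨t, ht⟩ := evaln_complete.1 ((hcv y (pre X k) (h y)).2 hk)
  refine ⟨Nat.pair k t, ?_⟩
  unfold th
  simp only [Denumerable.ofNat_encode, pre_length]
  -- the list is nonempty and all of its members are `h y`
  have hall : ∀ v ∈ (List.range (Nat.pair k t + 1)).filterMap (fun p =>
      evaln p.unpair.2 c (Nat.pair y (encode ((pre X (Nat.pair k t)).take p.unpair.1)))),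
      v = h y := by
    intro v hv
    rw [List.mem_filterMap] at hv
    obtain ⟨p, hp, hv⟩ := hv
    rw [List.mem_range] at hp
    have hp1 : p.unpair.1 ≤ Nat.pair k t := by
      have := Nat.unpair_left_le p
      omega
    rw [pre_take X hp1] at hv
    have h1 := (hcv _ _ _).1 (evaln_sound (Option.mem_def.2 hv))
    have h2 := (hΦf y v).2 ⟨_, h1⟩
    simpa using h2
  have hmem : h y ∈ (List.range (Nat.pair k t + 1)).filterMap (fun p =>
      evaln p.unpair.2 c (Nat.pair y (encode ((pre X (Nat.pair k t)).take p.unpair.1)))) := by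
    rw [List.mem_filterMap]
    refine ⟨Nat.pair k t, by simp, ?_⟩
    rw [Nat.unpair_pair]
    simp only
    rw [pre_take X (Nat.left_le_pair k t)]
    exact ht
  revert hall hmem
  generalize (List.range (Nat.pair k t + 1)).filterMap (fun p =>
      evaln p.unpair.2 c (Nat.pair y (encode ((pre X (Nat.pair k t)).take p.unpair.1)))) = l
  intro hall hmem
  cases l with
  | nil => simp at hmem
  | cons a l => simp [hall a (by simp)]

variable {O : Set (ℕ →. ℕ)} {α : Type*} [Primcodable α]

theorem rc_th {e : α → ℕ} {t : α → List Bool} {y : α → ℕ} (he : Rc O e) (ht : Rc O t)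
    (hy : Rc O y) : Rc O (fun a => th (e a) (t a) (y a)) :=
  Rc.comp (f := fun x : ℕ × List Bool × ℕ => th x.1 x.2.1 x.2.2) (Rc.of_primrec th_primrec)
    (Rc.pair he (Rc.pair ht hy))

theorem rc_pre {X : ℕ → Bool} (hX : Rc O X) : Rc O (pre X) := by
  have : Rc O fun n => (List.range n).map (fun i => X i) :=
    Rc.table (F := fun _ i => X i) (Rc.comp hX Rc.snd) Rc.id
  exact this

theorem rc_nat {X : ℕ → Bool} : Rc O (nat X) ↔ Rc O X := by
  constructor
  · intro h
    have h1 : Primrec (fun n : ℕ => decide (n = 1)) :=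
      (Primrec.eq.comp Primrec.id (Primrec.const 1)).decide
    refine (Rc.prim1 h1 h).of_eq fun n => ?_
    cases h2 : X n <;> simp [nat, h2]
  · intro h
    exact Rc.prim1 (f := Bool.toNat) (Primrec.dom_bool Bool.toNat) h

/-- a total functional of a real computable in the oracle is computable in the oracle -/
theorem th_sound {X : ℕ → Bool} {h : ℕ → ℕ} {e : ℕ} (hX : Rc O X)
    (H : ∀ y, ∃ n, th e (pre X n) y = some (h y)) : Rc O h := by
  refine Rc.rfindOpt (f := fun y n => th e (pre X n) y) ?_ H ?_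
  · exact rc_th (Rc.const e) (Rc.comp (rc_pre hX) Rc.snd) Rc.fst
  · intro y n v hv
    obtain ⟨m, hm⟩ := H y
    have h1 := th_mono (pre_prefix X (le_max_left n m)) hv
    have h2 := th_mono (pre_prefix X (le_max_right n m)) hm
    rw [h1] at h2
    exact Option.some.inj h2

end Pool.Agent.H69
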