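import Mathlib.Tactic
import Mathlib.Data.List.GetD
import Pool.Agent.H69.Func

/-!
# A Hechler-type generic function

Module written by helper77 for helper69.
-/

set_option autoImplicit false

namespace Pool.Agent.H69

open Encodable
open Nat.Partrec (Code)
open Nat.Partrec.Code (eval evaln evaln_mono evaln_bound evaln_sound evaln_complete)

/-- A block of length `l` starting at `u`. -/
def Block (M f : ℕ → ℕ) (l u : ℕ) : Prop :=
  (∀ s, u ≤ s → s < u + l → M (f s) ≤ f (s + 1)) ∧
  (∀ j, j ≤ f (u + l) → (∀ x, (eval (Denumerable.ofNat Code j) x).Dom) →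
    ∀ s, u + l ≤ s → ∀ x, x ≤ f s → (evaln (f (s + 1)) (Denumerable.ofNat Code j) x).isSome)

/-- The characteristic function of the diagonal halting problem. -/
noncomputable def KK : ℕ → ℕ :=
  Set.indicator {n : ℕ | (eval (Denumerable.ofNat Code n) n).Dom} (fun _ => (1 : ℕ))

theorem not_computable_KK : ¬ Computable KK := by
  intro h
  apply ComputablePred.halting_problem 0
  rw [ComputablePred.computable_iff]
  -- the code `c ∘ 0`
  have hg : Primrec (fun c : Code => encode (Code.comp c (Code.const 0))) :=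
    Primrec.encode.comp (Nat.Partrec.Code.primrec₂_comp.comp Primrec.id (Primrec.const _))
  have h1 : Computable (fun c : Code => KK (encode (Code.comp c (Code.const 0)))) :=
    h.comp hg.to_comp
  have h2 : Computable (fun c : Code => decide (KK (encode (Code.comp c (Code.const 0))) = 1)) := by
    have h3 : Primrec (fun n : ℕ => decide (n = 1)) :=
      (Primrec.eq.comp Primrec.id (Primrec.const 1)).decide
    exact h3.to_comp.comp h1
  refine ⟨_, h2, ?_⟩
  funext c
  have h4 : (eval (Denumerable.ofNat Code (encode (Code.comp c (Code.const 0))))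
      (encode (Code.comp c (Code.const 0)))) = eval c 0 := by
    rw [Denumerable.ofNat_encode]
    simp [Nat.Partrec.Code.eval] <;> exact Part.bind_some 0 (eval c)
  have h5 : KK (encode (Code.comp c (Code.const 0))) = 1 ↔ (eval c 0).Dom := by
    unfold KK
    rw [← h4]
    by_cases hd : (eval (Denumerable.ofNat Code (encode (Code.comp c (Code.const 0))))
      (encode (Code.comp c (Code.const 0)))).Dom
    · rw [Set.indicator_of_mem (by exact hd)]
      exact ⟨fun _ => hd, fun _ => rfl⟩
    · rw [Set.indicator_of_notMem (by exact hd)]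
      exact ⟨fun h' => absurd h' (by norm_num), fun h' => (hd h').elim⟩
  simp only [decide_eq_true_eq, eq_iff_iff]
  exact h5.symm

/-- Forcing conditions: a finite string and a computable growth condition. -/
structure Cond where
  p : List ℕ
  h : ℕ → ℕ
  ne : 0 < p.length
  hc : Computable h
  hlt : ∀ n, n < h n

/-- `q` is a string extending the stem of `c` and obeying its growth condition. -/
def Cond.Ext (c : Cond) (q : List ℕ) : Prop :=
  c.p <+: q ∧ ∀ s, c.p.length ≤ s + 1 → s + 1 < q.length → c.h (q.getD s 0) ≤ q.getD (s + 1) 0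

/-- `d` is a stronger condition than `c`. -/
def Cond.le (c d : Cond) : Prop := c.Ext d.p ∧ ∀ n, c.h n ≤ d.h n

theorem getD_of_prefix {p q : List ℕ} (h : p <+: q) {s : ℕ} (hs : s < p.length) :
    q.getD s 0 = p.getD s 0 := by
  obtain ⟨r, rfl⟩ := h
  rw [List.getD_eq_getElem?_getD, List.getD_eq_getElem?_getD, List.getElem?_append_left hs]

theorem Cond.ext_self (c : Cond) : c.Ext c.p :=
  ⟨List.prefix_rfl, fun s h1 h2 => by omega⟩

theorem Cond.le_refl (c : Cond) : c.le c := ⟨c.ext_self, fun _ => le_rfl⟩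

theorem Cond.ext_of_le {c d : Cond} (hcd : c.le d) {q : List ℕ} (hq : d.Ext q) : c.Ext q := by
  refine ⟨hcd.1.1.trans hq.1, ?_⟩
  intro s h1 h2
  by_cases h3 : s + 1 < d.p.length
  · rw [getD_of_prefix hq.1 (by omega), getD_of_prefix hq.1 h3]
    exact hcd.1.2 s h1 h3
  · exact le_trans (hcd.2 _) (hq.2 s (by omega) h2)

theorem Cond.le_trans {c d e : Cond} (h1 : c.le d) (h2 : d.le e) : c.le e :=
  ⟨Cond.ext_of_le h1 h2.1, fun n => (h1.2 n).trans (h2.2 n)⟩

/-- `f` is compatible with `c`. -/
def Cond.Lim (c : Cond) (f : ℕ → ℕ) : Prop :=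
  (∀ s, s < c.p.length → f s = c.p.getD s 0) ∧ ∀ s, c.p.length ≤ s + 1 → c.h (f s) ≤ f (s + 1)

/-- Existence of generics. -/
theorem exists_lim (R : ℕ → Cond → Prop) (hR : ∀ n c, ∃ d, Cond.le c d ∧ R n d) (c0 : Cond)
    (hlen : ∀ n, ∃ m, ∀ d, R m d → n ≤ d.p.length) :
    ∃ f : ℕ → ℕ, c0.Lim f ∧ ∀ n, ∃ c : Cond, c.Lim f ∧ R n c := by
  choose F hF1 hF2 using hR
  let cs : ℕ → Cond := fun n => Nat.rec c0 (fun n c => F n c) n
  have hcs1 : ∀ n, cs (n + 1) = F n (cs n) := fun n => rfl
  have hle1 : ∀ n, (cs n).le (cs (n + 1)) := fun n => by rw [hcs1]; exact hF1 n _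
  have hle : ∀ m n, m ≤ n → (cs m).le (cs n) := by
    intro m n hmn
    induction n, hmn using Nat.le_induction with
    | base => exact Cond.le_refl _
    | succ n _ ih => exact Cond.le_trans ih (hle1 n)
  have hR' : ∀ n, R n (cs (n + 1)) := fun n => by rw [hcs1]; exact hF2 n _
  have hlen' : ∀ s, ∃ n, s < (cs n).p.length := by
    intro s
    obtain ⟨m, hm⟩ := hlen (s + 1)
    exact ⟨m + 1, hm _ (hR' m)⟩
  choose N hN using hlen'
  let f : ℕ → ℕ := fun s => (cs (N s)).p.getD s 0
  have hf : ∀ n s, s < (cs n).p.length → f s = (cs n).p.getD s 0 := by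
    intro n s hs
    rcases le_total n (N s) with h | h
    · exact getD_of_prefix (hle _ _ h).1.1 hs
    · exact (getD_of_prefix (hle _ _ h).1.1 (hN s)).symm
  have hlim : ∀ n, (cs n).Lim f := by
    intro n
    refine ⟨hf n, ?_⟩
    intro s hs
    obtain ⟨m, hm1, hm2⟩ : ∃ m, n ≤ m ∧ s + 1 < (cs m).p.length := by
      refine ⟨max n (N (s + 1)), le_max_left _ _, ?_⟩
      have h1 := (hle _ _ (le_max_right n (N (s + 1)))).1.1.length_le
      have h2 := hN (s + 1)
      omega
    rw [hf m s (by omega), hf m (s + 1) hm2]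
    exact (hle n m hm1).1.2 s hs hm2
  exact ⟨f, hlim 0, fun n => ⟨cs (n + 1), hlim (n + 1), hR' n⟩⟩

/-- Raising the growth condition. -/
def Cond.raise (c : Cond) (H : ℕ → ℕ) (hH : Computable H) : Cond where
  p := c.p
  h := fun n => max (c.h n) (H n)
  ne := c.ne
  hc := (Primrec.nat_max.to_comp).comp c.hc hH
  hlt := fun n => lt_of_lt_of_le (c.hlt n) (le_max_left _ _)

theorem Cond.le_raise (c : Cond) (H : ℕ → ℕ) (hH : Computable H) : c.le (c.raise H hH) :=
  ⟨c.ext_self, fun _ => le_max_left _ _⟩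

/-- Changing the stem. -/
def Cond.restem (c : Cond) (q : List ℕ) (hq : c.Ext q) : Cond where
  p := q
  h := c.h
  ne := lt_of_lt_of_le c.ne hq.1.length_le
  hc := c.hc
  hlt := c.hlt

theorem Cond.le_restem (c : Cond) (q : List ℕ) (hq : c.Ext q) : c.le (c.restem q hq) :=
  ⟨hq, fun _ => le_rfl⟩

/-- One can extend by one step with values above any given bound. -/
theorem Cond.step (c : Cond) (M : ℕ → ℕ) (q : List ℕ) (hq : c.Ext q) :
    ∃ a, c.Ext (q ++ [a]) ∧ M (q.getD (q.length - 1) 0) ≤ a := by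
  have hq0 : 0 < q.length := lt_of_lt_of_le c.ne hq.1.length_le
  refine ⟨max (c.h (q.getD (q.length - 1) 0)) (M (q.getD (q.length - 1) 0)), ⟨?_, ?_⟩,
    le_max_right _ _⟩
  · exact hq.1.trans (List.prefix_append _ _)
  · intro s h1 h2
    rw [List.length_append, List.length_singleton] at h2
    by_cases h3 : s + 1 < q.length
    · rw [getD_of_prefix (List.prefix_append _ _) (by omega),
        getD_of_prefix (List.prefix_append _ _) h3]
      exact hq.2 s h1 h3
    · have h4 : s + 1 = q.length := by omega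
      have h5 : s = q.length - 1 := by omega
      rw [getD_of_prefix (List.prefix_append _ _) (by omega), h4]
      have h6 : (q ++ [max (c.h (q.getD (q.length - 1) 0)) (M (q.getD (q.length - 1) 0))]).getD
          q.length 0 = max (c.h (q.getD (q.length - 1) 0)) (M (q.getD (q.length - 1) 0)) := by
        rw [List.getD_eq_getElem?_getD, List.getElem?_append_right le_rfl]
        simp
      rw [h6, h5]
      exact le_max_left _ _

/-- Extending by `l` steps with fast growth. -/
theorem Cond.steps (c : Cond) (M : ℕ → ℕ) (q : List ℕ) (hq : c.Ext q) (l : ℕ) :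
    ∃ r, c.Ext r ∧ q <+: r ∧ r.length = q.length + l ∧
      ∀ s, q.length ≤ s + 1 → s + 1 < r.length → M (r.getD s 0) ≤ r.getD (s + 1) 0 := by
  induction l with
  | zero => exact ⟨q, hq, List.prefix_rfl, rfl, fun s h1 h2 => by omega⟩
  | succ l ih =>
    obtain ⟨r, h1, h2, h3, h4⟩ := ih
    obtain ⟨a, h5, h6⟩ := c.step M r h1
    have hr0 : 0 < r.length := lt_of_lt_of_le c.ne h1.1.length_le
    refine ⟨r ++ [a], h5, h2.trans (List.prefix_append _ _), by simp [h3]; omega, ?_⟩
    intro s h7 h8
    rw [List.length_append, List.length_singleton] at h8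
    by_cases h9 : s + 1 < r.length
    · rw [getD_of_prefix (List.prefix_append _ _) (by omega),
        getD_of_prefix (List.prefix_append _ _) h9]
      exact h4 s h7 h9
    · have h10 : s + 1 = r.length := by omega
      have h11 : s = r.length - 1 := by omega
      rw [getD_of_prefix (List.prefix_append _ _) (by omega), h10]
      have h12 : (r ++ [a]).getD r.length 0 = a := by
        rw [List.getD_eq_getElem?_getD, List.getElem?_append_right le_rfl]
        simp
      rw [h12, h11]
      exact h6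

/-- A computable bound for the halting times of a total code on `[0,m]`. -/
theorem exists_time (c : Code) (hc : ∀ x, (eval c x).Dom) :
    ∃ T : ℕ → ℕ, Computable T ∧ ∀ m t x, T m ≤ t → x ≤ m → (evaln t c x).isSome := by
  -- the time for a single argument
  have hex : ∀ x, ∃ t, (evaln t c x).isSome = true := by
    intro x
    obtain ⟨k, hk⟩ := evaln_complete.1 (Part.get_mem (hc x))
    exact ⟨k, Option.isSome_iff_exists.2 ⟨_, hk⟩⟩
  have h0 : Primrec (fun p : ℕ × ℕ => (evaln p.2 c p.1).isSome) := by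
    refine Primrec.option_isSome.comp ?_
    exact Nat.Partrec.Code.primrec_evaln.comp
      (Primrec.pair (Primrec.pair Primrec.snd (Primrec.const c)) Primrec.fst)
  have h1 : Rc ∅ (fun x => Nat.find (hex x)) :=
    Rc.find (P := fun x t => (evaln t c x).isSome) (Rc.of_primrec h0) hex
  have h2 : Rc ∅ (fun m : ℕ => Nat.rec (motive := fun _ => ℕ) (Nat.find (hex 0))
      (fun y IH => max IH (Nat.find (hex (y + 1)))) m) := by
    refine Rc.nat_rec (g := fun _ : ℕ => Nat.find (hex 0))
      (h := fun _ y IH => max IH (Nat.find (hex (y + 1)))) Rc.id (Rc.const _) ?_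
    refine Rc.prim2 Primrec.nat_max (Rc.comp Rc.snd Rc.snd) ?_
    refine Rc.comp (f := fun x => Nat.find (hex x)) h1 ?_
    exact Rc.prim1 Primrec.succ (Rc.comp Rc.fst Rc.snd)
  have h3 : Computable (fun m : ℕ => Nat.rec (motive := fun _ => ℕ) (Nat.find (hex 0))
      (fun y IH => max IH (Nat.find (hex (y + 1)))) m) := recursiveIn_empty_iff.1 h2
  refine ⟨_, h3, ?_⟩
  intro m t x ht hx
  have h4 : Nat.find (hex x) ≤ Nat.rec (motive := fun _ => ℕ) (Nat.find (hex 0))
      (fun y IH => max IH (Nat.find (hex (y + 1)))) m := by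
    clear ht
    induction m with
    | zero =>
      have : x = 0 := by omega
      subst this
      exact le_rfl
    | succ m ih =>
      by_cases hxm : x ≤ m
      · exact (ih hxm).trans (le_max_left _ _)
      · have : x = m + 1 := by omega
        subst this
        exact le_max_right _ _
  obtain ⟨v, hv⟩ := Option.isSome_iff_exists.1 (Nat.find_spec (hex x))
  exact Option.isSome_iff_exists.2 ⟨v, evaln_mono (h4.trans ht) hv⟩

/-- A computable bound for the halting times of all total codes below `b`. -/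
theorem exists_time' (b : ℕ) :
    ∃ T : ℕ → ℕ, Computable T ∧ ∀ j, j ≤ b → (∀ x, (eval (Denumerable.ofNat Code j) x).Dom) →
      ∀ m t x, T m ≤ t → x ≤ m → (evaln t (Denumerable.ofNat Code j) x).isSome := by
  have key : ∀ j, ∃ T : ℕ → ℕ, Computable T ∧
      ((∀ x, (eval (Denumerable.ofNat Code j) x).Dom) →
      ∀ m t x, T m ≤ t → x ≤ m → (evaln t (Denumerable.ofNat Code j) x).isSome) := by
    intro j
    by_cases h : ∀ x, (eval (Denumerable.ofNat Code j) x).Dom
    · obtain ⟨T, h1, h2⟩ := exists_time _ h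
      exact ⟨T, h1, fun _ => h2⟩
    · exact ⟨fun _ => 0, Computable.const 0, fun h' => (h h').elim⟩
  induction b with
  | zero =>
    obtain ⟨T, h1, h2⟩ := key 0
    refine ⟨T, h1, fun j hj => ?_⟩
    have : j = 0 := by omega
    subst this
    exact h2
  | succ b ih =>
    obtain ⟨T, h1, h2⟩ := ih
    obtain ⟨S, h3, h4⟩ := key (b + 1)
    refine ⟨fun m => max (T m) (S m), Primrec.nat_max.to_comp.comp h1 h3, ?_⟩
    intro j hj hd m t x ht hx
    by_cases h : j ≤ b
    · exact h2 j h hd m t x ((le_max_left _ _).trans ht) hx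
    · have : j = b + 1 := by omega
      subst this
      exact h4 hd m t x ((le_max_right _ _).trans ht) hx

/-- The block requirement. -/
def RBlock (M : ℕ → ℕ) (l N : ℕ) (c : Cond) : Prop :=
  ∃ u, N ≤ u ∧ c.p.length = u + l + 1 ∧
    (∀ s, u ≤ s → s < u + l → M (c.p.getD s 0) ≤ c.p.getD (s + 1) 0) ∧
    (∀ j, j ≤ c.p.getD (u + l) 0 → (∀ x, (eval (Denumerable.ofNat Code j) x).Dom) →
      ∀ m t x, c.h m ≤ t → x ≤ m → (evaln t (Denumerable.ofNat Code j) x).isSome)

theorem rblock (M : ℕ → ℕ) (l N : ℕ) (c : Cond) : ∃ d, c.le d ∧ RBlock M l N d := by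
  obtain ⟨q, hq1, hq2, hq3, _⟩ := c.steps M c.p c.ext_self N
  obtain ⟨r, hr1, hr2, hr3, hr4⟩ := c.steps M q hq1 l
  obtain ⟨T, hT1, hT2⟩ := exists_time' (r.getD (q.length - 1 + l) 0)
  have hq0 : 0 < q.length := lt_of_lt_of_le c.ne hq1.1.length_le
  have hc0 := c.ne
  refine ⟨(c.restem r hr1).raise T hT1, Cond.le_trans (c.le_restem r hr1) (Cond.le_raise _ _ _),
    q.length - 1, by omega, ?_, ?_, ?_⟩
  · change r.length = _
    omega
  · intro s h1 h2
    exact hr4 s (by omega) (by omega)
  · intro j hj hd m t x ht hx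
    exact hT2 j hj hd m t x ((le_max_right _ _).trans ht) hx

theorem block_of_lim {M : ℕ → ℕ} {l N : ℕ} {c : Cond} (h : RBlock M l N c) {f : ℕ → ℕ}
    (hf : c.Lim f) : ∃ u, N ≤ u ∧ Block M f l u := by
  obtain ⟨u, h1, h2, h3, h4⟩ := h
  refine ⟨u, h1, ?_, ?_⟩
  · intro s hs1 hs2
    rw [hf.1 s (by omega), hf.1 (s + 1) (by omega)]
    exact h3 s hs1 hs2
  · intro j hj hd s hs x hx
    rw [hf.1 (u + l) (by omega)] at hj
    exact h4 j hj hd (f s) (f (s + 1)) x (hf.2 s (by omega)) hx

/-- The graph of a function as a real. -/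
def gr (f : ℕ → ℕ) : ℕ → Bool := fun n => decide (f n.unpair.1 = n.unpair.2)

/-- The initial segment of the graph determined by a string. -/
def gp (q : List ℕ) : List Bool :=
  (List.range q.length).map (fun n => decide (q.getD n.unpair.1 0 = n.unpair.2))

theorem gp_eq {f : ℕ → ℕ} {q : List ℕ} (h : ∀ s, s < q.length → f s = q.getD s 0) :
    gp q = pre (gr f) q.length := by
  unfold gp pre gr
  apply List.map_congr_left
  intro n hn
  rw [List.mem_range] at hn
  rw [h n.unpair.1 (lt_of_le_of_lt (Nat.unpair_left_le n) hn)]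

theorem rc_of_gr (f : ℕ → ℕ) : Rc {((nat (gr f) : ℕ → ℕ) : ℕ →. ℕ)} f := by
  have h0 : Rc {((nat (gr f) : ℕ → ℕ) : ℕ →. ℕ)} (gr f) := rc_nat.1 (Rc.self _)
  have hex : ∀ s, ∃ m, gr f (Nat.pair s m) = true := fun s => ⟨f s, by simp [gr]⟩
  have h1 : Rc {((nat (gr f) : ℕ → ℕ) : ℕ →. ℕ)} (fun s => Nat.find (hex s)) := by
    refine Rc.find (P := fun s m => gr f (Nat.pair s m)) ?_ hex
    exact Rc.comp h0 (Rc.prim2 Primrec₂.natPair Rc.fst Rc.snd)
  refine h1.of_eq ?_
  intro s
  have h2 := Nat.find_spec (hex s)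
  generalize Nat.find (hex s) = m at h2
  simp only [gr, Nat.unpair_pair, decide_eq_true_eq] at h2
  exact h2.symm

/-- The requirement that the functional `e` does not compute the halting problem. -/
def RK (e : ℕ) (c : Cond) : Prop :=
  (∃ y v, th e (gp c.p) y = some v ∧ v ≠ KK y) ∨
    (∀ q, c.Ext q → ∀ y v, th e (gp q) y = some v → v = KK y)

theorem rk (e : ℕ) (c : Cond) : ∃ d, c.le d ∧ RK e d := by
  by_cases h : ∃ q, c.Ext q ∧ ∃ y v, th e (gp q) y = some v ∧ v ≠ KK y
  · obtain ⟨q, hq, y, v, h1, h2⟩ := h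
    exact ⟨c.restem q hq, c.le_restem q hq, Or.inl ⟨y, v, h1, h2⟩⟩
  · refine ⟨c, Cond.le_refl c, Or.inr ?_⟩
    intro q hq y v hv
    by_contra hne
    exact h ⟨q, hq, y, v, hv, hne⟩

/-- Decision procedure for `Ext`, relative to the growth function. -/
def chk (c : Cond) (q : List ℕ) : Bool :=
  (decide (q.take c.p.length = c.p)) &&
    Nat.rec (motive := fun _ => Bool) true (fun s acc => acc &&
      (decide (s + 1 < c.p.length) || decide (c.h (q.getD s 0) ≤ q.getD (s + 1) 0))) (q.length - 1)

theorem chk_iff (c : Cond) (q : List ℕ) : chk c q = true ↔ c.Ext q := by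
  unfold chk Cond.Ext
  rw [Bool.and_eq_true, decide_eq_true_eq]
  have h1 : q.take c.p.length = c.p ↔ c.p <+: q := by
    rw [List.prefix_iff_eq_take]
    exact eq_comm
  rw [h1]
  have h2 : ∀ n, (Nat.rec (motive := fun _ => Bool) true (fun s acc => acc &&
      (decide (s + 1 < c.p.length) || decide (c.h (q.getD s 0) ≤ q.getD (s + 1) 0))) n = true) ↔
      ∀ s, s < n → (s + 1 < c.p.length ∨ c.h (q.getD s 0) ≤ q.getD (s + 1) 0) := by
    intro n
    induction n with
    | zero => simp
    | succ n ih =>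
      simp only [Bool.and_eq_true, Bool.or_eq_true, decide_eq_true_eq]
      rw [ih]
      constructor
      · rintro ⟨h3, h4⟩ s hs
        rcases Nat.lt_succ_iff_lt_or_eq.1 hs with h5 | h5
        · exact h3 s h5
        · rw [h5]; exact h4
      · intro h3
        exact ⟨fun s hs => h3 s (by omega), h3 n (by omega)⟩
  rw [h2]
  constructor
  · rintro ⟨h3, h4⟩
    refine ⟨h3, fun s h5 h6 => ?_⟩
    rcases h4 s (by omega) with h7 | h7
    · omega
    · exact h7
  · rintro ⟨h3, h4⟩
    refine ⟨h3, fun s h5 => ?_⟩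
    by_cases h6 : s + 1 < c.p.length
    · exact Or.inl h6
    · exact Or.inr (h4 s (by omega) (by omega))

theorem rc_chk (c : Cond) : Rc ∅ (chk c) := by
  have hd : Primrec (fun p : List ℕ × ℕ => p.1.getD p.2 0) := Primrec.list_getD 0
  have hh : Rc ∅ c.h := Rc.of_computable c.hc
  have hand : Primrec₂ (fun a b : Bool => a && b) := Primrec.and
  have hor : Primrec₂ (fun a b : Bool => a || b) := Primrec.or
  refine Rc.prim2 (f := fun a b : Bool => a && b) hand ?_ ?_
  · refine Rc.of_primrec ?_
    have h1 : Primrec (fun q : List ℕ => q.take c.p.length) :=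
      Primrec.list_take.comp (Primrec.const _) Primrec.id
    exact (Primrec.eq.comp h1 (Primrec.const _)).decide
  · refine Rc.nat_rec (f := fun q : List ℕ => q.length - 1) (g := fun _ => true)
      (h := fun (q : List ℕ) s acc => acc && (decide (s + 1 < c.p.length) ||
        decide (c.h (q.getD s 0) ≤ q.getD (s + 1) 0))) ?_ (Rc.const _) ?_
    · exact Rc.of_primrec (Primrec.nat_sub.comp Primrec.list_length (Primrec.const 1))
    · refine Rc.prim2 (f := fun a b : Bool => a && b) hand (Rc.comp Rc.snd Rc.snd) ?_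
      have hs : Rc ∅ (fun p : List ℕ × ℕ × Bool => p.2.1) := Rc.comp Rc.fst Rc.snd
      have hs1 : Rc ∅ (fun p : List ℕ × ℕ × Bool => p.2.1 + 1) := Rc.prim1 Primrec.succ hs
      refine Rc.prim2 (f := fun a b : Bool => a || b) hor ?_ ?_
      · have h2 : Primrec (fun n : ℕ => decide (n < c.p.length)) :=
          (Primrec.nat_lt.comp Primrec.id (Primrec.const _)).decide
        exact Rc.prim1 h2 hs1
      · have h3 : Primrec₂ (fun a b : ℕ => decide (a ≤ b)) := Primrec.nat_le.decide
        refine Rc.prim2 (f := fun a b : ℕ => decide (a ≤ b)) h3 ?_ ?_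
        · refine Rc.comp (f := c.h) hh ?_
          exact Rc.prim1 (f := fun p : List ℕ × ℕ => p.1.getD p.2 0) hd (Rc.pair Rc.fst hs)
        · exact Rc.prim1 (f := fun p : List ℕ × ℕ => p.1.getD p.2 0) hd (Rc.pair Rc.fst hs1)

theorem primrec_gp : Primrec gp := by
  unfold gp
  refine Primrec.list_map (f := fun q : List ℕ => List.range q.length)
    (g := fun (q : List ℕ) (n : ℕ) => decide (q.getD n.unpair.1 0 = n.unpair.2)) ?_ ?_
  · exact Primrec.list_range.comp Primrec.list_length
  · have hd : Primrec (fun p : List ℕ × ℕ => p.1.getD p.2 0) := Primrec.list_getD 0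
    have h1 : Primrec (fun p : List ℕ × ℕ => p.1.getD p.2.unpair.1 0) :=
      hd.comp (Primrec.pair Primrec.fst (Primrec.fst.comp (Primrec.unpair.comp Primrec.snd)))
    have h2 : Primrec (fun p : List ℕ × ℕ => p.2.unpair.2) :=
      Primrec.snd.comp (Primrec.unpair.comp Primrec.snd)
    exact (Primrec.eq.comp h1 h2).decide

theorem computable_KK_of (e : ℕ) (c : Cond)
    (h : ∀ q, c.Ext q → ∀ y v, th e (gp q) y = some v → v = KK y)
    (hex : ∀ y, ∃ q, c.Ext q ∧ th e (gp q) y = some (KK y)) : Computable KK := by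
  have h1 : Rc ∅ KK := by
    refine Rc.rfindOpt (f := fun y n => bif chk c (Denumerable.ofNat (List ℕ) n) then
      th e (gp (Denumerable.ofNat (List ℕ) n)) y else none) ?_ ?_ ?_
    · have hq : Rc ∅ (fun p : ℕ × ℕ => Denumerable.ofNat (List ℕ) p.2) :=
        Rc.of_primrec ((Primrec.ofNat (List ℕ)).comp Primrec.snd)
      refine Rc.cond (Rc.comp (rc_chk c) hq) ?_ (Rc.const _)
      exact rc_th (Rc.const e) (Rc.prim1 primrec_gp hq) Rc.fst
    · intro y
      obtain ⟨q, hq1, hq2⟩ := hex y
      refine ⟨encode q, ?_⟩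
      rw [Denumerable.ofNat_encode, (chk_iff c q).2 hq1]
      exact hq2
    · intro y n v hv
      cases hc : chk c (Denumerable.ofNat (List ℕ) n) with
      | true =>
        rw [hc] at hv
        exact h _ ((chk_iff c _).1 hc) y v hv
      | false =>
        rw [hc] at hv
        exact absurd hv (by simp)
  exact recursiveIn_empty_iff.1 h1

theorem not_reducible_of {f : ℕ → ℕ} (h : ∀ e, ∃ c : Cond, c.Lim f ∧ RK e c) :
    ¬ Rc {(f : ℕ →. ℕ)} KK := by
  intro hK
  have h1 : Rc {((nat (gr f) : ℕ → ℕ) : ℕ →. ℕ)} KK := Rc.trans1 hK (rc_of_gr f)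
  obtain ⟨e, he⟩ := th_complete h1
  obtain ⟨c, hc1, hc2⟩ := h e
  have hpre : gp c.p = pre (gr f) c.p.length := gp_eq hc1.1
  rcases hc2 with ⟨y, v, hv, hne⟩ | hall
  · obtain ⟨n, hn⟩ := he y
    rw [hpre] at hv
    have h2 := th_mono (pre_prefix (gr f) (le_max_left n c.p.length)) hn
    have h3 := th_mono (pre_prefix (gr f) (le_max_right n c.p.length)) hv
    rw [h2] at h3
    exact hne (Option.some.inj h3).symm
  · refine not_computable_KK (computable_KK_of e c hall ?_)
    intro y
    obtain ⟨n, hn⟩ := he y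
    -- a long initial segment of `f`
    let m := max n c.p.length
    let q : List ℕ := (List.range m).map f
    have hql : q.length = m := by simp [q]
    have hqD : ∀ s, s < m → q.getD s 0 = f s := by
      intro s hs
      simp [q, List.getD_eq_getElem?_getD, hs]
    refine ⟨q, ⟨?_, ?_⟩, ?_⟩
    · rw [List.prefix_iff_eq_take]
      apply List.ext_getElem
      · rw [List.length_take, hql]; simp [m]
      · intro i h2 h3
        rw [List.getElem_take]
        have h4 := hc1.1 i h2
        rw [List.getD_eq_getElem _ _ h2] at h4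
        rw [← h4]
        simp [q]
    · intro s h2 h3
      rw [hql] at h3
      rw [hqD s (by omega), hqD (s + 1) h3]
      exact hc1.2 s h2
    · have h2 : gp q = pre (gr f) q.length := gp_eq (fun s hs => (hqD s (by omega)).symm)
      rw [h2, hql]
      exact th_mono (pre_prefix (gr f) (le_max_left _ _)) hn

/-- The requirement for dominating the computable function with index `e`. -/
def RH (e : ℕ) (c : Cond) : Prop :=
  ∀ H : ℕ → ℕ, (∀ x, eval (Denumerable.ofNat Code e) x = Part.some (H x)) → ∀ n, H n ≤ c.h n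

theorem rh (e : ℕ) (c : Cond) : ∃ d, c.le d ∧ RH e d := by
  by_cases h : ∃ H : ℕ → ℕ, ∀ x, eval (Denumerable.ofNat Code e) x = Part.some (H x)
  · obtain ⟨H, hH⟩ := h
    have hc : Computable H := by
      have h1 : Nat.Partrec (eval (Denumerable.ofNat Code e)) :=
        Nat.Partrec.Code.exists_code.2 ⟨_, rfl⟩
      have h2 : Partrec (eval (Denumerable.ofNat Code e)) := Partrec.nat_iff.2 h1
      exact h2.of_eq (fun x => hH x)
    refine ⟨c.raise H hc, Cond.le_raise _ _ _, ?_⟩
    intro H' hH' n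
    have h3 : H' n = H n := by
      have := (hH' n).symm.trans (hH n)
      exact Part.some_injective this
    rw [h3]
    exact le_max_right _ _
  · exact ⟨c, Cond.le_refl c, fun H hH => (h ⟨H, hH⟩).elim⟩

theorem generic (M : ℕ → ℕ) (l : ℕ) : ∃ f : ℕ → ℕ, StrictMono f ∧
    (∀ N, ∃ u, N ≤ u ∧ Block M f l u) ∧
    (∀ H : ℕ → ℕ, Computable H → ∃ N, ∀ s, N ≤ s → H (f s) ≤ f (s + 1)) ∧
    ¬ TuringReducible (Set.indicator {n : ℕ | (eval (Denumerable.ofNat Code n) n).Dom}
      (fun _ => (1 : ℕ)) : ℕ →. ℕ) (f : ℕ →. ℕ) := by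
  -- three interleaved families of requirements
  let R' : ℕ → Cond → Prop := fun n c =>
    if n % 3 = 0 then RBlock M l (n / 3) c else if n % 3 = 1 then RK (n / 3) c else RH (n / 3) c
  have hR' : ∀ n c, ∃ d, Cond.le c d ∧ R' n d := by
    intro n c
    by_cases h0 : n % 3 = 0
    · obtain ⟨d, h1, h2⟩ := rblock M l (n / 3) c
      exact ⟨d, h1, by simp only [R', h0, if_true]; exact h2⟩
    · by_cases h1 : n % 3 = 1
      · obtain ⟨d, h2, h3⟩ := rk (n / 3) c
        exact ⟨d, h2, by simp only [R', h1]; exact h3⟩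
      · obtain ⟨d, h2, h3⟩ := rh (n / 3) c
        exact ⟨d, h2, by simp only [R', h0, h1, if_false]; exact h3⟩
  have hB : ∀ N d, R' (3 * N) d → RBlock M l N d := by
    intro N d h
    have h1 : (3 * N) % 3 = 0 := by omega
    have h2 : (3 * N) / 3 = N := by omega
    simp only [R', h1, if_true, h2] at h
    exact h
  have hK : ∀ N d, R' (3 * N + 1) d → RK N d := by
    intro N d h
    have h1 : (3 * N + 1) % 3 = 1 := by omega
    have h2 : (3 * N + 1) / 3 = N := by omega
    simp only [R', h1, h2] at h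
    exact h
  have hH : ∀ N d, R' (3 * N + 2) d → RH N d := by
    intro N d h
    have h1 : (3 * N + 2) % 3 = 2 := by omega
    have h2 : (3 * N + 2) / 3 = N := by omega
    simp only [R', h1, h2] at h
    exact h
  let c0 : Cond := ⟨[0], fun n => n + 1, by simp, Primrec.succ.to_comp, fun n => Nat.lt_succ_self n⟩
  obtain ⟨f, hf0, hf⟩ := exists_lim R' hR' c0 (by
    intro n
    refine ⟨3 * n, fun d hd => ?_⟩
    obtain ⟨u, h1, h2, _⟩ := hB n d hd
    omega)
  refine ⟨f, ?_, ?_, ?_, ?_⟩
  · apply strictMono_nat_of_lt_succ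
    intro s
    have h1 := hf0.2 s (by change 1 ≤ s + 1; omega)
    exact h1
  · intro N
    obtain ⟨c, h1, h2⟩ := hf (3 * N)
    exact block_of_lim (hB N c h2) h1
  · intro H hHc
    obtain ⟨cd, hcd⟩ := Code.exists_code.1 (Partrec.nat_iff.1 hHc.partrec)
    obtain ⟨c, h1, h2⟩ := hf (3 * (encode cd) + 2)
    refine ⟨c.p.length, fun s hs => ?_⟩
    have h3 := hH _ c h2 H (fun x => by rw [Denumerable.ofNat_encode, hcd]; rfl)
    exact (h3 (f s)).trans (h1.2 s (by omega))
  · have hkk := not_reducible_of (f := f) (fun e => by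
      obtain ⟨c, h1, h2⟩ := hf (3 * e + 1)
      exact ⟨c, h1, hK e c h2⟩)
    intro h
    apply hkk
    have h1 : (Set.indicator {n : ℕ | (eval (Denumerable.ofNat Code n) n).Dom}
      (fun _ => (1 : ℕ)) : ℕ →. ℕ) = fun n => Part.some (KK n) := by
      funext n
      unfold KK
      by_cases hd : n ∈ {n : ℕ | (eval (Denumerable.ofNat Code n) n).Dom}
      · rw [Set.indicator_of_mem hd, Set.indicator_of_mem hd]
        rfl
      · rw [Set.indicator_of_notMem hd, Set.indicator_of_notMem hd]
        rfl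
    rw [h1] at h
    exact h

end Pool.Agent.H69
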