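import Pool.Agent.H69.PR
import Pool.Agent.H69.Generic

/-!
# Case W: the stages
-/

set_option autoImplicit false

namespace Pool.Agent.H69

open Encodable
open Nat.Partrec (Code)
open Nat.Partrec.Code (evaln eval evaln_mono evaln_sound evaln_complete)

/-- hypotheses of Case W -/
structure HypW (A D : ℕ → Bool) (f M : ℕ → ℕ) : Prop where
  fmono : StrictMono f
  F3 : Dom f
  AD : RC (orc D) A
  fD : RC (orc D) f
  An : ¬ Computable A
  W1 : ∀ k i (r : List Bool), i ≤ k → encode r ≤ k → ¬ NoSp i r → (sp i r (M k)).isSome = true
  W2 : ∀ k j x, j ≤ k → x ≤ k → (eval (Denumerable.ofNat Code j) x).Dom →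
    (evaln (M k) (Denumerable.ofNat Code j) x).isSome = true
  W3 : ∀ k i (r : List Bool), i ≤ k → encode r ≤ k →
    ∃ j, j ≤ M k ∧ eval (Denumerable.ofNat Code j) = PR i r
  W4 : ∀ k i (r : List Bool), i ≤ k → encode r ≤ k → (∃ n, ¬ (PR i r n).Dom) →
    ∃ n, n ≤ M k ∧ ¬ (PR i r n).Dom
  blocks : ∀ N, ∃ u, N ≤ u ∧ Block M f 60 u
  weak : ∀ g : ℕ → ℕ, RC (orc A) g → ∃ N, ∀ u, N ≤ u → Block M f 60 u →
    ∀ s, u ≤ s → s + 6 ≤ u + 60 → g (f s) < f (s + 6)

section W

variable {A D : ℕ → Bool} {f M : ℕ → ℕ}

theorem alive_iff {j r : ℕ} : alive A f j r = true ↔ ∀ x, x ≤ f r →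
    evaln (f (r + 1)) (Denumerable.ofNat Code j) x = some (A x).toNat := by
  unfold alive
  rw [List.all_eq_true]
  constructor
  · intro h x hx
    exact deqb_iff.1 (h x (List.mem_range.2 (by omega)))
  · intro h x hx
    exact deqb_iff.2 (h x (by have := List.mem_range.1 hx; omega))

theorem refd_iff {j T : ℕ} : refd A j T = true ↔ ∃ x w, x ≤ T ∧
    evaln T (Denumerable.ofNat Code j) x = some w ∧ w ≠ (A x).toNat := by
  unfold refd
  rw [List.any_eq_true]
  constructor
  · rintro ⟨x, hx, h⟩
    cases hw : evaln T (Denumerable.ofNat Code j) x with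
    | none => rw [hw] at h; simp at h
    | some w =>
      rw [hw] at h
      exact ⟨x, w, by have := List.mem_range.1 hx; omega, hw, by simpa using h⟩
  · rintro ⟨x, w, hx, hw, hne⟩
    exact ⟨x, List.mem_range.2 (by omega), by rw [hw]; simpa using hne⟩

theorem HypW.ctx (H : HypW A D f M) : Ctx A f := by
  constructor
  · rintro ⟨j, s⟩
    by_contra hcon
    push Not at hcon
    have h1 : ∀ r, s + 2 ≤ r → alive A f j r = true := by
      intro r hr
      by_contra hc
      exact hcon r (by simp [hr, hc])
    apply H.An
    have h2 : ∀ x, (A x).toNat ∈ eval (Denumerable.ofNat Code j) x := by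
      intro x
      have h3 := alive_iff.1 (h1 (s + 2 + x) (by omega)) x (by
        have := H.fmono.le_apply (x := s + 2 + x)
        omega)
      exact evaln_sound (Option.mem_def.2 h3)
    have h3 : Nat.Partrec (fun x => ((nat A x : ℕ) : Part ℕ)) := by
      refine Code.exists_code.2 ⟨Denumerable.ofNat Code j, ?_⟩
      funext x
      exact Part.eq_some_iff.2 (h2 x)
    have h4 : Computable (nat A) := Partrec.nat_iff.2 h3
    have h5 : RC ∅ (nat A) := Rc.of_computable h4
    exact (RC.nat_iff.1 h5).computable
  · rintro ⟨a, s⟩
    refine ⟨max (s + 1) (encode a), ?_⟩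
    simp only [Bool.and_eq_true, leb_iff]
    exact ⟨le_max_left _ _, le_trans (le_max_right _ _) H.fmono.le_apply⟩

theorem fna_spec (C : Ctx A f) (j s : ℕ) : s + 2 ≤ fna C j s ∧ alive A f j (fna C j s) = false ∧
    ∀ r, s + 2 ≤ r → r < fna C j s → alive A f j r = true := by
  have h1 : (leb (s + 2) (fna C j s) && !(alive A f j (fna C j s))) = true :=
    Nat.find_spec (C.na (j, s))
  simp only [Bool.and_eq_true, leb_iff, Bool.not_eq_true'] at h1
  refine ⟨h1.1, h1.2, fun r hr1 hr2 => ?_⟩
  by_contra hc
  exact Nat.find_min (C.na (j, s)) hr2 (by simp [hr1, hc])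

theorem nxs_spec (C : Ctx A f) (a : List Bool) (s : ℕ) : s < nxs C a s ∧
    encode a ≤ f (nxs C a s) ∧ ∀ s', s < s' → encode a ≤ f s' → nxs C a s ≤ s' := by
  have h1 : (leb (s + 1) (nxs C a s) && leb (encode a) (f (nxs C a s))) = true :=
    Nat.find_spec (C.fx (a, s))
  simp only [Bool.and_eq_true, leb_iff] at h1
  refine ⟨h1.1, h1.2, fun s' hs1 hs2 => ?_⟩
  refine Nat.find_min' (C.fx (a, s)) ?_
  simp only [Bool.and_eq_true, leb_iff]
  exact ⟨hs1, hs2⟩

theorem TT_spec (hf : StrictMono f) (C : Ctx A f) {j s : ℕ} (h : evt C j s = true) :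
    refd A j (TT C j s) = true ∧ (∀ T', T' < TT C j s → refd A j T' = false) ∧
      f (s + 12) < TT C j s := by
  unfold evt at h
  simp only [Bool.and_eq_true, decide_eq_true_eq] at h
  obtain ⟨h1, h2⟩ := h
  obtain ⟨-, -, hal⟩ := fna_spec C j s
  unfold TT
  cases hb : bmin (f (fna C j s + 1) + 1) (refd A j) with
  | none =>
    exfalso
    have := bmin_none.1 hb (f (fna C j s + 1)) (by omega)
    rw [h2] at this
    exact absurd this (by simp)
  | some T =>
    obtain ⟨h3, h4, h5⟩ := bmin_some.1 hb
    simp only [Option.getD_some]
    refine ⟨h4, h5, ?_⟩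
    by_contra hcon
    obtain ⟨x, w, hx, hw, hne⟩ := refd_iff.1 h4
    have h6 := alive_iff.1 (hal (s + 12) (by omega) (by omega)) x (by omega)
    have h7 : f (s + 12) ≤ f (s + 12 + 1) := hf.monotone (by omega)
    have h8 := evaln_mono (k₁ := T) (k₂ := f (s + 12 + 1)) (by omega) (Option.mem_def.2 hw)
    rw [Option.mem_def, h6] at h8
    exact hne (Option.some.inj h8).symm

theorem evj_some (C : Ctx A f) {j s : ℕ} (h : evj C s = some j) :
    j ≤ f (s + 2) ∧ evt C j s = true := by
  obtain ⟨h1, h2, -⟩ := bmin_some.1 h
  exact ⟨by omega, h2⟩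

theorem pick_mem (i : ℕ) (p : List Bool × List Bool) (wo : Option ℕ) :
    pick i p wo = p.1 ∨ pick i p wo = p.2 := by
  unfold pick
  cases deqb (th i p.1 (wit i p.1 p.2)) wo <;> simp

theorem resW_val (hf : StrictMono f) (C : Ctx A f) (m : ℕ) (a : List Bool) (s : ℕ) (d : List ℕ)
    (b : Bool) : Val A a b (resW C m a s d b).1 := by
  unfold resW
  cases he : evj C s with
  | none =>
    simp only [Option.elim_none]
    cases hb : bmin (m + 1) (reqZ A f a s d) with
    | none => exact Val.nul
    | some q =>
      simp only [Option.elim_some]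
      unfold actZ
      cases hw : (w1 A f a s q).isSome with
      | true =>
        rw [cond_true]
        cases hp : p1 A f a s q with
        | none => exact Val.nul
        | some p =>
          simp only [Option.elim_some]
          unfold p1 at hp
          rw [Option.bind_eq_some_iff] at hp
          obtain ⟨n, -, hn⟩ := hp
          exact Val.zt q n _ p hn _ (pick_mem _ _ _)
      | false =>
        rw [cond_false]
        cases hn : n2 A f a s q with
        | none => exact Val.nul
        | some n => exact Val.zf q n
  | some j =>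
    simp only [Option.elim_some]
    obtain ⟨h1, h2, -⟩ := TT_spec hf C (evj_some C he).2
    cases hb : bmin (m + 1) (reqY C a s d j) with
    | none => exact Val.nul
    | some q =>
      simp only [Option.elim_some]
      unfold actY
      cases hs : sp q.unpair.1 (hd a (hY j q)) (TT C j s) with
      | none => exact Val.ynone j q _ h1 h2 hs
      | some p => exact Val.ysome j q _ h1 h2 p hs _ (pick_mem _ _ _)

/-- `q` is diagonalised -/
def Diag (A : ℕ → Bool) (q : ℕ) (a : List Bool) : Prop :=
  ∃ y n v w, th q.unpair.1 a y = some v ∧ th q.unpair.2 (pre A n) y = some w ∧ v ≠ w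

theorem Diag.mono {q : ℕ} {a b : List Bool} (h : Diag A q a) (hab : a <+: b) : Diag A q b := by
  obtain ⟨y, n, v, w, h1, h2, h3⟩ := h
  exact ⟨y, n, v, w, th_mono hab h1, h2, h3⟩

theorem pick_diag {q n t w : ℕ} {r : List Bool} {p : List Bool × List Bool}
    (hsp : sp q.unpair.1 r t = some p) (hw : thA A q.unpair.2 n q.unpair.1 p = some w) :
    Diag A q (pick q.unpair.1 p (some w)) := by
  obtain ⟨-, -, h3, -⟩ := sp_some hsp
  obtain ⟨v0, v1, e0, e1, hne⟩ := wit_spec h3
  unfold thA at hw
  unfold pick
  cases hd : deqb (th q.unpair.1 p.1 (wit q.unpair.1 p.1 p.2)) (some w) with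
  | true =>
    rw [deqb_iff] at hd
    rw [e0] at hd
    have : v0 = w := Option.some.inj hd
    subst this
    exact ⟨_, n, v1, v0, e1, hw, hne.symm⟩
  | false =>
    rw [deqb_false] at hd
    refine ⟨_, n, v0, w, e0, hw, ?_⟩
    intro h
    exact hd (by rw [e0, h])

theorem memb_iff {q : ℕ} {l : List ℕ} : memb q l = true ↔ q ∈ l := by
  unfold memb
  rw [List.any_eq_true]
  constructor
  · rintro ⟨x, hx, h⟩
    have : x = q := by simpa using h
    subst this; exact hx
  · intro h; exact ⟨q, h, by simp⟩

theorem val_pre {a r : List Bool} {b : Bool} (h : Val A a b r) : a <+: r := by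
  obtain ⟨c, hc, hac⟩ := h.last
  rw [hc]; exact hac.trans (List.prefix_append _ _)

theorem val_len {a r : List Bool} {b : Bool} (h : Val A a b r) : a.length < r.length := by
  obtain ⟨c, hc, hac⟩ := h.last
  have := hac.length_le
  rw [hc]; simp; omega

theorem resW_diag (hf : StrictMono f) (C : Ctx A f) (m : ℕ) (a : List Bool) (s : ℕ) (d : List ℕ)
    (b : Bool) (hdg : ∀ q, q ∈ d → Diag A q a) :
    ∀ q, q ∈ (resW C m a s d b).2 → Diag A q (resW C m a s d b).1 := by
  have hpre := val_pre (resW_val hf C m a s d b)
  have hold : ∀ q, q ∈ d → Diag A q (resW C m a s d b).1 := fun q hq => (hdg q hq).mono hpre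
  clear hpre
  revert hold
  unfold resW
  cases he : evj C s with
  | none =>
    simp only [Option.elim_none]
    cases hb : bmin (m + 1) (reqZ A f a s d) with
    | none => intro hold; exact hold
    | some q =>
      simp only [Option.elim_some]
      unfold actZ
      cases hw : (w1 A f a s q).isSome with
      | true =>
        rw [cond_true]
        cases hp : p1 A f a s q with
        | none => intro hold; exact hold
        | some p =>
          simp only [Option.elim_some]
          intro hold q' hq'
          rcases List.mem_cons.1 hq' with h | h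
          · subst h
            obtain ⟨w, hw'⟩ := Option.isSome_iff_exists.1 hw
            rw [hw']
            unfold w1 at hw'
            rw [hp, Option.bind_some] at hw'
            unfold p1 at hp
            rw [Option.bind_eq_some_iff] at hp
            obtain ⟨n, -, hn⟩ := hp
            exact (pick_diag hn hw').mono (List.prefix_append _ _)
          · exact hold q' h
      | false =>
        rw [cond_false]
        cases hn : n2 A f a s q with
        | none => intro hold; exact hold
        | some n => intro hold; exact hold
  | some j =>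
    simp only [Option.elim_some]
    cases hb : bmin (m + 1) (reqY C a s d j) with
    | none => intro hold; exact hold
    | some q =>
      simp only [Option.elim_some]
      unfold actY
      cases hs : sp q.unpair.1 (hd a (hY j q)) (TT C j s) with
      | none => intro hold; exact hold
      | some p =>
        simp only [Option.elim_some]
        cases hw : thA A q.unpair.2 (f (s + 12)) q.unpair.1 p with
        | none => intro hold; exact hold
        | some w =>
          simp only [Option.isSome_some, cond_true]
          intro hold q' hq'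
          rcases List.mem_cons.1 hq' with h | h
          · subst h
            exact (pick_diag hs hw).mono (List.prefix_append _ _)
          · exact hold q' h

/-- length bound -/
def HB (k : ℕ) : ℕ := 2 * k + Nat.pair (k + 1) k + 10

theorem HB_mono {k k' : ℕ} (h : k ≤ k') : HB k ≤ HB k' := by
  unfold HB
  have := pair_le_pair' (show k + 1 ≤ k' + 1 by omega) h
  omega

theorem len_hdY {a : List Bool} {j q k : ℕ} (ha : a.length ≤ k) (hj : j ≤ k) (hq : q ≤ k) :
    (hd a (hY j q)).length + 1 ≤ HB k := by
  rw [hd_length]
  unfold hY HB
  have := pair_le_pair' (show j + 1 ≤ k + 1 by omega) hq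
  omega

theorem len_Nz {a : List Bool} {q n k : ℕ} {z : Bool} (ha : a.length ≤ k) (hq : q ≤ k)
    (hn : n < k + 3) : (Nz A a q n z).length + 1 ≤ HB k := by
  rw [Nz_length, hd_length]
  unfold hZ HB
  have := pair_le_pair' (show 0 ≤ k + 1 by omega) hq
  omega

theorem len_hdZ {a : List Bool} {q k : ℕ} (ha : a.length ≤ k) (hq : q ≤ k) :
    (hd a (hZ q)).length + 1 ≤ HB k := by
  rw [hd_length]
  unfold hZ HB
  have := pair_le_pair' (show 0 ≤ k + 1 by omega) hq
  omega

theorem reqY_spec (C : Ctx A f) {a : List Bool} {s : ℕ} {d : List ℕ} {j q : ℕ}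
    (h : reqY C a s d j q = true) : q ∉ d ∧ (sp q.unpair.1 a (f (s + 4))).isSome = true ∧
      (sp q.unpair.1 (hd a (hY j q)) (TT C j s) = none ∨
        ∃ p w, sp q.unpair.1 (hd a (hY j q)) (f (s + 4)) = some p ∧
          thA A q.unpair.2 (f (s + 12)) q.unpair.1 p = some w) := by
  unfold reqY at h
  simp only [Bool.and_eq_true, Bool.not_eq_true', Bool.or_eq_true] at h
  obtain ⟨h1, h2, h3⟩ := h
  refine ⟨?_, h2, ?_⟩
  · intro hq
    rw [memb_iff.2 hq] at h1
    exact absurd h1 (by simp)
  · rcases h3 with h3 | h3
    · left
      cases h4 : sp q.unpair.1 (hd a (hY j q)) (TT C j s) with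
      | none => rfl
      | some p => rw [h4] at h3; simp at h3
    · right
      cases h4 : sp q.unpair.1 (hd a (hY j q)) (f (s + 4)) with
      | none => rw [h4] at h3; simp at h3
      | some p =>
        rw [h4, Option.elim_some] at h3
        obtain ⟨w, hw⟩ := Option.isSome_iff_exists.1 h3
        exact ⟨p, w, rfl, hw⟩

theorem resW_len (hf : StrictMono f) (C : Ctx A f) {m : ℕ} {a : List Bool} {s : ℕ} {d : List ℕ}
    {b : Bool} (ha : encode a ≤ f s) (hm : m ≤ s) :
    (resW C m a s d b).1.length ≤ HB (f (s + 16)) := by
  have hla : a.length ≤ f (s + 16) := by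
    have := length_le_enc a
    have : f s ≤ f (s + 16) := hf.monotone (by omega)
    omega
  have hmf : m ≤ f (s + 16) := by
    have : s + 16 ≤ f (s + 16) := hf.le_apply
    omega
  have h12 : f (s + 12) ≤ f (s + 16) := hf.monotone (by omega)
  have h2 : f (s + 2) ≤ f (s + 16) := hf.monotone (by omega)
  have h4 : f (s + 4) ≤ f (s + 12) := hf.monotone (by omega)
  have hnul : (nul a d b).1.length ≤ HB (f (s + 16)) := by
    unfold nul HB
    simp only [List.length_append, hd_length, List.length_cons, List.length_nil]
    omega
  have hself : ∀ k, k + 1 ≤ HB k := fun k => by unfold HB; omega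
  unfold resW
  cases he : evj C s with
  | none =>
    simp only [Option.elim_none]
    cases hb : bmin (m + 1) (reqZ A f a s d) with
    | none => exact hnul
    | some q =>
      have hq : q ≤ f (s + 16) := by have := (bmin_some.1 hb).1; omega
      simp only [Option.elim_some]
      unfold actZ
      cases hw : (w1 A f a s q).isSome with
      | true =>
        rw [cond_true]
        cases hp : p1 A f a s q with
        | none => exact hnul
        | some p =>
          simp only [Option.elim_some]
          unfold p1 at hp
          rw [Option.bind_eq_some_iff] at hp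
          obtain ⟨n, -, hn⟩ := hp
          obtain ⟨-, -, -, e1, e2⟩ := sp_some hn
          have l1 := length_le_enc p.1
          have l2 := length_le_enc p.2
          have hs := hself (f (s + 16))
          rcases pick_mem q.unpair.1 p (w1 A f a s q) with h | h
          · rw [h]; simp only [List.length_append, List.length_cons, List.length_nil]; omega
          · rw [h]; simp only [List.length_append, List.length_cons, List.length_nil]; omega
      | false =>
        rw [cond_false]
        cases hn : n2 A f a s q with
        | none => exact hnul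
        | some n =>
          have hn' := (bmin_some.1 hn).1
          simp only [Option.elim_some, List.length_append, List.length_cons, List.length_nil]
          exact len_Nz hla hq (by omega)
  | some j =>
    obtain ⟨hj, hev⟩ := evj_some C he
    obtain ⟨-, -, hTT⟩ := TT_spec hf C hev
    simp only [Option.elim_some]
    cases hb : bmin (m + 1) (reqY C a s d j) with
    | none => exact hnul
    | some q =>
      have hq : q ≤ f (s + 16) := by have := (bmin_some.1 hb).1; omega
      have hreq := (bmin_some.1 hb).2.1
      simp only [Option.elim_some]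
      unfold actY
      cases hs : sp q.unpair.1 (hd a (hY j q)) (TT C j s) with
      | none =>
        simp only [Option.elim_none, List.length_append, List.length_cons, List.length_nil]
        exact len_hdY hla (by omega) hq
      | some p =>
        obtain ⟨-, -, h3⟩ := reqY_spec C hreq
        rcases h3 with h3 | ⟨p', w, h3, -⟩
        · rw [hs] at h3; exact absurd h3 (by simp)
        · have h5 := sp_mono h3 (t' := TT C j s) (by omega)
          rw [hs] at h5
          have : p = p' := Option.some.inj h5
          subst this
          obtain ⟨-, -, -, e1, e2⟩ := sp_some h3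
          have l1 := length_le_enc p.1
          have l2 := length_le_enc p.2
          have hs' := hself (f (s + 16))
          simp only [Option.elim_some]
          rcases pick_mem q.unpair.1 p (thA A q.unpair.2 (f (s + 12)) q.unpair.1 p) with h | h
          · rw [h]; simp only [List.length_append, List.length_cons, List.length_nil]; omega
          · rw [h]; simp only [List.length_append, List.length_cons, List.length_nil]; omega

end W

end Pool.Agent.H69
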