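import Pool.Agent.H69.CaseW2

/-!
# Case W: the verification
-/

set_option autoImplicit false

namespace Pool.Agent.H69

open Encodable
open Nat.Partrec (Code)
open Nat.Partrec.Code (evaln eval evaln_mono evaln_sound evaln_complete)

theorem HB_rc : RC ∅ (fun k => EE (HB k)) := by
  have h1 : RC ∅ EE := RC.EE
  have h2 : RC ∅ HB := by
    unfold HB
    fun_prop
  fun_prop

theorem HB_comp : Computable (fun k => EE (HB k)) := HB_rc.computable

namespace HypW

variable {A D : ℕ → Bool} {f M : ℕ → ℕ} (H : HypW A D f M)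

/-- node -/
noncomputable def sW (m : ℕ) : List Bool := (stW H.ctx D m).1
/-- pointer -/
noncomputable def pW (m : ℕ) : ℕ := (stW H.ctx D m).2.1
/-- done -/
noncomputable def dW (m : ℕ) : List ℕ := (stW H.ctx D m).2.2
/-- result -/
noncomputable def rW (m : ℕ) : List Bool × List ℕ :=
  resW H.ctx m (H.sW m) (H.pW m) (H.dW m) (D m)

theorem sW_succ (m : ℕ) : H.sW (m + 1) = (H.rW m).1 := rfl
theorem dW_succ (m : ℕ) : H.dW (m + 1) = (H.rW m).2 := rfl
theorem pW_succ (m : ℕ) : H.pW (m + 1) = nxs H.ctx (H.sW (m + 1)) (H.pW m) := rfl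

theorem val_W (m : ℕ) : Val A (H.sW m) (D m) (H.sW (m + 1)) := by
  rw [sW_succ]
  exact resW_val H.fmono H.ctx m _ _ _ _

theorem sW_pre (m : ℕ) : H.sW m <+: H.sW (m + 1) := val_pre (H.val_W m)

theorem sW_pre' {m n : ℕ} (h : m ≤ n) : H.sW m <+: H.sW n := lim_pre H.sW_pre h

theorem sW_len (m : ℕ) : m ≤ (H.sW m).length := by
  induction m with
  | zero => omega
  | succ m ih =>
    have := val_len (H.val_W m)
    omega

theorem sW_unb (x : ℕ) : ∃ n, decide (x < (H.sW n).length) = true :=
  ⟨x + 1, by have := H.sW_len (x + 1); simp only [decide_eq_true_eq]; omega⟩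

/-- the complement -/
noncomputable def B : ℕ → Bool := lim H.sW H.sW_unb

theorem seg (m : ℕ) : Seg H.B (H.sW m) := lim_seg H.sW_pre H.sW_unb m

theorem rc_B : RC (orc D) H.B := by
  have h1 : RC (orc D) (stW H.ctx D) := RC.stW H.AD H.fD (RC.real D)
  have h2 : RC (orc D) H.sW := by
    unfold sW
    fun_prop
  exact RC.lim _ h2

theorem decode_D {O : Set (ℕ →. ℕ)} (hA : RC O A) (hB : RC O H.B) : RC O D := by
  have h1 : RC O H.sW := by
    refine rc_iterate (step := fun a t => dec A H.B a t) (by fun_prop) ?_ ?_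
    · intro m
      exact ((H.val_W m).decode (H.seg (m + 1))).2
    · intro m t v hv
      rcases ((H.val_W m).decode (H.seg (m + 1))).1 t with h | h
      · rw [h] at hv; exact absurd hv (by simp)
      · rw [h] at hv; exact (Option.some.inj hv).symm
  have h2 : RC O (fun m => H.B ((H.sW (m + 1)).length - 1)) := by fun_prop
  refine h2.of_eq fun m => ?_
  obtain ⟨c, hc, -⟩ := (H.val_W m).last
  have h3 := H.seg (m + 1)
  rw [hc] at h3 ⊢
  have h4 := h3.last
  simpa using h4

theorem enc_sW (m : ℕ) : encode (H.sW m) ≤ f (H.pW m) := by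
  cases m with
  | zero =>
    have : H.sW 0 = [] := rfl
    rw [this]; simp
  | succ m =>
    rw [pW_succ]
    exact (nxs_spec H.ctx (H.sW (m + 1)) (H.pW m)).2.1

theorem pW_lt (m : ℕ) : H.pW m < H.pW (m + 1) := by
  rw [pW_succ]
  exact (nxs_spec H.ctx (H.sW (m + 1)) (H.pW m)).1

theorem le_pW (m : ℕ) : m ≤ H.pW m := by
  induction m with
  | zero => omega
  | succ m ih => have := H.pW_lt m; omega

theorem diag_W (m : ℕ) : ∀ q, q ∈ H.dW m → Diag A q (H.sW m) := by
  induction m with
  | zero =>
    intro q hq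
    have : H.dW 0 = [] := rfl
    rw [this] at hq
    simp at hq
  | succ m ih =>
    rw [dW_succ, sW_succ]
    exact resW_diag H.fmono H.ctx m _ _ _ _ ih

theorem dW_mono (m : ℕ) : ∀ q, q ∈ H.dW m → q ∈ H.dW (m + 1) := by
  intro q hq
  rw [dW_succ]
  unfold rW resW
  generalize H.dW m = d at *
  cases evj H.ctx (H.pW m) with
  | none =>
    simp only [Option.elim_none]
    cases bmin (m + 1) (reqZ A f (H.sW m) (H.pW m) d) with
    | none => exact hq
    | some q' =>
      simp only [Option.elim_some]
      unfold actZ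
      cases (w1 A f (H.sW m) (H.pW m) q').isSome with
      | true =>
        rw [cond_true]
        cases p1 A f (H.sW m) (H.pW m) q' with
        | none => exact hq
        | some p => exact List.mem_cons_of_mem _ hq
      | false =>
        rw [cond_false]
        cases n2 A f (H.sW m) (H.pW m) q' with
        | none => exact hq
        | some n => exact hq
  | some j =>
    simp only [Option.elim_some]
    cases bmin (m + 1) (reqY H.ctx (H.sW m) (H.pW m) d j) with
    | none => exact hq
    | some q' =>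
      simp only [Option.elim_some]
      unfold actY
      cases sp q'.unpair.1 (hd (H.sW m) (hY j q')) (TT H.ctx j (H.pW m)) with
      | none => exact hq
      | some p =>
        simp only [Option.elim_some]
        cases (thA A q'.unpair.2 (f (H.pW m + 12)) q'.unpair.1 p).isSome with
        | true => exact List.mem_cons_of_mem _ hq
        | false => exact hq

/-! ### late stages -/

include H in
theorem late : ∃ N, ∀ s, N ≤ s → EE (HB (f s)) ≤ f (s + 1) := by
  obtain ⟨N, hN⟩ := H.F3 (fun k => EE (HB k)) HB_comp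
  exact ⟨N, hN⟩

theorem pointer : ∃ N, ∀ m, N ≤ m → H.pW (m + 1) ≤ H.pW m + 17 := by
  obtain ⟨N, hN⟩ := H.late
  refine ⟨N, fun m hm => ?_⟩
  have h1 := H.le_pW m
  rw [pW_succ]
  refine (nxs_spec H.ctx (H.sW (m + 1)) (H.pW m)).2.2 _ (by omega) ?_
  have h2 := resW_len H.fmono H.ctx (m := m) (d := H.dW m) (b := D m) (H.enc_sW m) h1
  exact le_trans (enc_le_EE' h2) (hN (H.pW m + 16) (by omega))

/-- a stage in a block, beyond `N` -/
structure Qual (H : HypW A D f M) (N m u : ℕ) : Prop where
  hN : N ≤ u
  hm : N ≤ m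
  blk : Block M f 60 u
  lo : u ≤ H.pW m
  hi : H.pW m ≤ u + 17
  late : ∀ s, u ≤ s → EE (HB (f s)) ≤ f (s + 1)

theorem quality (N : ℕ) : ∃ m u, Qual H N m u := by
  obtain ⟨N0, h0⟩ := H.pointer
  obtain ⟨N1, h1⟩ := H.late
  obtain ⟨u, hu, hb⟩ := H.blocks (max (max N N1) (max (H.pW N0 + 1) (H.pW N + 1)))
  have hex : ∃ m, u ≤ H.pW m := ⟨u, H.le_pW u⟩
  have hmono : Monotone H.pW := monotone_nat_of_le_succ fun n => (H.pW_lt n).le
  have h2 := Nat.find_spec hex
  have h3 : N0 < Nat.find hex := by
    by_contra hcon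
    have := hmono (not_lt.1 hcon)
    omega
  have h4 : N < Nat.find hex := by
    by_contra hcon
    have := hmono (not_lt.1 hcon)
    omega
  have h5 : ¬ u ≤ H.pW (Nat.find hex - 1) := Nat.find_min hex (by omega)
  have h6 := h0 (Nat.find hex - 1) (by omega)
  have h7 : Nat.find hex - 1 + 1 = Nat.find hex := by omega
  rw [h7] at h6
  exact ⟨Nat.find hex, u, by omega, by omega, hb, h2, by omega,
    fun s hs => h1 s (by omega)⟩

section qual

variable {H} {N m u : ℕ} (Q : Qual H N m u)
include Q

theorem Qual.mm {r : ℕ} (h1 : H.pW m ≤ r) (h2 : r ≤ H.pW m + 42) : M (f r) ≤ f (r + 1) := by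
  have := Q.lo
  have := Q.hi
  exact Q.blk.1 r (by omega) (by omega)

omit Q in
theorem Qual.ff0 {a b : ℕ} (H : HypW A D f M) (h : a ≤ b) : f a ≤ f b := H.fmono.monotone h

theorem Qual.ff {a b : ℕ} (h : a ≤ b) : f a ≤ f b := H.fmono.monotone h

/-- a splitting above a node of small code is found -/
theorem Qual.truth {r t : ℕ} {i : ℕ} {a : List Bool} (h1 : H.pW m ≤ r) (h2 : r ≤ H.pW m + 42)
    (hi : i ≤ f r) (ha : encode a ≤ f r) (ht : f (r + 1) ≤ t) (hn : sp i a t = none) :
    NoSp i a := by
  by_contra hcon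
  have h3 := H.W1 (f r) i a hi ha hcon
  have h4 := Q.mm h1 h2
  have h5 := sp_isSome_mono h3 (t' := t) (by omega)
  rw [hn] at h5
  simp at h5

theorem Qual.qle {q : ℕ} (hq : q ≤ m) : q ≤ f (H.pW m) := by
  have h1 := H.le_pW m
  have h2 := H.fmono.le_apply (x := H.pW m)
  omega

theorem Qual.ile {q r : ℕ} (hq : q ≤ m) (hr : H.pW m ≤ r) : q.unpair.1 ≤ f r := by
  have h1 := Nat.unpair_left_le q
  have h2 := Q.qle hq
  have h3 := Q.ff hr
  omega

theorem Qual.len {r : ℕ} (hr : H.pW m ≤ r) : (H.sW m).length ≤ f r := by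
  have h1 := H.enc_sW m
  have h2 := length_le_enc (H.sW m)
  have h3 := Q.ff hr
  omega

theorem Qual.encN {q n r : ℕ} {z : Bool} (hq : q ≤ m) (hr : H.pW m ≤ r) (hn : n < f r + 3) :
    encode (Nz A (H.sW m) q n z) ≤ f (r + 1) := by
  have h1 := Q.qle hq
  have h2 := Q.ff hr
  have h3 := Q.len hr
  have h4 := len_Nz (A := A) (z := z) h3 (show q ≤ f r by omega) hn
  have h5 := Q.late r (by have := Q.lo; omega)
  exact le_trans (enc_le_EE' (n := HB (f r)) (by omega)) h5

theorem Qual.encZ {q r : ℕ} (hq : q ≤ m) (hr : H.pW m ≤ r) :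
    encode (hd (H.sW m) (hZ q)) ≤ f (r + 1) := by
  have h1 := Q.qle hq
  have h2 := Q.ff hr
  have h3 := Q.len hr
  have h4 := len_hdZ h3 (show q ≤ f r by omega)
  have h5 := Q.late r (by have := Q.lo; omega)
  exact le_trans (enc_le_EE' (n := HB (f r)) (by omega)) h5

theorem Qual.encY {j q r : ℕ} (hq : q ≤ m) (hr : H.pW m ≤ r) (hj : j ≤ f r) :
    encode (hd (H.sW m) (hY j q)) ≤ f (r + 1) := by
  have h1 := Q.qle hq
  have h2 := Q.ff hr
  have h3 := Q.len hr
  have h4 := len_hdY h3 hj (show q ≤ f r by omega)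
  have h5 := Q.late r (by have := Q.lo; omega)
  exact le_trans (enc_le_EE' (n := HB (f r)) (by omega)) h5

/-- an index of a total function agreeing with `A` gives an event -/
theorem Qual.event {j : ℕ} (hj : j ≤ f (H.pW m + 2))
    (htot : ∀ x, (eval (Denumerable.ofNat Code j) x).Dom)
    (hA : ∀ x, x ≤ f (H.pW m + 12) → (A x).toNat ∈ eval (Denumerable.ofNat Code j) x) :
    evt H.ctx j (H.pW m) = true := by
  set s := H.pW m with hs
  have hlo := Q.lo
  have hhi := Q.hi
  obtain ⟨g1, g2, g3⟩ := fna_spec H.ctx j s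
  -- convergence
  have hconv : ∀ r, s + 2 ≤ r → ∀ x, x ≤ f r →
      (evaln (f (r + 1)) (Denumerable.ofNat Code j) x).isSome = true := by
    intro r hr x hx
    by_cases hru : r < u + 60
    · have h1 : j ≤ f r := le_trans hj (Q.ff (by omega))
      have h2 := H.W2 (f r) j x h1 hx (htot x)
      have h3 := Q.blk.1 r (by omega) hru
      obtain ⟨v, hv⟩ := Option.isSome_iff_exists.1 h2
      have h4 := evaln_mono h3 (Option.mem_def.2 hv)
      rw [Option.mem_def.1 h4]; rfl
    · exact Q.blk.2 j (le_trans hj (Q.ff (by omega))) htot r (by omega) x hx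
  have hal : ∀ r, s + 2 ≤ r → r ≤ s + 12 → alive A f j r = true := by
    intro r hr1 hr2
    rw [alive_iff]
    intro x hx
    obtain ⟨v, hv⟩ := Option.isSome_iff_exists.1 (hconv r hr1 x hx)
    have h1 := evaln_sound (Option.mem_def.2 hv)
    have h2 := hA x (le_trans hx (Q.ff hr2))
    rw [hv, Part.mem_unique h1 h2]
  have h13 : s + 13 ≤ fna H.ctx j s := by
    by_contra hcon
    rw [hal _ g1 (by omega)] at g2
    exact absurd g2 (by simp)
  unfold evt
  simp only [Bool.and_eq_true, decide_eq_true_eq]
  refine ⟨h13, ?_⟩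
  have h1 : ∃ x, x ≤ f (fna H.ctx j s) ∧ evaln (f (fna H.ctx j s + 1))
      (Denumerable.ofNat Code j) x ≠ some (A x).toNat := by
    by_contra hcon
    push Not at hcon
    rw [alive_iff.2 hcon] at g2
    exact absurd g2 (by simp)
  obtain ⟨x, hx, hne⟩ := h1
  obtain ⟨v, hv⟩ := Option.isSome_iff_exists.1 (hconv _ g1 x hx)
  rw [refd_iff]
  refine ⟨x, v, le_trans hx (Q.ff (by omega)), hv, ?_⟩
  intro hv'
  rw [hv, hv'] at hne
  exact hne rfl

/-- when there is no event one of the two searches of a Z-action succeeds -/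
theorem Qual.zgood {q : ℕ} (hq : q ≤ m) (hno : evj H.ctx (H.pW m) = none) :
    (n1 A f (H.sW m) (H.pW m) q).isSome = true ∨ (n2 A f (H.sW m) (H.pW m) q).isSome = true := by
  by_contra hcon
  push Not at hcon
  obtain ⟨hn1, hn2⟩ := hcon
  have hn1' : n1 A f (H.sW m) (H.pW m) q = none := by simpa using hn1
  have hn2' : n2 A f (H.sW m) (H.pW m) q = none := by simpa using hn2
  set s := H.pW m with hs
  set i := q.unpair.1 with hi
  have hnosp : ∀ n, n < f (s + 12) + 3 → NoSp i (Nz A (H.sW m) q n true) := by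
    intro n hn
    have h1 := bmin_none.1 hn1' n hn
    have h2 : sp i (Nz A (H.sW m) q n true) (f (s + 16)) = none := by simpa using h1
    exact Q.truth (r := s + 13) (by omega) (by omega) (Q.ile hq (by omega))
      (Q.encN hq (by omega) hn) (Q.ff (by omega)) h2
  have hsp : ∀ n, n < f (s + 12) + 3 →
      (sp i (Nz A (H.sW m) q n false) (f (s + 16))).isSome = true := by
    intro n hn
    have h1 := bmin_none.1 hn2' n hn
    cases h2 : sp i (Nz A (H.sW m) q n false) (f (s + 16)) with
    | none =>
      have : (sp q.unpair.1 (Nz A (H.sW m) q n false) (f (s + 16))).isNone = true := by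
        rw [← hi, h2]; rfl
      rw [this] at h1
      exact absurd h1 (by simp)
    | some p => rfl
  have hdown : ∀ a b : List Bool, a <+: b → (∃ t, (sp i b t).isSome = true) →
      ∃ t, (sp i a t).isSome = true := by
    rintro a b hab ⟨t, ht⟩
    obtain ⟨p, hp⟩ := Option.isSome_iff_exists.1 ht
    obtain ⟨e1, e2, e3, -⟩ := sp_some hp
    exact exists_sp (hab.trans e1) (hab.trans e2) e3
  set r := hd (H.sW m) (hZ q) with hr
  have h1 : ∀ n, n ≤ f (s + 12) →
      ∃ t, (sp i (r ++ (pre A n ++ [A n, true])) t).isSome = true := by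
    intro n hn
    cases hA : A (n + 1) with
    | true =>
      refine hdown _ (Nz A (H.sW m) q (n + 2) false) ?_ ⟨_, hsp (n + 2) (by omega)⟩
      have e1 : pre A (n + 2) = pre A n ++ [A n, true] := by
        rw [show n + 2 = n + 1 + 1 by rfl, pre_succ, pre_succ, hA, List.append_assoc]; rfl
      unfold Nz
      rw [e1]
      exact (List.prefix_append_right_inj _).2 (List.prefix_append _ _)
    | false =>
      refine hdown _ (Nz A (H.sW m) q (n + 1) false) ?_ ⟨_, hsp (n + 1) (by omega)⟩
      unfold Nz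
      rw [pre_succ, hA]
      simp only [Bool.not_false, List.append_assoc]
      refine (List.prefix_append_right_inj _).2 ((List.prefix_append_right_inj _).2 ?_)
      exact ⟨[false], rfl⟩
  have h2 : ∀ n, n ≤ f (s + 12) → NoSp i (r ++ (pre A n ++ [!(A n), true])) := by
    intro n hn
    exact hnosp n (by omega)
  have hPR : ∀ x, x ≤ f (s + 12) → (A x).toNat ∈ PR i r x := fun x hx => PR_eq h1 h2 hx
  have hrenc : encode r ≤ f (s + 1) := Q.encZ hq (by omega)
  have hile : i ≤ f (s + 1) := Q.ile hq (by omega)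
  have hM1 : M (f (s + 1)) ≤ f (s + 2) := Q.mm (by omega) (by omega)
  have htot : ∀ n, (PR i r n).Dom := by
    by_contra hcon
    push Not at hcon
    obtain ⟨n, hn, hnd⟩ := H.W4 (f (s + 1)) i r hile hrenc hcon
    have h3 : f (s + 2) ≤ f (s + 12) := Q.ff (by omega)
    exact hnd (Part.dom_iff_mem.2 ⟨_, hPR n (by omega)⟩)
  obtain ⟨j, hj, hje⟩ := H.W3 (f (s + 1)) i r hile hrenc
  have hjs : j ≤ f (s + 2) := le_trans hj hM1
  have hev := Q.event (j := j) hjs (by rw [hje]; exact htot) (by rw [hje]; exact hPR)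
  have := bmin_none.1 hno j (by omega)
  rw [hev] at this
  exact absurd this (by simp)

/-- the acting requirement, if any, is settled at a quality stage -/
theorem Qual.acts {q : ℕ} (hq : (∃ j, evj H.ctx (H.pW m) = some j ∧
      bmin (m + 1) (reqY H.ctx (H.sW m) (H.pW m) (H.dW m) j) = some q) ∨
      (evj H.ctx (H.pW m) = none ∧
      bmin (m + 1) (reqZ A f (H.sW m) (H.pW m) (H.dW m)) = some q)) :
    (q ∈ H.dW (m + 1) ∨ NoSp q.unpair.1 (H.sW (m + 1))) ∧ q ∉ H.dW m ∧
      ¬ NoSp q.unpair.1 (H.sW m) := by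
  have hnot : ∀ t, (sp q.unpair.1 (H.sW m) t).isSome = true → ¬ NoSp q.unpair.1 (H.sW m) := by
    intro t ht hno
    rw [hno.sp_none t] at ht
    simp at ht
  rcases hq with ⟨j, hj, hb⟩ | ⟨hno, hb⟩
  · obtain ⟨hjf, hev⟩ := evj_some H.ctx hj
    obtain ⟨-, -, hTT⟩ := TT_spec H.fmono H.ctx hev
    have hqm : q ≤ m := by have := (bmin_some.1 hb).1; omega
    obtain ⟨k1, k2, k3⟩ := reqY_spec H.ctx (bmin_some.1 hb).2.1
    refine ⟨?_, k1, hnot _ k2⟩
    rw [dW_succ, sW_succ]
    unfold rW resW
    rw [hj]
    simp only [Option.elim_some]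
    rw [hb]
    simp only [Option.elim_some]
    unfold actY
    have h412 : f (H.pW m + 4) ≤ f (H.pW m + 12) := Q.ff (by omega)
    rcases k3 with k3 | ⟨p, w, k3, k4⟩
    · rw [k3]
      simp only [Option.elim_none]
      right
      have h1 : NoSp q.unpair.1 (hd (H.sW m) (hY j q)) :=
        Q.truth (r := H.pW m + 3) (by omega) (by omega) (Q.ile hqm (by omega))
          (Q.encY hqm (by omega) hjf) (t := TT H.ctx j (H.pW m)) (by
            have : f (H.pW m + 3 + 1) ≤ f (H.pW m + 12) := Q.ff (by omega)
            omega) k3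
      exact h1.mono (List.prefix_append _ _)
    · have h5 := sp_mono k3 (t' := TT H.ctx j (H.pW m)) (by omega)
      rw [h5]
      simp only [Option.elim_some, k4, Option.isSome_some, cond_true]
      left
      exact List.mem_cons_self
  · have hqm : q ≤ m := by have := (bmin_some.1 hb).1; omega
    have hreq := (bmin_some.1 hb).2.1
    unfold reqZ at hreq
    simp only [Bool.and_eq_true, Bool.not_eq_true', Bool.or_eq_true] at hreq
    obtain ⟨k1, k2, k3⟩ := hreq
    refine ⟨?_, ?_, hnot _ k2⟩
    · rw [dW_succ, sW_succ]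
      unfold rW resW
      rw [hno]
      simp only [Option.elim_none]
      rw [hb]
      simp only [Option.elim_some]
      unfold actZ
      cases hw : (w1 A f (H.sW m) (H.pW m) q).isSome with
      | true =>
        rw [cond_true]
        obtain ⟨w, hw'⟩ := Option.isSome_iff_exists.1 hw
        have hw2 := hw'
        unfold w1 at hw2
        rw [Option.bind_eq_some_iff] at hw2
        obtain ⟨p, hp, -⟩ := hw2
        rw [hp]
        simp only [Option.elim_some]
        left
        exact List.mem_cons_self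
      | false =>
        rw [cond_false]
        rw [hw] at k3
        simp only [Bool.false_eq_true, false_or] at k3
        obtain ⟨n, hn⟩ := Option.isSome_iff_exists.1 k3
        rw [hn]
        simp only [Option.elim_some]
        right
        obtain ⟨e1, e2, -⟩ := bmin_some.1 hn
        have e3 : sp q.unpair.1 (Nz A (H.sW m) q n false) (f (H.pW m + 16)) = none := by
          simpa using e2
        have h1 : NoSp q.unpair.1 (Nz A (H.sW m) q n false) :=
          Q.truth (r := H.pW m + 13) (by omega) (by omega) (Q.ile hqm (by omega))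
            (Q.encN hqm (by omega) e1) (Q.ff (by omega)) e3
        exact h1.mono (List.prefix_append _ _)
    · intro hq
      rw [memb_iff.2 hq] at k1
      exact absurd k1 (by simp)

end qual

/-- `q` is settled at stage `m` -/
def St (H : HypW A D f M) (q m : ℕ) : Prop := q ∈ H.dW m ∨ NoSp q.unpair.1 (H.sW m)

theorem St.mono {q m n : ℕ} (h : St H q m) (hmn : m ≤ n) : St H q n := by
  induction n with
  | zero =>
    have : m = 0 := by omega
    subst this; exact h
  | succ n ih =>
    rcases Nat.lt_or_eq_of_le hmn with h1 | h1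
    · rcases ih (by omega) with h2 | h2
      · exact Or.inl (H.dW_mono n q h2)
      · exact Or.inr (h2.mono (H.sW_pre n))
    · subst h1; exact h

/-- an unsettled requirement with total second functional requires attention at late quality
stages, so some requirement `≤ q` becomes settled -/
theorem progress {q : ℕ} {c : ℕ → ℕ} (hc : ∀ y, ∃ n, th q.unpair.2 (pre A n) y = some (c y))
    (hun : ∀ m, ¬ St H q m) (N0 : ℕ) :
    ∃ m q', N0 ≤ m ∧ q' ≤ q ∧ ¬ St H q' m ∧ St H q' (m + 1) := by
  -- the modulus of convergence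
  have hex : ∀ k, ∃ n, (List.range (k + 1)).all
      (fun y => (th q.unpair.2 (pre A n) y).isSome) = true := by
    intro k
    choose nn hnn using hc
    refine ⟨(Finset.range (k + 1)).sup nn, ?_⟩
    rw [List.all_eq_true]
    intro y hy
    have h1 : nn y ≤ (Finset.range (k + 1)).sup nn :=
      Finset.le_sup (f := nn) (Finset.mem_range.2 (List.mem_range.1 hy))
    rw [th_mono (pre_prefix A h1) (hnn y)]
    rfl
  have hA : RC (orc A) A := RC.real A
  have hg : RC (orc A) (fun k => Nat.find (hex k)) :=
    RC.find (P := fun k n => (List.range (k + 1)).all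
      (fun y => (th q.unpair.2 (pre A n) y).isSome)) (by fun_prop) hex
  obtain ⟨N1, hN1⟩ := H.weak _ hg
  obtain ⟨m, u, Q⟩ := H.quality (max (max N1 N0) q)
  have hmN := Q.hm
  have huN := Q.hN
  have hlo := Q.lo
  have hhi := Q.hi
  have hqm : q ≤ m := by omega
  have hun' := hun m
  unfold St at hun'
  push Not at hun'
  obtain ⟨hd1, hd2⟩ := hun'
  have hmemb : memb q (H.dW m) = false := by
    by_contra h
    exact hd1 (memb_iff.1 (by simpa using h))
  have hsp4 : (sp q.unpair.1 (H.sW m) (f (H.pW m + 4))).isSome = true := by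
    cases h : sp q.unpair.1 (H.sW m) (f (H.pW m + 4)) with
    | some p => rfl
    | none =>
      exact absurd (Q.truth (r := H.pW m) le_rfl (by omega) (Q.ile hqm le_rfl) (H.enc_sW m)
        (Q.ff (by omega)) h) hd2
  -- convergence of the second functional in time
  have hconv : ∀ a k : ℕ, u ≤ a → a + 6 ≤ u + 60 → f (a + 6) ≤ k → ∀ p : List Bool × List Bool,
      spl q.unpair.1 p.1 p.2 = true → encode p.1 ≤ f a →
      (thA A q.unpair.2 k q.unpair.1 p).isSome = true := by
    intro a k ha1 ha2 hk p hp he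
    have h1 := hN1 u (by omega) Q.blk a ha1 ha2
    have h2 := Nat.find_spec (hex (f a))
    rw [List.all_eq_true] at h2
    have h3 := wit_lt hp
    have h4 := length_le_enc p.1
    have h5 := h2 (wit q.unpair.1 p.1 p.2) (List.mem_range.2 (by omega))
    obtain ⟨v, hv⟩ := Option.isSome_iff_exists.1 h5
    unfold thA
    have h6 : Nat.find (hex (f a)) < f (a + 6) := h1
    rw [th_mono (pre_prefix A (show Nat.find (hex (f a)) ≤ k by omega)) hv]
    rfl
  -- find the acting requirement
  have hact : ∃ q', q' ≤ q ∧ ((∃ j, evj H.ctx (H.pW m) = some j ∧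
      bmin (m + 1) (reqY H.ctx (H.sW m) (H.pW m) (H.dW m) j) = some q') ∨
      (evj H.ctx (H.pW m) = none ∧
      bmin (m + 1) (reqZ A f (H.sW m) (H.pW m) (H.dW m)) = some q')) := by
    have hleast : ∀ P : ℕ → Bool, P q = true → ∃ q', q' ≤ q ∧ bmin (m + 1) P = some q' := by
      intro P hP
      cases hb : bmin (m + 1) P with
      | none =>
        rw [bmin_none.1 hb q (by omega)] at hP
        exact absurd hP (by simp)
      | some q' =>
        refine ⟨q', ?_, rfl⟩
        by_contra hcon
        rw [(bmin_some.1 hb).2.2 q (by omega)] at hP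
        exact absurd hP (by simp)
    cases hev : evj H.ctx (H.pW m) with
    | some j =>
      obtain ⟨hjf, hevt⟩ := evj_some H.ctx hev
      obtain ⟨-, -, hTT⟩ := TT_spec H.fmono H.ctx hevt
      obtain ⟨q', h1, h2⟩ := hleast (reqY H.ctx (H.sW m) (H.pW m) (H.dW m) j) (by
        unfold reqY
        rw [hmemb, hsp4]
        simp only [Bool.not_false, Bool.true_and, Bool.or_eq_true]
        cases h3 : sp q.unpair.1 (hd (H.sW m) (hY j q)) (f (H.pW m + 4)) with
        | none =>
          left
          have h4 : NoSp q.unpair.1 (hd (H.sW m) (hY j q)) :=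
            Q.truth (r := H.pW m + 3) (by omega) (by omega) (Q.ile hqm (by omega))
              (Q.encY hqm (by omega) hjf) (t := f (H.pW m + 4)) le_rfl h3
          rw [h4.sp_none]; rfl
        | some p =>
          right
          simp only [Option.elim_some]
          obtain ⟨-, -, e3, e4, -⟩ := sp_some h3
          exact hconv (H.pW m + 4) _ (by omega) (by omega) (Q.ff (by omega)) p e3 e4)
      exact ⟨q', h1, Or.inl ⟨j, rfl, h2⟩⟩
    | none =>
      obtain ⟨q', h1, h2⟩ := hleast (reqZ A f (H.sW m) (H.pW m) (H.dW m)) (by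
        unfold reqZ
        rw [hmemb, hsp4]
        simp only [Bool.not_false, Bool.true_and, Bool.or_eq_true]
        rcases Q.zgood hqm hev with h3 | h3
        · left
          obtain ⟨n, hn⟩ := Option.isSome_iff_exists.1 h3
          obtain ⟨e1, e2, -⟩ := bmin_some.1 hn
          obtain ⟨p, hp⟩ := Option.isSome_iff_exists.1 e2
          unfold w1 p1
          rw [hn, Option.bind_some, hp, Option.bind_some]
          obtain ⟨-, -, e3, e4, -⟩ := sp_some hp
          exact hconv (H.pW m + 16) _ (by omega) (by omega) (Q.ff (by omega)) p e3 e4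
        · right; exact h3)
      exact ⟨q', h1, Or.inr ⟨rfl, h2⟩⟩
  obtain ⟨q', hq', hact⟩ := hact
  obtain ⟨k1, k2, k3⟩ := Q.acts hact
  refine ⟨m, q', by omega, hq', ?_, k1⟩
  rintro (h | h)
  · exact k2 h
  · exact k3 h

open Classical in
theorem eventually_settled {q : ℕ} {c : ℕ → ℕ}
    (hc : ∀ y, ∃ n, th q.unpair.2 (pre A n) y = some (c y)) : ∃ m, St H q m := by
  by_contra hcon
  push Not at hcon
  have key : ∀ k, ∃ m, k ≤ ((Finset.range (q + 1)).filter (fun q' => St H q' m)).card := by
    intro k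
    induction k with
    | zero => exact ⟨0, by omega⟩
    | succ k ih =>
      obtain ⟨m0, hm0⟩ := ih
      obtain ⟨m, q', h1, h2, h3, h4⟩ := H.progress hc hcon m0
      refine ⟨m + 1, ?_⟩
      have hss : (Finset.range (q + 1)).filter (fun q' => St H q' m0) ⊂
          (Finset.range (q + 1)).filter (fun q' => St H q' (m + 1)) := by
        rw [Finset.ssubset_iff_of_subset]
        · refine ⟨q', ?_, ?_⟩
          · simp only [Finset.mem_filter, Finset.mem_range]
            exact ⟨by omega, h4⟩
          · simp only [Finset.mem_filter, Finset.mem_range, not_and]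
            intro _ h5
            exact h3 (St.mono H h5 h1)
        · intro x hx
          simp only [Finset.mem_filter, Finset.mem_range] at hx ⊢
          exact ⟨hx.1, St.mono H hx.2 (by omega)⟩
      have := Finset.card_lt_card hss
      omega
  obtain ⟨m, hm⟩ := key (q + 2)
  have h1 := Finset.card_filter_le (Finset.range (q + 1)) (fun q' => St H q' m)
  rw [Finset.card_range] at h1
  omega

theorem meet {c : ℕ → ℕ} (hcA : RC (orc A) c) (hcB : RC (orc H.B) c) : Computable c := by
  obtain ⟨i, hi⟩ := th_complete hcB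
  obtain ⟨e, he⟩ := th_complete hcA
  have h2 : (Nat.pair i e).unpair = (i, e) := Nat.unpair_pair i e
  obtain ⟨m, hm⟩ := H.eventually_settled (q := Nat.pair i e) (c := c) (by rw [h2]; exact he)
  rcases hm with hm | hm
  · exfalso
    obtain ⟨y, n, v, w, h3, h4, h5⟩ := H.diag_W m _ hm
    rw [h2] at h3 h4
    obtain ⟨n1, hn1⟩ := hi y
    obtain ⟨n2, hn2⟩ := he y
    have e1 := th_mono ((H.seg m).prefix_pre (le_max_right n1 (H.sW m).length)) h3
    rw [th_mono (pre_prefix H.B (le_max_left n1 (H.sW m).length)) hn1] at e1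
    have e2 := th_mono (pre_prefix A (le_max_right n2 n)) h4
    rw [th_mono (pre_prefix A (le_max_left n2 n)) hn2] at e2
    exact h5 ((Option.some.inj e1).symm.trans (Option.some.inj e2))
  · rw [h2] at hm
    exact comp_of_noSp (H.seg m) hm hi

end HypW

end Pool.Agent.H69
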