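import Pool.Agent.H69.Split

/-!
# Existence of families of splitting nodes; limits of strings
-/

set_option autoImplicit false

namespace Pool.Agent.H69

open Encodable

theorem inc_iff {a b : List Bool} : inc a b = true ↔ ¬ a <+: b ∧ ¬ b <+: a := by
  simp [inc]

theorem inc_mono {a b a' b' : List Bool} (h : inc a b = true) (ha : a <+: a') (hb : b <+: b') :
    inc a' b' = true := by
  rw [inc_iff] at *
  constructor
  · intro hab
    rcases List.prefix_or_prefix_of_prefix (ha.trans hab) hb with h1 | h1
    · exact h.1 h1
    · exact h.2 h1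
  · intro hab
    rcases List.prefix_or_prefix_of_prefix (hb.trans hab) ha with h1 | h1
    · exact h.2 h1
    · exact h.1 h1

theorem split_one {i : ℕ} {r a b : List Bool} (hi : ∀ x, r <+: x → ¬ Dead i x) (ha : r <+: a)
    (hb : r <+: b) : ∃ a' b', a <+: a' ∧ b <+: b' ∧ spl i a' b' = true := by
  have h1 := hi a ha
  unfold Dead at h1
  push Not at h1
  obtain ⟨h1, -⟩ := h1
  unfold NoSp at h1
  push Not at h1
  obtain ⟨a0, a1, ha0, ha1, hs⟩ := h1
  obtain ⟨y, v, w, hv, hw, hvw⟩ := spl_iff.1 (by simpa using hs)
  -- extend `b` so that `y ≤ length`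
  have h2 := hi (b ++ List.replicate y false) (hb.trans (List.prefix_append _ _))
  unfold Dead at h2
  push Not at h2
  obtain ⟨-, h2⟩ := h2
  obtain ⟨b', hb', hn⟩ := h2 y (by simp)
  obtain ⟨u, hu⟩ := Option.ne_none_iff_exists'.1 hn
  have hbb : b <+: b' := (List.prefix_append _ _).trans hb'
  by_cases huv : v = u
  · refine ⟨a1, b', ha1, hbb, spl_iff.2 ⟨y, w, u, hw, hu, ?_⟩⟩
    rw [← huv]; exact hvw.symm
  · exact ⟨a0, b', ha0, hbb, spl_iff.2 ⟨y, v, u, hv, hu, huv⟩⟩

theorem split_all {F : List ℕ} {r : List Bool} (hF : ∀ i, i ∈ F → ∀ x, r <+: x → ¬ Dead i x) :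
    ∀ a b, r <+: a → r <+: b →
    ∃ a' b', a <+: a' ∧ b <+: b' ∧ ∀ i, i ∈ F → spl i a' b' = true := by
  induction F with
  | nil => intro a b _ _; exact ⟨a, b, List.prefix_rfl, List.prefix_rfl, by simp⟩
  | cons i F ih =>
    intro a b ha hb
    obtain ⟨a1, b1, ha1, hb1, h1⟩ := split_one (hF i (by simp)) ha hb
    obtain ⟨a2, b2, ha2, hb2, h2⟩ := ih (fun j hj => hF j (by simp [hj])) a1 b1
      (ha.trans ha1) (hb.trans hb1)
    refine ⟨a2, b2, ha1.trans ha2, hb1.trans hb2, ?_⟩
    intro j hj
    rcases List.mem_cons.1 hj with h | h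
    · subst h; exact spl_mono h1 ha2 hb2
    · exact h2 j h

theorem split_family {F : List ℕ} {r : List Bool}
    (hF : ∀ i, i ∈ F → ∀ x, r <+: x → ¬ Dead i x) (K : ℕ) :
    ∀ p : ℕ → List Bool, (∀ k, k < K → r <+: p k) → ∃ p' : ℕ → List Bool,
      (∀ k, k < K → p k <+: p' k) ∧
      ∀ k, k < K → ∀ j, j < k → ∀ i, i ∈ F → spl i (p' j) (p' k) = true := by
  induction K with
  | zero => intro p _; exact ⟨p, by simp, by simp⟩
  | succ K ih =>
    intro p hp
    obtain ⟨p1, h1, h2⟩ := ih p (fun k hk => hp k (by omega))
    have hp1 : ∀ k, k < K → r <+: p1 k := fun k hk => (hp k (by omega)).trans (h1 k hk)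
    have key : ∀ m, m ≤ K → ∃ (p2 : ℕ → List Bool) (x : List Bool),
        (∀ k, k < K → p1 k <+: p2 k) ∧ p K <+: x ∧
        ∀ j, j < m → ∀ i, i ∈ F → spl i (p2 j) x = true := by
      intro m
      induction m with
      | zero =>
        intro _
        exact ⟨p1, p K, fun k _ => List.prefix_rfl, List.prefix_rfl, by simp⟩
      | succ m ihm =>
        intro hm
        obtain ⟨p2, x, g1, g2, g3⟩ := ihm (by omega)
        obtain ⟨a', x', e1, e2, e3⟩ := split_all hF (p2 m) x
          ((hp1 m (by omega)).trans (g1 m (by omega))) ((hp K (by omega)).trans g2)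
        refine ⟨Function.update p2 m a', x', ?_, g2.trans e2, ?_⟩
        · intro k hk
          by_cases hkm : k = m
          · subst hkm; rw [Function.update_self]; exact (g1 k hk).trans e1
          · rw [Function.update_of_ne hkm]; exact g1 k hk
        · intro j hj i hi
          by_cases hjm : j = m
          · subst hjm; rw [Function.update_self]; exact e3 i hi
          · rw [Function.update_of_ne hjm]
            exact spl_mono (g3 j (by omega) i hi) List.prefix_rfl e2
    obtain ⟨p2, x, g1, g2, g3⟩ := key K le_rfl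
    refine ⟨Function.update p2 K x, ?_, ?_⟩
    · intro k hk
      by_cases hkm : k = K
      · subst hkm; rw [Function.update_self]; exact g2
      · rw [Function.update_of_ne hkm]
        exact (h1 k (by omega)).trans (g1 k (by omega))
    · intro k hk j hj i hi
      by_cases hkm : k = K
      · subst hkm
        rw [Function.update_self, Function.update_of_ne (by omega)]
        exact g3 j hj i hi
      · rw [Function.update_of_ne hkm, Function.update_of_ne (by omega)]
        exact spl_mono (h2 k (by omega) j hj i hi) (g1 j (by omega)) (g1 k (by omega))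

theorem inc_start (r : List Bool) {j k : ℕ} (h : j < k) :
    inc (r ++ List.replicate j false ++ [true]) (r ++ List.replicate k false ++ [true]) = true := by
  obtain ⟨d, rfl⟩ := Nat.exists_eq_add_of_lt h
  rw [inc_iff]
  have hlen : (r ++ List.replicate j false ++ [true]).length <
      (r ++ List.replicate (j + d + 1) false ++ [true]).length := by simp; omega
  constructor
  · intro hp
    have h1 : (r ++ List.replicate j false ++ [true])[r.length + j]? = some true := by
      rw [List.getElem?_append_right (by simp)]
      simp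
    have h2 : (r ++ List.replicate (j + d + 1) false ++ [true])[r.length + j]? = some false := by
      rw [List.getElem?_append_left (by simp; omega), List.getElem?_append_right (by simp)]
      simp only [Nat.add_sub_cancel_left]
      rw [List.getElem?_replicate]
      simp only [h, if_true]
    obtain ⟨t, ht⟩ := hp
    rw [← ht, List.getElem?_append_left (by simp), h1] at h2
    simp at h2
  · intro hp
    have := hp.length_le
    omega

theorem exists_family {F : List ℕ} {r : List Bool}
    (hF : ∀ i, i ∈ F → ∀ x, r <+: x → ¬ Dead i x) (K : ℕ) :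
    ∃ l, famok F r K l = true := by
  obtain ⟨p', h1, h2⟩ := split_family hF K
    (fun k => r ++ List.replicate k false ++ [true])
    (fun k _ => by rw [List.append_assoc]; exact List.prefix_append _ _)
  refine ⟨(List.range K).map p', famok_iff.2 ⟨by simp, ?_⟩⟩
  have hnd : ∀ k, k < K → nd ((List.range K).map p') k = p' k := by
    intro k hk
    simp [nd, hk]
  intro k hk
  rw [hnd k hk]
  have hk1 := h1 k hk
  refine ⟨?_, ?_, ?_⟩
  · refine List.IsPrefix.trans ?_ hk1
    rw [List.append_assoc]; exact List.prefix_append _ _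
  · have := hk1.length_le
    simp only [List.length_append, List.length_replicate, List.length_cons, List.length_nil] at this
    omega
  · intro j hj
    rw [hnd j (by omega)]
    exact ⟨inc_mono (inc_start r hj) (h1 j (by omega)) hk1, h2 k hk j hj⟩

theorem exists_fam {F : List ℕ} {r : List Bool}
    (hF : ∀ i, i ∈ F → ∀ x, r <+: x → ¬ Dead i x) (K : ℕ) :
    ∃ t, (fam F r K t).isSome = true := by
  obtain ⟨l, hl⟩ := exists_family hF K
  exact ⟨encode l, srch_isSome_iff.2 ⟨l, hl, le_rfl⟩⟩

/-! ### limit of an increasing sequence of strings -/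

section lim

variable {s : ℕ → List Bool}

theorem lim_pre (hs : ∀ n, s n <+: s (n + 1)) {m n : ℕ} (h : m ≤ n) : s m <+: s n := by
  induction n with
  | zero =>
    have : m = 0 := by omega
    subst this; exact List.prefix_rfl
  | succ n ih =>
    rcases Nat.lt_or_eq_of_le h with h1 | h1
    · exact (ih (by omega)).trans (hs n)
    · subst h1; exact List.prefix_rfl

/-- the limit of an increasing sequence of strings whose lengths are unbounded -/
noncomputable def lim (s : ℕ → List Bool) (hl : ∀ x, ∃ n, decide (x < (s n).length) = true)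
    (x : ℕ) : Bool :=
  ((s (Nat.find (hl x)))[x]?).getD false

theorem lim_eq (hs : ∀ n, s n <+: s (n + 1)) (hl : ∀ x, ∃ n, decide (x < (s n).length) = true)
    {x n : ℕ} (h : x < (s n).length) : (s n)[x]? = some (lim s hl x) := by
  unfold lim
  have h1 : x < (s (Nat.find (hl x))).length := by simpa using Nat.find_spec (hl x)
  have h2 : Nat.find (hl x) ≤ n := Nat.find_min' (hl x) (by simpa using h)
  obtain ⟨t, ht⟩ := lim_pre hs h2
  rw [← ht, List.getElem?_append_left h1]
  rw [List.getElem?_eq_getElem h1]
  rfl

theorem lim_seg (hs : ∀ n, s n <+: s (n + 1)) (hl : ∀ x, ∃ n, decide (x < (s n).length) = true)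
    (n : ℕ) : Seg (lim s hl) (s n) := by
  unfold Seg
  apply List.ext_getElem?
  intro x
  by_cases hx : x < (s n).length
  · rw [pre_getElem? _ hx, lim_eq hs hl hx]
  · rw [List.getElem?_eq_none (by simpa using hx), List.getElem?_eq_none (by simpa using hx)]

theorem RC.lim {O : Set (ℕ →. ℕ)} (hl : ∀ x, ∃ n, decide (x < (s n).length) = true)
    (h : RC O s) : RC O (lim s hl) := by
  have h1 : RC O (fun x => Nat.find (hl x)) :=
    RC.find (P := fun x n => decide (x < (s n).length)) (by fun_prop) hl
  unfold Pool.Agent.H69.lim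
  fun_prop

end lim

end Pool.Agent.H69
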