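import Pool.Agent.H69.CaseW

/-!
# Case W: correctness of the decoding
-/

set_option autoImplicit false

namespace Pool.Agent.H69

open Encodable
open Nat.Partrec (Code)
open Nat.Partrec.Code (evaln eval evaln_mono evaln_sound evaln_complete)

/-- iterating a search that succeeds along a given sequence -/
theorem rc_iterate {O : Set (ℕ →. ℕ)} {σ : Type} [Primcodable σ] {step : σ → ℕ → Option σ}
    (hstep : RC O (fun p : σ × ℕ => step p.1 p.2)) {st : ℕ → σ}
    (h1 : ∀ m, ∃ t, step (st m) t = some (st (m + 1)))
    (h2 : ∀ m t v, step (st m) t = some v → v = st (m + 1)) : RC O st := by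
  have hs1 : Rc O (fun p : σ × ℕ => (step p.1 p.2).isSome) := by
    have : RC O (fun p : σ × ℕ => (step p.1 p.2).isSome) := by fun_prop
    exact this
  have hr : RecursiveIn O (fun i : σ => Nat.rfind
      (fun t => (Part.some (step i t).isSome : Part Bool))) :=
    recIn_rfind (p := fun (i : σ) t => Part.some (step i t).isSome) hs1
  have ho : RecursiveIn O (fun o : Option σ => (Part.ofOption o)) :=
    Partrec.recursiveIn (Computable.ofOption Computable.id)
  have hG : RecursiveIn O (fun i : σ => (Nat.rfind
      (fun t => (Part.some (step i t).isSome : Part Bool))).bind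
        (fun t => Part.ofOption (step i t))) := by
    refine recIn_bind (g := fun (i : σ) (t : ℕ) => Part.ofOption (step i t)) hr ?_
    exact recIn_comp (f := fun o : Option σ => Part.ofOption o)
      (g := fun p : σ × ℕ => step p.1 p.2) ho hstep
  have hGval : ∀ m, ((Nat.rfind
      (fun t => (Part.some (step (st m) t).isSome : Part Bool))).bind
        (fun t => Part.ofOption (step (st m) t))) = Part.some (st (m + 1)) := by
    intro m
    obtain ⟨t, ht⟩ := h1 m
    have hdom : (Nat.rfind (fun t => (Part.some (step (st m) t).isSome : Part Bool))).Dom := by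
      rw [Nat.rfind_dom]
      exact ⟨t, by simp [ht], fun _ => trivial⟩
    obtain ⟨t0, ht0⟩ := Part.dom_iff_mem.1 hdom
    rw [Part.eq_some_iff.2 ht0, Part.bind_some]
    have h3 := (Nat.mem_rfind.1 ht0).1
    have h4 : (step (st m) t0).isSome = true := by
      have := Part.mem_some_iff.1 h3
      exact this.symm
    obtain ⟨v, hv⟩ := Option.isSome_iff_exists.1 h4
    rw [hv, h2 m t0 v hv]
    rfl
  have hF : RecursiveIn O (fun n : ℕ => (Nat.rec (motive := fun _ => Part σ) (Part.some (st 0))
      (fun y IH => IH.bind fun i => (Nat.rfind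
      (fun t => (Part.some (step i t).isSome : Part Bool))).bind
        (fun t => Part.ofOption (step i t))) n : Part σ)) := by
    refine recIn_nat_rec (f := fun n : ℕ => n) (g := fun _ => Part.some (st 0))
      (h := fun _ (q : ℕ × σ) => (Nat.rfind
      (fun t => (Part.some (step q.2 t).isSome : Part Bool))).bind
        (fun t => Part.ofOption (step q.2 t))) Rc.id ?_ ?_
    · exact Rc.const (st 0)
    · exact recIn_comp (f := fun i : σ => (Nat.rfind
        (fun t => (Part.some (step i t).isSome : Part Bool))).bind
        (fun t => Part.ofOption (step i t))) (g := fun p : ℕ × ℕ × σ => p.2.2) hG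
        (Rc.comp Rc.snd Rc.snd)
  refine RecursiveIn.of_eq hF fun n => ?_
  induction n with
  | zero => rfl
  | succ n ih =>
    show ((Nat.rec (motive := fun _ => Part σ) (Part.some (st 0))
      (fun y IH => IH.bind fun i => (Nat.rfind
      (fun t => (Part.some (step i t).isSome : Part Bool))).bind
        (fun t => Part.ofOption (step i t))) n : Part σ).bind fun i => (Nat.rfind
      (fun t => (Part.some (step i t).isSome : Part Bool))).bind
        (fun t => Part.ofOption (step i t))) = _
    rw [ih]
    exact (Part.bind_some _ _).trans (hGval n)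

/-! ### segments -/

theorem Seg.append {B : ℕ → Bool} {a c : List Bool} (h : Seg B (a ++ c)) :
    ∀ k, k < c.length → c[k]? = some (B (a.length + k)) := by
  intro k hk
  have h1 := pre_getElem? B (m := a.length + k) (n := (a ++ c).length)
    (by rw [List.length_append]; omega)
  rw [h, List.getElem?_append_right (by omega)] at h1
  simpa using h1

theorem Seg.last {B : ℕ → Bool} {a : List Bool} {b : Bool} (h : Seg B (a ++ [b])) :
    B a.length = b := by
  have := h.append 0 (by simp)
  simpa using this.symm

theorem Seg.hd_bits {B : ℕ → Bool} {a : List Bool} {h : ℕ} (hs : Seg B (hd a h)) :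
    B (a.length + h) = true ∧ ∀ k, k < h → B (a.length + k) = false := by
  unfold hd at hs
  have h1 := hs.append
  constructor
  · have h2 := h1 h (by simp)
    rw [List.getElem?_append_right (by simp)] at h2
    simpa using h2.symm
  · intro k hk
    have h2 := h1 k (by simp; omega)
    rw [List.getElem?_append_left (by simpa using hk), List.getElem?_replicate] at h2
    simpa [hk] using h2.symm

theorem hd_length (a : List Bool) (h : ℕ) : (hd a h).length = a.length + h + 1 := by
  simp [hd]; omega

theorem pre_hd (a : List Bool) (h : ℕ) : a <+: hd a h := List.prefix_append _ _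

/-- the possible results of a stage -/
inductive Val (A : ℕ → Bool) (a : List Bool) (b : Bool) : List Bool → Prop
  | nul : Val A a b (hd a 0 ++ [b])
  | ynone (j q T : ℕ) (hT : refd A j T = true) (hmin : ∀ T', T' < T → refd A j T' = false)
      (hsp : sp q.unpair.1 (hd a (hY j q)) T = none) : Val A a b (hd a (hY j q) ++ [b])
  | ysome (j q T : ℕ) (hT : refd A j T = true) (hmin : ∀ T', T' < T → refd A j T' = false)
      (p : List Bool × List Bool) (hsp : sp q.unpair.1 (hd a (hY j q)) T = some p)
      (c : List Bool) (hc : c = p.1 ∨ c = p.2) : Val A a b (c ++ [b])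
  | zf (q n : ℕ) : Val A a b (Nz A a q n false ++ [b])
  | zt (q n t : ℕ) (p : List Bool × List Bool)
      (hsp : sp q.unpair.1 (Nz A a q n true) t = some p)
      (c : List Bool) (hc : c = p.1 ∨ c = p.2) : Val A a b (c ++ [b])

/-- the result ends with the coded bit -/
theorem Val.last {A : ℕ → Bool} {a : List Bool} {b : Bool} {r : List Bool} (h : Val A a b r) :
    ∃ c, r = c ++ [b] ∧ a <+: c := by
  cases h with
  | nul => exact ⟨_, rfl, pre_hd _ _⟩
  | ynone => exact ⟨_, rfl, pre_hd _ _⟩
  | ysome j q T hT hmin p hsp c hc =>
    refine ⟨_, rfl, ?_⟩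
    obtain ⟨h1, h2, -⟩ := sp_some hsp
    rcases hc with rfl | rfl
    · exact (pre_hd _ _).trans h1
    · exact (pre_hd _ _).trans h2
  | zf q n => exact ⟨_, rfl, (pre_hd _ _).trans (List.prefix_append _ _)⟩
  | zt q n t p hsp c hc =>
    refine ⟨_, rfl, ?_⟩
    obtain ⟨h1, h2, -⟩ := sp_some hsp
    rcases hc with rfl | rfl
    · exact ((pre_hd _ _).trans (List.prefix_append _ _)).trans h1
    · exact ((pre_hd _ _).trans (List.prefix_append _ _)).trans h2

theorem fin_eq {B : ℕ → Bool} {i t : ℕ} {r : List Bool} {p : List Bool × List Bool}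
    (hsp : sp i r t = some p) {c : List Bool} {b : Bool} (hc : c = p.1 ∨ c = p.2)
    (hs : Seg B (c ++ [b])) : fin B p = c ++ [b] := by
  have hlast := hs.last
  have hsc : Seg B c := hs.of_prefix (List.prefix_append _ _)
  unfold fin
  rcases hc with rfl | rfl
  · have : deqb (pre B p.1.length) p.1 = true := deqb_iff.2 hsc
    rw [this, cond_true, hlast]
  · have : deqb (pre B p.1.length) p.1 = false := by
      rw [deqb_false]
      intro h1
      have h2 : Seg B p.1 := h1
      obtain ⟨-, -, h3, -⟩ := sp_some hsp
      obtain ⟨y, v, w, hv, hw, hvw⟩ := spl_iff.1 h3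
      rcases Nat.le_total p.1.length p.2.length with h4 | h4
      · rw [th_mono (h2.comparable hsc h4) hv] at hw
        exact hvw (Option.some.inj hw)
      · rw [th_mono (hsc.comparable h2 h4) hw] at hv
        exact hvw (Option.some.inj hv).symm
    rw [this, cond_false, hlast]

theorem bmin_eq_some {n x : ℕ} {P : ℕ → Bool} (hP : P x = true)
    (hmin : ∀ y, y < x → P y = false) : bmin n P = none ∨ bmin n P = some x := by
  cases h : bmin n P with
  | none => exact Or.inl rfl
  | some y =>
    right
    obtain ⟨h1, h2, h3⟩ := bmin_some.1 h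
    rcases Nat.lt_trichotomy x y with h4 | h4 | h4
    · rw [h3 x h4] at hP; exact absurd hP (by simp)
    · rw [h4]
    · rw [hmin y h4] at h2; exact absurd h2 (by simp)

theorem dec_head {A B : ℕ → Bool} {a : List Bool} {h : ℕ} (hs : Seg B (hd a h)) (t : ℕ) :
    dec A B a t = none ∨ (h ≤ t ∧ dec A B a t =
      (bif decide (h = 0) then some (hd a 0 ++ [B (hd a 0).length])
      else bif decide ((Nat.unpair (h - 1)).1 = 0) then decZ A B a h t else decY A B a h t)) := by
  obtain ⟨h1, h2⟩ := hs.hd_bits
  unfold dec
  rcases bmin_eq_some (n := t + 1) (P := fun h => B (a.length + h)) h1 h2 with h3 | h3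
  · left; rw [h3]; rfl
  · right
    have := (bmin_some.1 h3).1
    rw [h3]
    exact ⟨by omega, rfl⟩

theorem dec_head' {A B : ℕ → Bool} {a : List Bool} {h : ℕ} (hs : Seg B (hd a h)) {t : ℕ}
    (ht : h ≤ t) : dec A B a t =
      (bif decide (h = 0) then some (hd a 0 ++ [B (hd a 0).length])
      else bif decide ((Nat.unpair (h - 1)).1 = 0) then decZ A B a h t else decY A B a h t) := by
  obtain ⟨h1, h2⟩ := hs.hd_bits
  unfold dec
  have h3 : bmin (t + 1) (fun h => B (a.length + h)) = some h :=
    bmin_some.2 ⟨by omega, h1, h2⟩
  rw [h3]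
  rfl

theorem hY_ne (j q : ℕ) : decide (hY j q = 0) = false := by simp [hY]
theorem hZ_ne (q : ℕ) : decide (hZ q = 0) = false := by simp [hZ]
theorem hY_un (j q : ℕ) : Nat.unpair (hY j q - 1) = (j + 1, q) := by
  simp [hY]
theorem hZ_un (q : ℕ) : Nat.unpair (hZ q - 1) = (0, q) := by
  simp [hZ]

theorem Nz_length (A : ℕ → Bool) (a : List Bool) (q n : ℕ) (z : Bool) :
    (Nz A a q n z).length = (hd a (hZ q)).length + n + 2 := by
  simp [Nz]; omega

theorem Nz_bits {A B : ℕ → Bool} {a : List Bool} {q n : ℕ} {z : Bool} (hs : Seg B (Nz A a q n z)) :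
    (!(deqb (B ((hd a (hZ q)).length + n)) (A n))) = true ∧
    (∀ k, k < n → (!(deqb (B ((hd a (hZ q)).length + k)) (A k))) = false) ∧
    B ((hd a (hZ q)).length + n + 1) = z := by
  unfold Nz at hs
  have h1 := hs.append
  refine ⟨?_, ?_, ?_⟩
  · have h2 := h1 n (by simp)
    rw [List.getElem?_append_right (by simp)] at h2
    have h3 : B ((hd a (hZ q)).length + n) = !(A n) := by simpa using h2.symm
    rw [h3]
    cases A n <;> rfl
  · intro k hk
    have h2 := h1 k (by simp; omega)
    rw [List.getElem?_append_left (by simpa using hk), pre_getElem? A hk] at h2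
    have h3 : A k = B ((hd a (hZ q)).length + k) := by simpa using h2
    rw [← h3]
    simp
  · have h2 := h1 (n + 1) (by simp)
    rw [List.getElem?_append_right (by simp)] at h2
    have h3 : z = B ((hd a (hZ q)).length + (n + 1)) := by simpa using h2
    rw [h3]; rfl

theorem Val.decode {A B : ℕ → Bool} {a : List Bool} {b : Bool} {r : List Bool}
    (h : Val A a b r) (hs : Seg B r) :
    (∀ t, dec A B a t = none ∨ dec A B a t = some r) ∧ ∃ t, dec A B a t = some r := by
  cases h with
  | nul =>
    have hlast := hs.last
    have hh : Seg B (hd a 0) := hs.of_prefix (List.prefix_append _ _)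
    constructor
    · intro t
      rcases dec_head (A := A) hh t with h1 | ⟨-, h1⟩
      · exact Or.inl h1
      · right; rw [h1, hlast]; rfl
    · refine ⟨0, ?_⟩
      rw [dec_head' hh le_rfl, hlast]; rfl
  | ynone j q T hT hmin hsp =>
    have hlast := hs.last
    have hh : Seg B (hd a (hY j q)) := hs.of_prefix (List.prefix_append _ _)
    have key : ∀ t, decY A B a (hY j q) t = none ∨
        decY A B a (hY j q) t = some (hd a (hY j q) ++ [b]) := by
      intro t
      unfold decY
      rw [hY_un]
      simp only [Nat.add_sub_cancel]
      rcases bmin_eq_some (n := t + 1) hT hmin with h3 | h3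
      · left; rw [h3]; rfl
      · right; rw [h3]
        simp only [Option.map_some, hsp, Option.elim_none, hlast]
    constructor
    · intro t
      rcases dec_head (A := A) hh t with h1 | ⟨-, h1⟩
      · exact Or.inl h1
      · rw [h1, hY_ne, hY_un]
        simpa using key t
    · refine ⟨max (hY j q) T, ?_⟩
      rw [dec_head' hh (le_max_left _ _), hY_ne, hY_un]
      simp only [cond_false]
      have h4 : decide (j + 1 = 0) = false := by simp
      rw [h4, cond_false]
      unfold decY
      rw [hY_un]
      simp only [Nat.add_sub_cancel]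
      have h3 : bmin (max (hY j q) T + 1) (refd A j) = some T :=
        bmin_some.2 ⟨by omega, hT, hmin⟩
      rw [h3]
      simp only [Option.map_some, hsp, Option.elim_none, hlast]
  | ysome j q T hT hmin p hsp c hc =>
    have hfin := fin_eq hsp hc hs
    have hh : Seg B (hd a (hY j q)) := by
      refine hs.of_prefix ?_
      obtain ⟨h1, h2, -⟩ := sp_some hsp
      rcases hc with rfl | rfl
      · exact h1.trans (List.prefix_append _ _)
      · exact h2.trans (List.prefix_append _ _)
    have key : ∀ t, decY A B a (hY j q) t = none ∨
        decY A B a (hY j q) t = some (c ++ [b]) := by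
      intro t
      unfold decY
      rw [hY_un]
      simp only [Nat.add_sub_cancel]
      rcases bmin_eq_some (n := t + 1) hT hmin with h3 | h3
      · left; rw [h3]; rfl
      · right; rw [h3]
        simp only [Option.map_some, hsp, Option.elim_some, hfin]
    constructor
    · intro t
      rcases dec_head (A := A) hh t with h1 | ⟨-, h1⟩
      · exact Or.inl h1
      · rw [h1, hY_ne, hY_un]
        simpa using key t
    · refine ⟨max (hY j q) T, ?_⟩
      rw [dec_head' hh (le_max_left _ _), hY_ne, hY_un]
      simp only [cond_false]
      have h4 : decide (j + 1 = 0) = false := by simp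
      rw [h4, cond_false]
      unfold decY
      rw [hY_un]
      simp only [Nat.add_sub_cancel]
      have h3 : bmin (max (hY j q) T + 1) (refd A j) = some T :=
        bmin_some.2 ⟨by omega, hT, hmin⟩
      rw [h3]
      simp only [Option.map_some, hsp, Option.elim_some, hfin]
  | zf q n =>
    have hlast := hs.last
    rw [Nz_length] at hlast
    have hN : Seg B (Nz A a q n false) := hs.of_prefix (List.prefix_append _ _)
    have hh : Seg B (hd a (hZ q)) := hN.of_prefix (List.prefix_append _ _)
    obtain ⟨k1, k2, k3⟩ := Nz_bits hN
    have e1 : Nz A a q n false ++ [b] = hd a (hZ q) ++ (pre A n ++ [!(A n), false]) ++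
        [B ((hd a (hZ q)).length + n + 2)] := by rw [hlast]; rfl
    constructor
    · intro t
      rcases dec_head (A := A) hh t with h1 | ⟨-, h1⟩
      · exact Or.inl h1
      · rw [h1, hZ_ne, hZ_un]
        simp only [decide_true, cond_true, cond_false]
        unfold decZ
        rcases bmin_eq_some (n := t + 1)
          (P := fun n => !(deqb (B ((hd a (hZ q)).length + n)) (A n))) k1 k2 with h3 | h3
        · left; rw [h3]; rfl
        · right; rw [h3, Option.bind_some, k3, cond_false, e1]
    · refine ⟨max (hZ q) n, ?_⟩
      rw [dec_head' hh (le_max_left _ _), hZ_ne, hZ_un]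
      simp only [decide_true, cond_true, cond_false]
      unfold decZ
      have h3 : bmin (max (hZ q) n + 1)
          (fun n => !(deqb (B ((hd a (hZ q)).length + n)) (A n))) = some n :=
        bmin_some.2 ⟨by omega, k1, k2⟩
      rw [h3, Option.bind_some, k3, cond_false, e1]
  | zt q n t0 p hsp c hc =>
    have hfin := fin_eq hsp hc hs
    have hN : Seg B (Nz A a q n true) := by
      refine hs.of_prefix ?_
      obtain ⟨h1, h2, -⟩ := sp_some hsp
      rcases hc with rfl | rfl
      · exact h1.trans (List.prefix_append _ _)
      · exact h2.trans (List.prefix_append _ _)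
    have hh : Seg B (hd a (hZ q)) := hN.of_prefix (List.prefix_append _ _)
    obtain ⟨k1, k2, k3⟩ := Nz_bits hN
    constructor
    · intro t
      rcases dec_head (A := A) hh t with h1 | ⟨-, h1⟩
      · exact Or.inl h1
      · rw [h1, hZ_ne, hZ_un]
        simp only [decide_true, cond_true, cond_false]
        unfold decZ
        rcases bmin_eq_some (n := t + 1)
          (P := fun n => !(deqb (B ((hd a (hZ q)).length + n)) (A n))) k1 k2 with h3 | h3
        · left; rw [h3]; rfl
        · rw [h3, Option.bind_some, k3, cond_true, hZ_un]
          simp only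
          cases h5 : sp q.unpair.1 (hd a (hZ q) ++ (pre A n ++ [!(A n), true])) t with
          | none => left; rfl
          | some p' =>
            right
            have h6 : p' = p := by
              have e1 := sp_mono h5 (le_max_left t t0)
              have e2 := sp_mono hsp (le_max_right t t0)
              have e3 : Nz A a q n true = hd a (hZ q) ++ (pre A n ++ [!(A n), true]) := rfl
              rw [e3, e1] at e2
              exact Option.some.inj e2
            rw [Option.map_some, h6, hfin]
    · refine ⟨max (max (hZ q) n) t0, ?_⟩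
      rw [dec_head' hh (by omega), hZ_ne, hZ_un]
      simp only [decide_true, cond_true, cond_false]
      unfold decZ
      have h3 : bmin (max (max (hZ q) n) t0 + 1)
          (fun n => !(deqb (B ((hd a (hZ q)).length + n)) (A n))) = some n :=
        bmin_some.2 ⟨by omega, k1, k2⟩
      rw [h3, Option.bind_some, k3, cond_true, hZ_un]
      have e2 := sp_mono hsp (t' := max (max (hZ q) n) t0) (by omega)
      have e3 : Nz A a q n true = hd a (hZ q) ++ (pre A n ++ [!(A n), true]) := rfl
      rw [e3] at e2
      simp only [e2, Option.map_some, hfin]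

end Pool.Agent.H69
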