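import Pool.Agent.H69.Bound

/-!
# A degree not above 0' such that all degrees above it have complemented lower cones
-/

set_option autoImplicit false

namespace Pool.Agent.H69

open Encodable
open Nat.Partrec (Code)
open Nat.Partrec.Code (evaln eval evaln_mono evaln_sound evaln_complete)

/-- running maximum -/
def gmax (g : ℕ → ℕ) (n : ℕ) : ℕ :=
  Nat.rec (motive := fun _ => ℕ) (g 0) (fun k x => max x (g (k + 1))) n

theorem le_gmax (g : ℕ → ℕ) {k n : ℕ} (h : k ≤ n) : g k ≤ gmax g n := by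
  induction n with
  | zero =>
    have : k = 0 := by omega
    subst this; exact le_rfl
  | succ n ih =>
    have e : gmax g (n + 1) = max (gmax g n) (g (n + 1)) := rfl
    rw [e]
    rcases Nat.lt_or_eq_of_le h with h1 | h1
    · exact le_trans (ih (by omega)) (le_max_left _ _)
    · subst h1; exact le_max_right _ _

theorem gmax_mono (g : ℕ → ℕ) : Monotone (gmax g) :=
  monotone_nat_of_le_succ fun n => by
    have e : gmax g (n + 1) = max (gmax g n) (g (n + 1)) := rfl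
    rw [e]; exact le_max_left _ _

/-- the sequence of times of Case S -/
def TS (g : ℕ → ℕ) (n : ℕ) : ℕ :=
  Nat.rec (motive := fun _ => ℕ) 0 (fun _ x => max (gmax g x) x + 1) n

theorem TS_succ (g : ℕ → ℕ) (n : ℕ) : TS g (n + 1) = max (gmax g (TS g n)) (TS g n) + 1 := rfl

theorem TS_mono (g : ℕ → ℕ) : StrictMono (TS g) :=
  strictMono_nat_of_lt_succ fun n => by rw [TS_succ]; omega

theorem RC.gmax {O : Set (ℕ →. ℕ)} {g : ℕ → ℕ} (hg : RC O g) : RC O (gmax g) := by
  unfold Pool.Agent.H69.gmax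
  fun_prop

theorem RC.TS {O : Set (ℕ →. ℕ)} {g : ℕ → ℕ} (hg : RC O g) : RC O (TS g) := by
  have h1 := RC.gmax hg
  unfold Pool.Agent.H69.TS
  fun_prop

theorem TS_good {f g M : ℕ → ℕ} (hf : StrictMono f)
    (hS : ∀ N, ∃ u, N ≤ u ∧ Block M f 60 u ∧ ∃ s, u ≤ s ∧ s + 6 ≤ u + 60 ∧ f (s + 6) ≤ g (f s))
    (N : ℕ) : ∃ n, N ≤ n ∧ ∃ s, TS g n ≤ f s ∧ f (s + 3) ≤ TS g (n + 1) ∧
      ∀ r, s ≤ r → r < s + 3 → M (f r) ≤ f (r + 1) := by
  obtain ⟨u, hu, hb, s, hs1, hs2, hs3⟩ := hS (TS g N)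
  have h1 : s ≤ f s := hf.le_apply
  -- the greatest `n` with `TS g n ≤ f s`
  have hex : ∃ n, f s < TS g (n + 1) := ⟨f s, by
    have := (TS_mono g).le_apply (x := f s + 1)
    omega⟩
  have h2 := Nat.find_spec hex
  set n := Nat.find hex with hn
  have h3 : N ≤ n := by
    by_contra hcon
    have : TS g (n + 1) ≤ TS g N := (TS_mono g).monotone (by omega)
    omega
  have h4 : TS g n ≤ f s := by
    rcases Nat.eq_zero_or_pos n with h0 | h0
    · rw [h0]
      have : TS g 0 = 0 := rfl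
      omega
    · have h5 := Nat.find_min hex (m := n - 1) (by omega)
      have h6 : n - 1 + 1 = n := by omega
      rw [h6] at h5
      omega
  have hM : ∀ r, s ≤ r → r < s + 6 → M (f r) ≤ f (r + 1) := fun r hr1 hr2 =>
    hb.1 r (by omega) (by omega)
  by_cases h5 : TS g (n + 1) ≤ f (s + 3)
  · refine ⟨n + 1, by omega, s + 3, h5, ?_, fun r hr1 hr2 => hM r (by omega) (by omega)⟩
    rw [TS_succ g (n + 1)]
    have h6 : g (f s) ≤ gmax g (TS g (n + 1)) := le_gmax g (by omega)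
    have h7 : f (s + 3 + 3) = f (s + 6) := rfl
    have h8 := le_max_left (gmax g (TS g (n + 1))) (TS g (n + 1))
    omega
  · exact ⟨n, h3, s, h4, by omega, fun r hr1 hr2 => hM r hr1 (by omega)⟩

theorem rc_gr {a : ℕ → ℕ} : RC {(a : ℕ →. ℕ)} (gr a) := by
  have h1 : RC {(a : ℕ →. ℕ)} a := RC.self a
  unfold gr
  fun_prop

theorem orc_gr {a : ℕ → ℕ} {β : Type} [Primcodable β] {F : ℕ → β} (h : RC (orc (gr a)) F) :
    RC {(a : ℕ →. ℕ)} F :=
  RC.trans1 h (RC.nat_iff.2 rc_gr)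

theorem gr_orc {a : ℕ → ℕ} {β : Type} [Primcodable β] {F : ℕ → β}
    (h : RC {(a : ℕ →. ℕ)} F) : RC (orc (gr a)) F :=
  RC.trans1 h (rc_of_gr a)

/-- The theorem: a function not computing the halting problem above which all lower cones are
complemented. -/
theorem main : ∃ f : ℕ → ℕ,
    ¬ TuringReducible (Set.indicator {n : ℕ | (eval (Denumerable.ofNat Code n) n).Dom}
      (fun _ => (1 : ℕ)) : ℕ →. ℕ) (f : ℕ →. ℕ) ∧
    ∀ d : ℕ → ℕ, RC {(d : ℕ →. ℕ)} f → ∀ a : ℕ → ℕ, RC {(d : ℕ →. ℕ)} a →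
      ∃ b : ℕ → ℕ, RC {(d : ℕ →. ℕ)} b ∧
        (∀ c : ℕ → ℕ, RC {(c : ℕ →. ℕ)} a → RC {(c : ℕ →. ℕ)} b → RC {(c : ℕ →. ℕ)} d) ∧
        (∀ c : ℕ → ℕ, RC {(a : ℕ →. ℕ)} c → RC {(b : ℕ →. ℕ)} c → Computable c) := by
  obtain ⟨M, hM1, hM2, hM3, hM4, hM5, hM6, hM7⟩ := exists_M
  obtain ⟨f, hf, hblk, hdom, hK⟩ := generic M 60
  refine ⟨f, hK, fun d hfd a had => ?_⟩
  by_cases hac : Computable a
  · refine ⟨d, RC.self d, fun c _ h => h, fun c h1 _ => ?_⟩
    have h2 : RC ∅ c := by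
      refine RC.trans h1 ?_
      intro g hg
      rw [Set.mem_singleton_iff] at hg
      subst hg
      exact Rc.of_computable hac
    exact h2.computable
  by_cases hda : RC {(a : ℕ →. ℕ)} d
  · refine ⟨fun _ => 0, RC.const 0, fun c h _ => RC.trans1 hda h, fun c _ h1 => ?_⟩
    have h2 : RC ∅ c := by
      refine RC.trans h1 ?_
      intro g hg
      rw [Set.mem_singleton_iff] at hg
      subst hg
      exact Rc.const 0
    exact h2.computable
  -- the reals
  have hAn : ¬ Computable (gr a) := by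
    intro h
    apply hac
    have h1 : RC (orc (gr a)) a := rc_of_gr a
    have h2 : RC ∅ a := by
      refine RC.trans h1 ?_
      intro g hg
      rw [Set.mem_singleton_iff] at hg
      subst hg
      exact RC.nat_iff.2 (Rc.of_computable h)
    exact h2.computable
  have hAD : RC (orc (gr d)) (gr a) := gr_orc (RC.trans1 rc_gr had)
  have hfD : RC (orc (gr d)) f := gr_orc hfd
  have hDA : ¬ RC (orc (gr a)) (gr d) := by
    intro h
    apply hda
    have h1 : RC (orc (gr d)) d := rc_of_gr d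
    exact orc_gr (RC.trans1 h1 (RC.nat_iff.2 h))
  -- it is enough to find the complement as a real
  suffices hB : ∃ B : ℕ → Bool, RC (orc (gr d)) B ∧
      (∀ O : Set (ℕ →. ℕ), RC O (gr a) → RC O B → RC O (gr d)) ∧
      (∀ c : ℕ → ℕ, RC (orc (gr a)) c → RC (orc B) c → Computable c) by
    obtain ⟨B, hB1, hB2, hB3⟩ := hB
    refine ⟨nat B, orc_gr (RC.nat_iff.2 hB1), fun c h1 h2 => ?_, fun c h1 h2 => ?_⟩
    · have h3 := hB2 {(c : ℕ →. ℕ)} (RC.trans1 rc_gr h1) (RC.nat_iff.1 h2)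
      have h4 : RC (orc (gr d)) d := rc_of_gr d
      exact RC.trans1 h4 (RC.nat_iff.2 h3)
    · exact hB3 c (gr_orc h1) h2
  by_cases hS : ∃ g : ℕ → ℕ, RC (orc (gr a)) g ∧ ∀ N, ∃ u, N ≤ u ∧ Block M f 60 u ∧
      ∃ s, u ≤ s ∧ s + 6 ≤ u + 60 ∧ f (s + 6) ≤ g (f s)
  · obtain ⟨g, hg, hS⟩ := hS
    have H : HypS (gr a) (gr d) f M (TS g) :=
      { fmono := hf
        M1 := hM1
        M2 := hM2
        M3 := hM3
        F3 := hdom
        T0 := rfl
        Tmono := TS_mono g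
        TA := RC.TS hg
        AD := hAD
        fD := hfD
        DA := hDA
        good := TS_good hf hS }
    exact ⟨H.B hf, H.rc_B hf, fun O h1 h2 => H.decode_D hf h1 h2, fun c h1 h2 => H.meet hf h1 h2⟩
  · have hweak : ∀ g : ℕ → ℕ, RC (orc (gr a)) g → ∃ N, ∀ u, N ≤ u → Block M f 60 u →
        ∀ s, u ≤ s → s + 6 ≤ u + 60 → g (f s) < f (s + 6) := by
      intro g hg
      by_contra hcon
      apply hS
      refine ⟨g, hg, fun N => ?_⟩
      by_contra hcon2
      apply hcon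
      refine ⟨N, fun u hu hb s hs1 hs2 => ?_⟩
      by_contra hcon3
      exact hcon2 ⟨u, hu, hb, s, hs1, hs2, by omega⟩
    have H : HypW (gr a) (gr d) f M :=
      { fmono := hf
        F3 := hdom
        AD := hAD
        fD := hfD
        An := hAn
        W1 := hM4
        W2 := hM5
        W3 := hM6
        W4 := hM7
        blocks := hblk
        weak := hweak }
    exact ⟨H.B, H.rc_B, fun O h1 h2 => H.decode_D h1 h2, fun c h1 h2 => H.meet h1 h2⟩

end Pool.Agent.H69
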