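import Pool.Agent.H69.Iter

/-!
# The partial recursive real read off from the splittings
-/

set_option autoImplicit false

namespace Pool.Agent.H69

open Encodable
open Nat.Partrec (Code)
open Nat.Partrec.Code (evaln eval evaln_mono evaln_sound evaln_complete)

/-- one bit, with search bound `t` -/
def bstep (i : ℕ) (r : List Bool) (t : ℕ) (l : List Bool) : Option (List Bool) :=
  (bmin (t + 1) (fun t' => (sp i (r ++ (l ++ [false, true])) t').isSome ||
    (sp i (r ++ (l ++ [true, true])) t').isSome)).map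
    (fun t' => l ++ [!((sp i (r ++ (l ++ [false, true])) t').isSome)])

/-- `n` bits, with search bound `t` -/
def RS (i : ℕ) (r : List Bool) (t n : ℕ) : Option (List Bool) :=
  Nat.rec (motive := fun _ => Option (List Bool)) (some [])
    (fun _ o => o.bind (fun l => bstep i r t l)) n

/-- value with search bound `t` -/
def RV (i : ℕ) (r : List Bool) (x t : ℕ) : Option ℕ :=
  ((RS i r t (x + 1)).bind (fun l => l[x]?)).map (fun b => b.toNat)

/-- the partial recursive real -/
def PR (i : ℕ) (r : List Bool) : ℕ →. ℕ := fun x => Nat.rfindOpt (fun t => RV i r x t)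

section rc
variable {O : Set (ℕ →. ℕ)} {α : Type} [Primcodable α]

@[fun_prop] theorem RC.bstep {i : α → ℕ} {r l : α → List Bool} {t : α → ℕ} (hi : RC O i)
    (hr : RC O r) (ht : RC O t) (hl : RC O l) :
    RC O fun x => bstep (i x) (r x) (t x) (l x) := by
  unfold Pool.Agent.H69.bstep
  fun_prop

@[fun_prop] theorem RC.RS {i : α → ℕ} {r : α → List Bool} {t n : α → ℕ} (hi : RC O i)
    (hr : RC O r) (ht : RC O t) (hn : RC O n) :
    RC O fun x => RS (i x) (r x) (t x) (n x) := by
  unfold Pool.Agent.H69.RS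
  fun_prop

@[fun_prop] theorem RC.RV {i : α → ℕ} {r : α → List Bool} {x t : α → ℕ} (hi : RC O i)
    (hr : RC O r) (hx : RC O x) (ht : RC O t) :
    RC O fun y => RV (i y) (r y) (x y) (t y) := by
  unfold Pool.Agent.H69.RV
  fun_prop

end rc

theorem PR_partrec (i : ℕ) (r : List Bool) : Partrec (PR i r) := by
  have h : RC ∅ (fun p : ℕ × ℕ => RV i r p.1 p.2) := by fun_prop
  exact Partrec.rfindOpt (f := fun x t => RV i r x t) h.computable

theorem bstep_mono {i : ℕ} {r l v : List Bool} {t t' : ℕ} (h : bstep i r t l = some v)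
    (ht : t ≤ t') : bstep i r t' l = some v := by
  unfold bstep at *
  rw [Option.map_eq_some_iff] at *
  obtain ⟨a, ha, hv⟩ := h
  refine ⟨a, ?_, hv⟩
  obtain ⟨h1, h2, h3⟩ := bmin_some.1 ha
  exact bmin_some.2 ⟨by omega, h2, h3⟩

theorem RS_succ (i : ℕ) (r : List Bool) (t n : ℕ) :
    RS i r t (n + 1) = (RS i r t n).bind (fun l => bstep i r t l) := rfl

theorem RS_mono {i : ℕ} {r v : List Bool} {t t' n : ℕ} (h : RS i r t n = some v)
    (ht : t ≤ t') : RS i r t' n = some v := by
  induction n generalizing v with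
  | zero => exact h
  | succ n ih =>
    rw [RS_succ, Option.bind_eq_some_iff] at *
    obtain ⟨l, hl, hv⟩ := h
    exact ⟨l, ih hl, bstep_mono hv ht⟩

theorem RV_mono {i : ℕ} {r : List Bool} {x t t' v : ℕ} (h : RV i r x t = some v)
    (ht : t ≤ t') : RV i r x t' = some v := by
  unfold RV at *
  rw [Option.map_eq_some_iff] at *
  obtain ⟨b, hb, hv⟩ := h
  rw [Option.bind_eq_some_iff] at hb
  obtain ⟨l, hl, hb⟩ := hb
  refine ⟨b, ?_, hv⟩
  rw [Option.bind_eq_some_iff]
  exact ⟨l, RS_mono hl ht, hb⟩

theorem mem_PR {i : ℕ} {r : List Bool} {x v : ℕ} :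
    v ∈ PR i r x ↔ ∃ t, RV i r x t = some v := by
  unfold PR
  rw [Nat.rfindOpt_mono]
  · simp
  · intro a m n hmn hm
    exact RV_mono hm hmn

/-- If `A` follows the path of splittings up to `K` then the real computed is `A` up to `K`. -/
theorem PR_eq {A : ℕ → Bool} {i : ℕ} {r : List Bool} {K : ℕ}
    (h1 : ∀ n, n ≤ K → ∃ t, (sp i (r ++ (pre A n ++ [A n, true])) t).isSome = true)
    (h2 : ∀ n, n ≤ K → NoSp i (r ++ (pre A n ++ [!(A n), true]))) {x : ℕ} (hx : x ≤ K) :
    (A x).toNat ∈ PR i r x := by
  have hb : ∀ n, n ≤ K → ∃ t, bstep i r t (pre A n) = some (pre A (n + 1)) := by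
    intro n hn
    obtain ⟨t, ht⟩ := h1 n hn
    have hno := (h2 n hn).sp_none
    have hex : ∃ t, ((sp i (r ++ (pre A n ++ [false, true])) t).isSome ||
        (sp i (r ++ (pre A n ++ [true, true])) t).isSome) = true := by
      refine ⟨t, ?_⟩
      cases hA : A n with
      | false => rw [hA] at ht; simp [ht]
      | true => rw [hA] at ht; simp [ht]
    refine ⟨Nat.find hex, ?_⟩
    unfold bstep
    have h3 : bmin (Nat.find hex + 1) (fun t' =>
        (sp i (r ++ (pre A n ++ [false, true])) t').isSome ||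
        (sp i (r ++ (pre A n ++ [true, true])) t').isSome) = some (Nat.find hex) := by
      refine bmin_some.2 ⟨by omega, Nat.find_spec hex, fun y hy => ?_⟩
      have := Nat.find_min hex hy
      simpa using this
    rw [h3, Option.map_some, pre_succ]
    have h4 := Nat.find_spec hex
    cases hA : A n with
    | false =>
      rw [hA] at hno
      simp only [Bool.not_false] at hno
      rw [hno] at h4
      simp only [Option.isSome_none, Bool.or_false] at h4
      rw [h4]; rfl
    | true =>
      rw [hA] at hno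
      simp only [Bool.not_true] at hno
      rw [hno]; rfl
  have hR : ∀ n, n ≤ K + 1 → ∃ t, RS i r t n = some (pre A n) := by
    intro n
    induction n with
    | zero => intro _; exact ⟨0, rfl⟩
    | succ n ih =>
      intro hn
      obtain ⟨t1, ht1⟩ := ih (by omega)
      obtain ⟨t2, ht2⟩ := hb n (by omega)
      refine ⟨max t1 t2, ?_⟩
      rw [RS_succ, RS_mono ht1 (le_max_left _ _), Option.bind_some]
      exact bstep_mono ht2 (le_max_right _ _)
  obtain ⟨t, ht⟩ := hR (x + 1) (by omega)
  rw [mem_PR]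
  refine ⟨t, ?_⟩
  unfold RV
  rw [ht, Option.bind_some, pre_getElem? A (Nat.lt_succ_self x)]
  rfl

end Pool.Agent.H69
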