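import Mathlib.Computability.TuringDegree
import Mathlib.Computability.Halting
import Mathlib.Computability.PartrecCode

/-!
# Relative computability toolkit

Closure properties of Mathlib's `RecursiveIn` and `ComputableIn`.
-/

set_option autoImplicit false

namespace Pool.Agent.H69

open Encodable

variable {O : Set (ℕ →. ℕ)}
variable {α β γ δ σ : Type*}
variable [Primcodable α] [Primcodable β] [Primcodable γ] [Primcodable δ] [Primcodable σ]

namespace Rn

theorem nat_some : Nat.RecursiveIn O Part.some :=
  Nat.Partrec.recursiveIn Nat.Partrec.some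

theorem prec' {f g h : ℕ →. ℕ} (hf : Nat.RecursiveIn O f) (hg : Nat.RecursiveIn O g)
    (hh : Nat.RecursiveIn O h) :
    Nat.RecursiveIn O fun a => (f a).bind fun n => n.rec (g a)
      fun y IH => do {let i ← IH; h (Nat.pair a (Nat.pair y i))} :=
  ((Nat.RecursiveIn.prec hg hh).comp (Nat.RecursiveIn.pair nat_some hf)).of_eq fun a =>
    Part.ext fun s => by simp [Seq.seq]

end Rn

set_option backward.isDefEq.respectTransparency false in
theorem recIn_bind {f : α →. β} {g : α → β →. σ} (hf : RecursiveIn O f) (hg : RecursiveIn₂ O g) :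
    RecursiveIn O fun a => (f a).bind (g a) :=
  (Nat.RecursiveIn.comp hg (Rn.nat_some.pair hf)).of_eq fun n => by
    rcases e : decode (α := α) n <;> simp [Seq.seq, e, encodek]

theorem recIn_map {f : α →. β} {g : α → β → σ} (hf : RecursiveIn O f) (hg : ComputableIn₂ O g) :
    RecursiveIn O fun a => (f a).map (g a) := by
  simpa [Part.bind_some_eq_map] using recIn_bind (g := fun a x => Part.some (g a x)) hf hg

theorem recIn_comp {f : β →. σ} {g : α → β} (hf : RecursiveIn O f) (hg : ComputableIn O g) :
    RecursiveIn O fun a => f (g a) :=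
  (Nat.RecursiveIn.comp hf hg).of_eq fun n => by
    simp only [Part.map_some, Part.bind_eq_bind]
    rcases e : decode (α := α) n with - | a <;> simp [encodek]

theorem recIn_nat_rec {f : α → ℕ} {g : α →. σ} {h : α → ℕ × σ →. σ} (hf : ComputableIn O f)
    (hg : RecursiveIn O g) (hh : RecursiveIn₂ O h) :
    RecursiveIn O fun a => (f a).rec (g a) fun y IH => IH.bind fun i => h a (y, i) :=
  (Rn.prec' hf hg hh).of_eq fun n => by
    rcases e : decode (α := α) n with - | a
    · simp
    · simp only [Part.coe_some, Part.bind_some]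
      simp only [Part.map_some, Part.bind_some]
      induction f a <;> simp_all

set_option backward.isDefEq.respectTransparency false in
theorem recIn_rfind {p : α → ℕ →. Bool} (hp : RecursiveIn₂ O p) :
    RecursiveIn O fun a => Nat.rfind (p a) :=
  (Nat.RecursiveIn.rfind <|
        recIn_map hp (g := fun _ b => cond b 0 1)
          (((Primrec.dom_bool fun b => cond b 0 1).comp Primrec.snd).to₂.computableIn₂)).of_eq
    fun n => by
    rcases e : decode (α := α) n <;> simp [e, Nat.rfind_zero_none, Part.map_map, Part.map_id']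

/-! ### Total functions -/

/-- `Rc O F`: the total function `F` is computable relative to the oracles in `O`. -/
abbrev Rc (O : Set (ℕ →. ℕ)) (F : α → β) : Prop := ComputableIn O F

namespace Rc

theorem of_eq {f g : α → σ} (hf : Rc O f) (H : ∀ n, f n = g n) : Rc O g :=
  (funext H : f = g) ▸ hf

theorem comp {f : β → σ} {g : α → β} (hf : Rc O f) (hg : Rc O g) : Rc O fun a => f (g a) :=
  recIn_comp (f := fun b => Part.some (f b)) hf hg

theorem pair {f : α → β} {g : α → γ} (hf : Rc O f) (hg : Rc O g) :
    Rc O fun a => (f a, g a) :=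
  (Nat.RecursiveIn.pair hf hg).of_eq fun n => by cases decode (α := α) n <;> simp [Seq.seq]

theorem comp₂ {f : β → γ → σ} {g : α → β} {h : α → γ} (hf : Rc O (fun p : β × γ => f p.1 p.2))
    (hg : Rc O g) (hh : Rc O h) : Rc O fun a => f (g a) (h a) :=
  comp hf (pair hg hh)

theorem of_primrec {f : α → σ} (hf : Primrec f) : Rc O f := hf.computableIn

theorem of_computable {f : α → σ} (hf : Computable f) : Rc O f := hf.computableIn

theorem prim1 {f : β → σ} {g : α → β} (hf : Primrec f) (hg : Rc O g) : Rc O fun a => f (g a) :=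
  comp (of_primrec hf) hg

theorem prim2 {f : β → γ → σ} {g : α → β} {h : α → γ} (hf : Primrec₂ f)
    (hg : Rc O g) (hh : Rc O h) : Rc O fun a => f (g a) (h a) :=
  comp₂ (of_primrec hf) hg hh

theorem const (s : σ) : Rc O (fun _ : α => s) := of_primrec (Primrec.const s)

theorem id : Rc O (fun a : α => a) := of_primrec Primrec.id

theorem fst : Rc O (fun p : α × β => p.1) := of_primrec Primrec.fst

theorem snd : Rc O (fun p : α × β => p.2) := of_primrec Primrec.snd

theorem nat_rec {f : α → ℕ} {g : α → σ} {h : α → ℕ → σ → σ} (hf : Rc O f) (hg : Rc O g)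
    (hh : Rc O (fun p : α × ℕ × σ => h p.1 p.2.1 p.2.2)) :
    Rc O fun a => Nat.rec (motive := fun _ => σ) (g a) (fun y IH => h a y IH) (f a) :=
  (recIn_nat_rec (h := fun a q => Part.some (h a q.1 q.2)) hf hg hh).of_eq fun a => by
    simp; induction f a <;> simp [*]

/-- unbounded search -/
theorem find {P : α → ℕ → Bool} (hP : Rc O (fun p : α × ℕ => P p.1 p.2))
    (hex : ∀ a, ∃ n, P a n = true) : Rc O fun a => Nat.find (hex a) := by
  have h1 : RecursiveIn O fun a => Nat.rfind (fun n => (Part.some (P a n) : Part Bool)) :=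
    recIn_rfind (p := fun a n => Part.some (P a n)) hP
  refine RecursiveIn.of_eq h1 fun a => ?_
  refine Part.eq_some_iff.2 ?_
  refine Nat.mem_rfind.2 ⟨?_, ?_⟩
  · simpa using Nat.find_spec (hex a)
  · intro m hm
    have := Nat.find_min (hex a) hm
    simpa using this

/-- a search for the first `n` with a value, when one always exists -/
theorem rfindOpt {f : α → ℕ → Option σ} (hf : Rc O (fun p : α × ℕ => f p.1 p.2)) {F : α → σ}
    (hex : ∀ a, ∃ n, f a n = some (F a)) (hs : ∀ a n v, f a n = some v → v = F a) :
    Rc O F := by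
  have hex' : ∀ a, ∃ n, (f a n).isSome = true := fun a => by
    obtain ⟨n, hn⟩ := hex a
    exact ⟨n, by simp [hn]⟩
  have h1 : Rc O fun a => Nat.find (hex' a) :=
    find (P := fun a n => (f a n).isSome) (prim1 Primrec.option_isSome hf) hex'
  have h2 : Rc O fun a => f a (Nat.find (hex' a)) :=
    comp₂ (f := f) hf id h1
  have h3 : ∀ a, f a (Nat.find (hex' a)) = some (F a) := fun a => by
    have h := Nat.find_spec (hex' a)
    obtain ⟨v, hv⟩ := Option.isSome_iff_exists.1 h
    rw [hv, hs a _ v hv]
  have h4 : Rc O fun a => some (F a) := h2.of_eq h3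
  -- strip the `some`
  have h5 : Rc O fun a => encode (some (F a)) - 1 := by
    have : Primrec fun o : Option σ => encode o - 1 :=
      Primrec.nat_sub.comp Primrec.encode (Primrec.const 1)
    exact prim1 (f := fun o : Option σ => encode o - 1) this h4
  have h6 : Rc O fun a => encode (F a) := h5.of_eq fun a => by simp
  -- encode F computable implies F computable
  simpa [ComputableIn, RecursiveIn] using h6

theorem cond {c : α → Bool} {f : α → σ} {g : α → σ} (hc : Rc O c) (hf : Rc O f)
    (hg : Rc O g) : Rc O fun a => bif (c a) then (f a) else (g a) := by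
  have : Primrec fun p : Bool × σ × σ => bif p.1 then p.2.1 else p.2.2 :=
    Primrec.cond Primrec.fst (Primrec.fst.comp Primrec.snd) (Primrec.snd.comp Primrec.snd)
  exact prim1 this (pair hc (pair hf hg))

theorem ite {c : α → Prop} [DecidablePred c] {f : α → σ} {g : α → σ}
    (hc : Rc O (fun a => decide (c a))) (hf : Rc O f)
    (hg : Rc O g) : Rc O fun a => if c a then f a else g a :=
  (cond hc hf hg).of_eq fun a => by by_cases h : c a <;> simp [h]

/-- tables -/
theorem table {F : α → ℕ → β} {n : α → ℕ} (hF : Rc O (fun p : α × ℕ => F p.1 p.2))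
    (hn : Rc O n) : Rc O fun a => (List.range (n a)).map (F a) := by
  have h : Rc O fun a => Nat.rec (motive := fun _ => List β) [] (fun y IH => IH ++ [F a y]) (n a) := by
    refine nat_rec (g := fun _ => []) (h := fun a y IH => IH ++ [F a y]) hn (const []) ?_
    refine prim2 (f := fun (l : List β) (b : β) => l ++ [b]) Primrec.list_concat
      (comp snd snd) ?_
    exact comp₂ (f := F) hF fst (comp fst snd)
  refine h.of_eq fun a => ?_
  induction n a with
  | zero => rfl
  | succ k ih => simp [List.range_succ, ih]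

theorem trans {O' : Set (ℕ →. ℕ)} {F : α → β} (hF : Rc O F)
    (h : ∀ g ∈ O, RecursiveIn O' g) : Rc O' F :=
  RecursiveIn.subst hF h

theorem trans1 {X : ℕ → ℕ} {O' : Set (ℕ →. ℕ)} {F : α → β} (hF : Rc {(X : ℕ →. ℕ)} F)
    (h : Rc O' X) : Rc O' F :=
  trans hF (by
    intro g hg
    rw [Set.mem_singleton_iff] at hg
    subst hg
    exact h)

theorem self (X : ℕ → ℕ) : Rc {(X : ℕ →. ℕ)} X :=
  RecursiveIn.oracle _ (Set.mem_singleton _)

end Rc

theorem turingReducible_iff (X Y : ℕ → ℕ) :
    TuringReducible (X : ℕ →. ℕ) (Y : ℕ →. ℕ) ↔ Rc {(Y : ℕ →. ℕ)} X := Iff.rfl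

end Pool.Agent.H69
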