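import Pool.Agent.H69.Auto

/-!
# Bounded searches over codes
-/

set_option autoImplicit false

namespace Pool.Agent.H69

open Encodable
open Nat.Partrec (Code)
open Nat.Partrec.Code (evaln eval)

/-! ### codes of lists -/

section enc

variable {β : Type} [Encodable β]

theorem enc_cons (a : β) (l : List β) : encode (a :: l) = Nat.pair (encode a) (encode l) + 1 := rfl

theorem length_le_enc (l : List β) : l.length ≤ encode l := by
  induction l with
  | nil => simp
  | cons a l ih =>
    rw [enc_cons, List.length_cons]
    have := Nat.right_le_pair (encode a) (encode l)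
    omega

theorem pre_enc {l l' : List β} (h : l <+: l') : encode l ≤ encode l' := by
  induction l generalizing l' with
  | nil => simp
  | cons a l ih =>
    obtain ⟨r, rfl⟩ := h
    rw [List.cons_append, enc_cons, enc_cons]
    have h1 := ih (l' := l ++ r) (List.prefix_append _ _)
    have h2 : Nat.pair (encode a) (encode l) ≤ Nat.pair (encode a) (encode (l ++ r)) := by
      rcases Nat.lt_or_eq_of_le h1 with h3 | h3
      · exact le_of_lt (Nat.pair_lt_pair_right _ h3)
      · rw [h3]
    omega

theorem mem_enc {a : β} {l : List β} (h : a ∈ l) : encode a ≤ encode l := by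
  induction l with
  | nil => simp at h
  | cons b l ih =>
    rw [enc_cons]
    rcases List.mem_cons.1 h with h | h
    · subst h
      have := Nat.left_le_pair (encode a) (encode l)
      omega
    · have := Nat.right_le_pair (encode b) (encode l)
      have := ih h
      omega

end enc

/-- bound for the code of a 0-1 string of length `n` -/
def EE (n : ℕ) : ℕ := Nat.rec (motive := fun _ => ℕ) 0 (fun _ x => Nat.pair 1 x + 1) n

theorem EE_succ (n : ℕ) : EE (n + 1) = Nat.pair 1 (EE n) + 1 := rfl

theorem EE_mono : Monotone EE := by
  refine monotone_nat_of_le_succ fun n => ?_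
  rw [EE_succ]
  have := Nat.right_le_pair 1 (EE n)
  omega

theorem pair_le_pair' {a b c d : ℕ} (h1 : a ≤ c) (h2 : b ≤ d) : Nat.pair a b ≤ Nat.pair c d := by
  have e1 : Nat.pair a b ≤ Nat.pair c b := by
    rcases Nat.lt_or_eq_of_le h1 with h | h
    · exact le_of_lt (Nat.pair_lt_pair_left _ h)
    · rw [h]
  have e2 : Nat.pair c b ≤ Nat.pair c d := by
    rcases Nat.lt_or_eq_of_le h2 with h | h
    · exact le_of_lt (Nat.pair_lt_pair_right _ h)
    · rw [h]
  omega

theorem enc_le_EE (l : List Bool) : encode l ≤ EE l.length := by
  induction l with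
  | nil => simp
  | cons a l ih =>
    rw [enc_cons, List.length_cons, EE_succ]
    have h1 : encode a ≤ 1 := by cases a <;> simp
    have := pair_le_pair' h1 ih
    omega

theorem enc_le_EE' {l : List Bool} {n : ℕ} (h : l.length ≤ n) : encode l ≤ EE n :=
  le_trans (enc_le_EE l) (EE_mono h)

theorem self_le_EE (n : ℕ) : n ≤ EE n := by
  induction n with
  | zero => simp
  | succ n ih =>
    rw [EE_succ]
    have := Nat.right_le_pair 1 (EE n)
    omega

variable {O : Set (ℕ →. ℕ)}
variable {α β γ δ σ : Type}
variable [Primcodable α] [Primcodable β] [Primcodable γ] [Primcodable δ] [Primcodable σ]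

theorem RC.EE : RC O EE := by
  unfold Pool.Agent.H69.EE
  fun_prop

/-! ### search for the least code -/

/-- checked decoding -/
def dc (β : Type) [Encodable β] (n : ℕ) : Option β := decode₂ β n

theorem dc_eq {n : ℕ} {x : β} : dc β n = some x ↔ encode x = n := by
  unfold dc
  exact decode₂_eq_some

@[fun_prop] theorem RC.dc {f : α → ℕ} (hf : RC O f) : RC O fun a => dc β (f a) := by
  have h1 : RC O fun a => ((decode (f a) : Option β)).bind
      (fun b => bif decide (encode b = f a) then some b else none) := by fun_prop
  refine h1.of_eq fun a => ?_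
  unfold Pool.Agent.H69.dc decode₂
  congr 1
  funext b
  by_cases h : encode b = f a <;> simp [h, Option.guard]

/-- search for the object with the least code `≤ t` satisfying `P` -/
def srch (t : ℕ) (P : β → Bool) : Option β :=
  Nat.rec (motive := fun _ => Option β) none (fun n IH => IH.or ((dc β n).filter P)) (t + 1)

@[fun_prop] theorem RC.srch {t : α → ℕ} {P : α → β → Bool} (ht : RC O t)
    (hP : RC O (fun p : α × β => P p.1 p.2)) : RC O fun a => srch (t a) (P a) := by
  unfold Pool.Agent.H69.srch
  fun_prop

theorem srch_aux (n : ℕ) (P : β → Bool) :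
    (∀ x, (Nat.rec (motive := fun _ => Option β) none
        (fun n IH => IH.or ((dc β n).filter P)) n : Option β) = some x →
      P x = true ∧ encode x < n ∧ ∀ y, P y = true → encode x ≤ encode y) ∧
    ((Nat.rec (motive := fun _ => Option β) none
        (fun n IH => IH.or ((dc β n).filter P)) n : Option β) = none →
      ∀ y, P y = true → n ≤ encode y) := by
  induction n with
  | zero => simp
  | succ n ih =>
    obtain ⟨ih1, ih2⟩ := ih
    set R : Option β := (Nat.rec (motive := fun _ => Option β) none
        (fun n IH => IH.or ((dc β n).filter P)) n : Option β) with hR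
    constructor
    · intro x hx
      have hx' : R.or ((dc β n).filter P) = some x := hx
      cases hRe : R with
      | some z =>
        rw [hRe] at hx'
        have : z = x := by simpa using hx'
        subst this
        obtain ⟨h1, h2, h3⟩ := ih1 z hRe
        exact ⟨h1, by omega, h3⟩
      | none =>
        rw [hRe, Option.none_or, Option.filter_eq_some_iff] at hx'
        obtain ⟨h1, h2⟩ := hx'
        have h3 := dc_eq.1 h1
        exact ⟨h2, by omega, fun y hy => by
          have := ih2 hRe y hy
          omega⟩
    · intro hx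
      have hx' : R.or ((dc β n).filter P) = none := hx
      rw [Option.or_eq_none_iff] at hx'
      intro y hy
      have h1 := ih2 hx'.1 y hy
      rcases Nat.lt_or_eq_of_le h1 with h2 | h2
      · exact h2
      · exfalso
        have h3 : dc β n = some y := dc_eq.2 h2.symm
        rw [h3] at hx'
        simp [Option.filter, hy] at hx'

theorem srch_spec {t : ℕ} {P : β → Bool} {x : β} (h : srch t P = some x) :
    P x = true ∧ encode x ≤ t ∧ ∀ y, P y = true → encode x ≤ encode y := by
  obtain ⟨h1, h2, h3⟩ := (srch_aux (t + 1) P).1 x h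
  exact ⟨h1, by omega, h3⟩

theorem srch_none {t : ℕ} {P : β → Bool} (h : srch t P = none) {y : β} (hy : P y = true) :
    t < encode y := (srch_aux (t + 1) P).2 h y hy

theorem srch_some {t : ℕ} {P : β → Bool} {y : β} (hy : P y = true) (ht : encode y ≤ t) :
    ∃ x, srch t P = some x ∧ encode x ≤ encode y := by
  cases h : srch t P with
  | none => exact absurd (srch_none h hy) (by omega)
  | some x => exact ⟨x, rfl, (srch_spec h).2.2 y hy⟩

theorem srch_isSome_iff {t : ℕ} {P : β → Bool} :
    (srch t P).isSome = true ↔ ∃ y, P y = true ∧ encode y ≤ t := by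
  constructor
  · intro h
    obtain ⟨x, hx⟩ := Option.isSome_iff_exists.1 h
    exact ⟨x, (srch_spec hx).1, (srch_spec hx).2.1⟩
  · rintro ⟨y, hy, ht⟩
    obtain ⟨x, hx, -⟩ := srch_some hy ht
    rw [hx]; rfl

theorem srch_isNone_iff {t : ℕ} {P : β → Bool} :
    srch t P = none ↔ ∀ y, P y = true → t < encode y := by
  constructor
  · intro h y hy
    exact srch_none h hy
  · intro h
    cases h1 : srch t P with
    | none => rfl
    | some x =>
      have := srch_spec h1
      have := h x this.1
      omega

theorem srch_mono {t t' : ℕ} {P : β → Bool} {x : β} (h : srch t P = some x) (ht : t ≤ t') :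
    srch t' P = some x := by
  obtain ⟨h1, h2, h3⟩ := srch_spec h
  obtain ⟨z, hz, hzx⟩ := srch_some (P := P) (t := t') h1 (by omega)
  obtain ⟨k1, k2, k3⟩ := srch_spec hz
  have h4 := h3 z k1
  have h5 : encode x = encode z := by omega
  rw [hz, encode_injective h5]

theorem srch_eq_of_imp {t : ℕ} {P Q : β → Bool} {x : β} (h : srch t P = some x)
    (hQ : Q x = true) (hQP : ∀ y, Q y = true → P y = true) : srch t Q = some x := by
  obtain ⟨h1, h2, h3⟩ := srch_spec h
  obtain ⟨z, hz, hzx⟩ := srch_some (P := Q) (t := t) hQ h2
  obtain ⟨k1, k2, k3⟩ := srch_spec hz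
  have h4 := h3 z (hQP z k1)
  have h5 : encode x = encode z := by omega
  rw [hz, encode_injective h5]

/-! ### bounded minimisation -/

/-- least `x < n` with `P x` -/
def bmin (n : ℕ) (P : ℕ → Bool) : Option ℕ := (List.range n).find? P

@[fun_prop] theorem RC.bmin {t : α → ℕ} {P : α → ℕ → Bool} (ht : RC O t)
    (hP : RC O (fun p : α × ℕ => P p.1 p.2)) : RC O fun a => bmin (t a) (P a) := by
  unfold Pool.Agent.H69.bmin
  fun_prop

theorem bmin_some {n x : ℕ} {P : ℕ → Bool} :
    bmin n P = some x ↔ x < n ∧ P x = true ∧ ∀ y, y < x → P y = false := by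
  unfold bmin
  rw [List.find?_range_eq_some]
  constructor
  · rintro ⟨h1, h2, h3⟩
    refine ⟨by simpa using h2, h1, fun y hy => ?_⟩
    have := h3 y hy
    simpa using this
  · rintro ⟨h1, h2, h3⟩
    exact ⟨h2, by simpa using h1, fun y hy => by simp [h3 y hy]⟩

theorem bmin_none {n : ℕ} {P : ℕ → Bool} :
    bmin n P = none ↔ ∀ x, x < n → P x = false := by
  unfold bmin
  rw [List.find?_range_eq_none]
  simp

end Pool.Agent.H69
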