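import Pool.Agent.H69.Search

/-!
# Splittings, dead nodes, families of pairwise splitting nodes
-/

set_option autoImplicit false

namespace Pool.Agent.H69

open Encodable
open Nat.Partrec (Code)
open Nat.Partrec.Code (evaln eval)

variable {O : Set (ℕ →. ℕ)}
variable {α β γ δ σ : Type}
variable [Primcodable α] [Primcodable β] [Primcodable γ] [Primcodable δ] [Primcodable σ]

/-- `a` and `b` give different `i`-values at `y` -/
def dif (i : ℕ) (a b : List Bool) (y : ℕ) : Bool :=
  (th i a y).isSome && ((th i b y).isSome && !(deqb (th i a y) (th i b y)))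

/-- `a` and `b` split for the functional `i` -/
def spl (i : ℕ) (a b : List Bool) : Bool := (List.range a.length).any (dif i a b)

/-- least witness of a splitting -/
def wit (i : ℕ) (a b : List Bool) : ℕ := (bmin a.length (dif i a b)).getD 0

@[fun_prop] theorem RC.dif {i : α → ℕ} {a b : α → List Bool} {y : α → ℕ} (hi : RC O i)
    (ha : RC O a) (hb : RC O b) (hy : RC O y) : RC O fun x => dif (i x) (a x) (b x) (y x) := by
  unfold Pool.Agent.H69.dif
  fun_prop

@[fun_prop] theorem RC.spl {i : α → ℕ} {a b : α → List Bool} (hi : RC O i)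
    (ha : RC O a) (hb : RC O b) : RC O fun x => spl (i x) (a x) (b x) := by
  unfold Pool.Agent.H69.spl
  fun_prop

@[fun_prop] theorem RC.wit {i : α → ℕ} {a b : α → List Bool} (hi : RC O i)
    (ha : RC O a) (hb : RC O b) : RC O fun x => wit (i x) (a x) (b x) := by
  unfold Pool.Agent.H69.wit
  fun_prop

theorem dif_iff {i : ℕ} {a b : List Bool} {y : ℕ} :
    dif i a b y = true ↔ ∃ v w, th i a y = some v ∧ th i b y = some w ∧ v ≠ w := by
  unfold dif
  cases h1 : th i a y <;> cases h2 : th i b y <;> simp

theorem spl_iff {i : ℕ} {a b : List Bool} :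
    spl i a b = true ↔ ∃ y v w, th i a y = some v ∧ th i b y = some w ∧ v ≠ w := by
  unfold spl
  rw [List.any_eq_true]
  constructor
  · rintro ⟨y, -, hy⟩
    exact ⟨y, dif_iff.1 hy⟩
  · rintro ⟨y, hy⟩
    refine ⟨y, ?_, dif_iff.2 hy⟩
    obtain ⟨v, w, h1, -⟩ := hy
    exact List.mem_range.2 (th_lt h1)

theorem spl_mono {i : ℕ} {a b a' b' : List Bool} (h : spl i a b = true) (ha : a <+: a')
    (hb : b <+: b') : spl i a' b' = true := by
  obtain ⟨y, v, w, h1, h2, h3⟩ := spl_iff.1 h
  exact spl_iff.2 ⟨y, v, w, th_mono ha h1, th_mono hb h2, h3⟩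

theorem spl_symm {i : ℕ} {a b : List Bool} (h : spl i a b = true) : spl i b a = true := by
  obtain ⟨y, v, w, h1, h2, h3⟩ := spl_iff.1 h
  exact spl_iff.2 ⟨y, w, v, h2, h1, h3.symm⟩

theorem wit_spec {i : ℕ} {a b : List Bool} (h : spl i a b = true) :
    ∃ v w, th i a (wit i a b) = some v ∧ th i b (wit i a b) = some w ∧ v ≠ w := by
  unfold wit
  cases h1 : bmin a.length (dif i a b) with
  | none =>
    exfalso
    rw [bmin_none] at h1
    unfold spl at h
    rw [List.any_eq_true] at h
    obtain ⟨y, hy, hd⟩ := h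
    rw [h1 y (List.mem_range.1 hy)] at hd
    exact absurd hd (by simp)
  | some y => exact dif_iff.1 (bmin_some.1 h1).2.1

theorem wit_lt {i : ℕ} {a b : List Bool} (h : spl i a b = true) : wit i a b < a.length := by
  obtain ⟨v, w, h1, -⟩ := wit_spec h
  exact th_lt h1

/-- is the pair `p` an `i`-splitting above `r`? -/
def isp (i : ℕ) (r : List Bool) (p : List Bool × List Bool) : Bool :=
  preb r p.1 && (preb r p.2 && spl i p.1 p.2)

theorem isp_iff {i : ℕ} {r : List Bool} {p : List Bool × List Bool} :
    isp i r p = true ↔ r <+: p.1 ∧ r <+: p.2 ∧ spl i p.1 p.2 = true := by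
  simp [isp]

/-- least splitting above `r`, searched up to `t` -/
def sp (i : ℕ) (r : List Bool) (t : ℕ) : Option (List Bool × List Bool) := srch t (isp i r)

/-- least convergence above `r` -/
def cv (i : ℕ) (r : List Bool) (y t : ℕ) : Option (List Bool) :=
  srch t (fun a => preb r a && (th i a y).isSome)

/-- apparently dead -/
def dead (i : ℕ) (r : List Bool) (t : ℕ) : Bool :=
  (sp i r t).isNone || (List.range (r.length + 1)).any (fun y => (cv i r y t).isNone)

/-- least apparently dead extension -/
def mdead (i : ℕ) (r : List Bool) (t : ℕ) : Option (List Bool) :=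
  srch t (fun a => preb r a && dead i a t)

@[fun_prop] theorem RC.isp {i : α → ℕ} {r : α → List Bool} {p : α → List Bool × List Bool}
    (hi : RC O i) (hr : RC O r) (hp : RC O p) : RC O fun x => isp (i x) (r x) (p x) := by
  unfold Pool.Agent.H69.isp
  fun_prop

@[fun_prop] theorem RC.sp {i : α → ℕ} {r : α → List Bool} {t : α → ℕ}
    (hi : RC O i) (hr : RC O r) (ht : RC O t) : RC O fun x => sp (i x) (r x) (t x) := by
  unfold Pool.Agent.H69.sp
  fun_prop

@[fun_prop] theorem RC.cv {i : α → ℕ} {r : α → List Bool} {y t : α → ℕ}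
    (hi : RC O i) (hr : RC O r) (hy : RC O y) (ht : RC O t) :
    RC O fun x => cv (i x) (r x) (y x) (t x) := by
  unfold Pool.Agent.H69.cv
  fun_prop

@[fun_prop] theorem RC.dead {i : α → ℕ} {r : α → List Bool} {t : α → ℕ}
    (hi : RC O i) (hr : RC O r) (ht : RC O t) : RC O fun x => dead (i x) (r x) (t x) := by
  unfold Pool.Agent.H69.dead
  fun_prop

@[fun_prop] theorem RC.mdead {i : α → ℕ} {r : α → List Bool} {t : α → ℕ}
    (hi : RC O i) (hr : RC O r) (ht : RC O t) : RC O fun x => mdead (i x) (r x) (t x) := by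
  unfold Pool.Agent.H69.mdead
  fun_prop

/-- no splitting above `r` -/
def NoSp (i : ℕ) (r : List Bool) : Prop := ∀ a b, r <+: a → r <+: b → spl i a b = false

/-- truly dead -/
def Dead (i : ℕ) (r : List Bool) : Prop :=
  NoSp i r ∨ ∃ y, y ≤ r.length ∧ ∀ a, r <+: a → th i a y = none

theorem sp_some {i : ℕ} {r : List Bool} {t : ℕ} {p : List Bool × List Bool}
    (h : sp i r t = some p) : r <+: p.1 ∧ r <+: p.2 ∧ spl i p.1 p.2 = true ∧
      encode p.1 ≤ t ∧ encode p.2 ≤ t := by
  obtain ⟨h1, h2, -⟩ := srch_spec h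
  obtain ⟨k1, k2, k3⟩ := isp_iff.1 h1
  have h3 : encode p = Nat.pair (encode p.1) (encode p.2) := rfl
  have h4 := Nat.left_le_pair (encode p.1) (encode p.2)
  have h5 := Nat.right_le_pair (encode p.1) (encode p.2)
  exact ⟨k1, k2, k3, by omega, by omega⟩

theorem sp_mono {i : ℕ} {r : List Bool} {t t' : ℕ} {p : List Bool × List Bool}
    (h : sp i r t = some p) (ht : t ≤ t') : sp i r t' = some p := srch_mono h ht

theorem sp_isSome_mono {i : ℕ} {r : List Bool} {t t' : ℕ}
    (h : (sp i r t).isSome = true) (ht : t ≤ t') : (sp i r t').isSome = true := by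
  obtain ⟨p, hp⟩ := Option.isSome_iff_exists.1 h
  rw [sp_mono hp ht]; rfl

theorem exists_sp {i : ℕ} {r a b : List Bool} (ha : r <+: a) (hb : r <+: b)
    (h : spl i a b = true) : ∃ t, (sp i r t).isSome = true := by
  refine ⟨encode (a, b), srch_isSome_iff.2 ⟨(a, b), isp_iff.2 ⟨ha, hb, h⟩, le_rfl⟩⟩

theorem not_noSp {i : ℕ} {r : List Bool} (h : ¬ NoSp i r) : ∃ t, (sp i r t).isSome = true := by
  unfold NoSp at h
  push Not at h
  obtain ⟨a, b, ha, hb, h⟩ := h
  exact exists_sp ha hb (by simpa using h)

theorem noSp_of_none {i : ℕ} {r : List Bool} (h : ∀ t, sp i r t = none) : NoSp i r := by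
  by_contra hcon
  obtain ⟨t, ht⟩ := not_noSp hcon
  rw [h t] at ht
  simp at ht

theorem NoSp.sp_none {i : ℕ} {r : List Bool} (h : NoSp i r) (t : ℕ) : sp i r t = none := by
  cases h1 : sp i r t with
  | none => rfl
  | some p =>
    obtain ⟨k1, k2, k3, -, -⟩ := sp_some h1
    rw [h _ _ k1 k2] at k3
    exact absurd k3 (by simp)

theorem NoSp.mono {i : ℕ} {r s : List Bool} (h : NoSp i r) (hrs : r <+: s) : NoSp i s :=
  fun a b ha hb => h a b (hrs.trans ha) (hrs.trans hb)

theorem cv_mono {i : ℕ} {r : List Bool} {y t t' : ℕ}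
    (h : (cv i r y t).isSome = true) (ht : t ≤ t') : (cv i r y t').isSome = true := by
  obtain ⟨p, hp⟩ := Option.isSome_iff_exists.1 h
  unfold cv at *
  rw [srch_mono hp ht]; rfl

theorem exists_cv {i : ℕ} {r a : List Bool} {y : ℕ} (ha : r <+: a) (h : th i a y ≠ none) :
    ∃ t, (cv i r y t).isSome = true := by
  refine ⟨encode a, srch_isSome_iff.2 ⟨a, ?_, le_rfl⟩⟩
  cases h1 : th i a y with
  | none => exact absurd h1 h
  | some v => simp [ha]

theorem dead_eq_false {i : ℕ} {r : List Bool} {t : ℕ} :
    dead i r t = false ↔ (sp i r t).isSome = true ∧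
      ∀ y, y ≤ r.length → (cv i r y t).isSome = true := by
  unfold dead
  rw [Bool.or_eq_false_iff, List.any_eq_false]
  constructor
  · rintro ⟨h1, h2⟩
    refine ⟨?_, fun y hy => ?_⟩
    · cases h3 : sp i r t with
      | none => rw [h3] at h1; simp at h1
      | some p => rfl
    · have := h2 y (List.mem_range.2 (by omega))
      cases h3 : cv i r y t with
      | none => rw [h3] at this; simp at this
      | some p => rfl
  · rintro ⟨h1, h2⟩
    refine ⟨?_, fun y hy => ?_⟩
    · cases h3 : sp i r t with
      | none => rw [h3] at h1; simp at h1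
      | some p => rfl
    · have := h2 y (by have := List.mem_range.1 hy; omega)
      cases h3 : cv i r y t with
      | none => rw [h3] at this; simp at this
      | some p => simp

theorem dead_false_mono {i : ℕ} {r : List Bool} {t t' : ℕ} (h : dead i r t = false)
    (ht : t ≤ t') : dead i r t' = false := by
  rw [dead_eq_false] at *
  exact ⟨sp_isSome_mono h.1 ht, fun y hy => cv_mono (h.2 y hy) ht⟩

theorem not_Dead {i : ℕ} {r : List Bool} : ¬ Dead i r ↔ ∃ t, dead i r t = false := by
  constructor
  · intro h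
    unfold Dead at h
    push Not at h
    obtain ⟨h1, h2⟩ := h
    obtain ⟨t0, ht0⟩ := not_noSp h1
    have h3 : ∀ y, y ≤ r.length → ∃ t, (cv i r y t).isSome = true := fun y hy => by
      obtain ⟨a, ha, hn⟩ := h2 y hy
      exact exists_cv ha hn
    choose! tt htt using h3
    refine ⟨max t0 ((Finset.range (r.length + 1)).sup tt), dead_eq_false.2 ⟨?_, fun y hy => ?_⟩⟩
    · exact sp_isSome_mono ht0 (le_max_left _ _)
    · refine cv_mono (htt y hy) (le_trans ?_ (le_max_right _ _))
      exact Finset.le_sup (f := tt) (Finset.mem_range.2 (by omega))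
  · rintro ⟨t, ht⟩ hD
    rw [dead_eq_false] at ht
    rcases hD with h | ⟨y, hy, h⟩
    · rw [h.sp_none] at ht
      simp at ht
    · have h1 := ht.2 y hy
      unfold cv at h1
      rw [srch_isSome_iff] at h1
      obtain ⟨a, ha, -⟩ := h1
      simp only [Bool.and_eq_true, preb_iff] at ha
      rw [h a ha.1] at ha
      simp at ha

theorem Dead.dead {i : ℕ} {r : List Bool} (h : Dead i r) (t : ℕ) : dead i r t = true := by
  by_contra hcon
  exact (not_Dead.2 ⟨t, by simpa using hcon⟩) h

theorem Dead.mono {i : ℕ} {r s : List Bool} (h : Dead i r) (hrs : r <+: s) : Dead i s := by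
  rcases h with h | ⟨y, hy, h⟩
  · exact Or.inl (h.mono hrs)
  · exact Or.inr ⟨y, le_trans hy hrs.length_le, fun a ha => h a (hrs.trans ha)⟩

theorem mdead_some {i : ℕ} {r a : List Bool} {t : ℕ} (h : mdead i r t = some a) :
    r <+: a ∧ H69.dead i a t = true ∧ encode a ≤ t := by
  obtain ⟨h1, h2, -⟩ := srch_spec h
  simp only [Bool.and_eq_true, preb_iff] at h1
  exact ⟨h1.1, h1.2, h2⟩

/-- if there is a truly dead extension of code `≤ t` then the search succeeds, with a code at most
that of the truly dead one -/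
theorem mdead_of_Dead {i : ℕ} {r b : List Bool} {t : ℕ} (hrb : r <+: b) (hb : Dead i b)
    (ht : encode b ≤ t) : ∃ a, mdead i r t = some a ∧ encode a ≤ encode b := by
  refine srch_some (P := fun a => preb r a && H69.dead i a t) ?_ ht
  simp [hrb, hb.dead t]

/-! ### families -/

/-- `k`-th node of the family -/
def nd (l : List (List Bool)) (k : ℕ) : List Bool := (l[k]?).getD []

/-- incomparable -/
def inc (a b : List Bool) : Bool := !(preb a b) && !(preb b a)

/-- `l` is a list of `K` proper extensions of `r` which are pairwise incomparable and pairwise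
splitting for all `i ∈ F` -/
def famok (F : List ℕ) (r : List Bool) (K : ℕ) (l : List (List Bool)) : Bool :=
  decide (l.length = K) &&
  ((List.range K).all (fun k => preb r (nd l k) && (decide (r.length < (nd l k).length) &&
    (List.range k).all (fun j => inc (nd l j) (nd l k) &&
      F.all (fun i => spl i (nd l j) (nd l k))))))

theorem famok_iff {F : List ℕ} {r : List Bool} {K : ℕ} {l : List (List Bool)} :
    famok F r K l = true ↔ l.length = K ∧ ∀ k, k < K → r <+: nd l k ∧
      r.length < (nd l k).length ∧ ∀ j, j < k → inc (nd l j) (nd l k) = true ∧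
        ∀ i, i ∈ F → spl i (nd l j) (nd l k) = true := by
  unfold famok
  simp only [Bool.and_eq_true, decide_eq_true_eq, List.all_eq_true, List.mem_range, preb_iff]

/-- least family of code `≤ t` -/
def fam (F : List ℕ) (r : List Bool) (K t : ℕ) : Option (List (List Bool)) := srch t (famok F r K)

@[fun_prop] theorem RC.nd {l : α → List (List Bool)} {k : α → ℕ}
    (hl : RC O l) (hk : RC O k) : RC O fun x => nd (l x) (k x) := by
  unfold Pool.Agent.H69.nd
  fun_prop

@[fun_prop] theorem RC.inc {a b : α → List Bool}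
    (ha : RC O a) (hb : RC O b) : RC O fun x => inc (a x) (b x) := by
  unfold Pool.Agent.H69.inc
  fun_prop

@[fun_prop] theorem RC.famok {F : α → List ℕ} {r : α → List Bool} {K : α → ℕ}
    {l : α → List (List Bool)}
    (hF : RC O F) (hr : RC O r) (hK : RC O K) (hl : RC O l) :
    RC O fun x => famok (F x) (r x) (K x) (l x) := by
  unfold Pool.Agent.H69.famok
  fun_prop

@[fun_prop] theorem RC.fam {F : α → List ℕ} {r : α → List Bool} {K : α → ℕ}
    {t : α → ℕ} (hF : RC O F) (hr : RC O r) (hK : RC O K) (ht : RC O t) :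
    RC O fun x => fam (F x) (r x) (K x) (t x) := by
  unfold Pool.Agent.H69.fam
  fun_prop

theorem fam_mono {F : List ℕ} {r : List Bool} {K t t' : ℕ} {l : List (List Bool)}
    (h : fam F r K t = some l) (ht : t ≤ t') : fam F r K t' = some l := srch_mono h ht

theorem fam_isSome_mono {F : List ℕ} {r : List Bool} {K t t' : ℕ}
    (h : (fam F r K t).isSome = true) (ht : t ≤ t') : (fam F r K t').isSome = true := by
  obtain ⟨p, hp⟩ := Option.isSome_iff_exists.1 h
  rw [fam_mono hp ht]; rfl

/-- the greedy set of indices for which a family can be found in time -/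
def gre (r : List Bool) (K t m : ℕ) : List ℕ :=
  Nat.rec (motive := fun _ => List ℕ) []
    (fun i L => bif (!(dead i r t)) && (fam (L ++ [i]) r K t).isSome then L ++ [i] else L) m

theorem gre_succ (r : List Bool) (K t m : ℕ) : gre r K t (m + 1) =
    bif (!(dead m r t)) && (fam (gre r K t m ++ [m]) r K t).isSome then gre r K t m ++ [m]
      else gre r K t m := rfl

@[fun_prop] theorem RC.gre {r : α → List Bool} {K t m : α → ℕ}
    (hr : RC O r) (hK : RC O K) (ht : RC O t) (hm : RC O m) :
    RC O fun x => gre (r x) (K x) (t x) (m x) := by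
  unfold Pool.Agent.H69.gre
  fun_prop

theorem gre_pre (r : List Bool) (K t : ℕ) {m n : ℕ} (h : m ≤ n) :
    gre r K t m <+: gre r K t n := by
  induction n with
  | zero =>
    have : m = 0 := by omega
    subst this
    exact List.prefix_rfl
  | succ n ih =>
    rcases Nat.lt_or_eq_of_le h with h1 | h1
    · refine (ih (by omega)).trans ?_
      rw [gre_succ]
      cases (!(dead n r t)) && (fam (gre r K t n ++ [n]) r K t).isSome
      · exact List.prefix_rfl
      · exact List.prefix_append _ _
    · subst h1; exact List.prefix_rfl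

end Pool.Agent.H69
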